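import Mathlib

/-!
Product intersection sets of families of subsets of semigroups (after Marques and Nathanson).
-/

namespace Pool.Agent.X6.ProdInt

universe u v

/-- `A^h = {a_1 a_2 ... a_h : a_i ∈ A}` in a semigroup, for `h ≥ 1`: the products of the nonempty
lists `a :: l` of length `h` with entries in `A`, multiplied from left to right.
(For `h = 0` it is the empty set; only `h ≥ 1` is used.) -/
def setPow {S : Type u} [Semigroup S] (A : Set S) (h : ℕ) : Set S :=
  {x | ∃ (a : S) (l : List S), a ∈ A ∧ (∀ b ∈ l, b ∈ A) ∧ l.length + 1 = h ∧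
    x = l.foldl (fun y z => y * z) a}

/-- The product intersection set
`H(A_q) = {h ≥ 1 : (⋂ q, A_q)^h = ⋂ q, (A_q)^h}` of a family `(A_q)_{q ∈ Q}`. -/
def prodIntSet {S : Type u} [Semigroup S] {Q : Type v} (A : Q → Set S) : Set ℕ :=
  {h | 1 ≤ h ∧ setPow (⋂ q, A q) h = ⋂ q, setPow (A q) h}

/-- A sequence of sets is asymptotically strictly decreasing: `A_q ⊇ A_{q+1}` for all `q`, and
`A_q ≠ A_{q+1}` for infinitely many `q`. -/
def AsympStrictDecr {S : Type u} (A : ℕ → Set S) : Prop :=
  (∀ q, A (q + 1) ⊆ A q) ∧ {q | A q ≠ A (q + 1)}.Infinite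

/-- The elements of our semigroup: a zero, elements `z h`, and `pw h r k`, to be thought of as
the power `x_{h,r}^{k+1}` of a generator `x_{h,r}`. -/
inductive E : Type
  | zero : E
  | z (h : ℕ) : E
  | pw (h r k : ℕ) : E
  deriving DecidableEq

namespace E

/-- `x_{h,r}^{j} x_{h,r}^{k}` is `x_{h,r}^{j+k}` if `j + k < h`, is `z_h` if `j + k = h`;
all other products are zero. -/
def mul : E → E → E
  | pw h r j, pw h' r' k =>
      if h = h' ∧ r = r' then
        (if j + k + 2 < h then pw h r (j + k + 1) else if j + k + 2 = h then z h else zero)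
      else zero
  | _, _ => zero

instance : Mul E := ⟨mul⟩

theorem mul_def (a b : E) : a * b = mul a b := rfl

@[simp] theorem zero_mul' (a : E) : zero * a = zero := rfl
@[simp] theorem z_mul (h : ℕ) (a : E) : z h * a = zero := rfl
@[simp] theorem mul_zero' (a : E) : a * zero = zero := by cases a <;> rfl
@[simp] theorem mul_z (a : E) (h : ℕ) : a * z h = zero := by cases a <;> rfl

theorem pw_mul_pw (h r j h' r' k : ℕ) : pw h r j * pw h' r' k =
    if h = h' ∧ r = r' then
        (if j + k + 2 < h then pw h r (j + k + 1) else if j + k + 2 = h then z h else zero)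
      else zero := rfl

theorem mul_assoc' (a b c : E) : a * b * c = a * (b * c) := by
  cases a with
  | zero => simp
  | z h => simp
  | pw h r i =>
    cases b with
    | zero => simp
    | z h => simp
    | pw h' r' j =>
      cases c with
      | zero => simp
      | z h => simp
      | pw h'' r'' k =>
        by_cases e1 : h = h' ∧ r = r'
        · obtain ⟨rfl, rfl⟩ := e1
          by_cases e2 : h = h'' ∧ r = r''
          · obtain ⟨rfl, rfl⟩ := e2
            simp only [pw_mul_pw, and_self, if_true]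
            split_ifs <;> simp only [pw_mul_pw, z_mul, mul_z, zero_mul', mul_zero', and_self,
              if_true] <;> split_ifs <;> first | rfl | omega | (congr 1; omega)
          · simp only [pw_mul_pw, and_self, if_true, if_neg e2]
            split_ifs <;> simp [pw_mul_pw, e2]
        · simp only [pw_mul_pw, if_neg e1]
          split_ifs <;> simp [pw_mul_pw, e1]

instance : CommSemigroup E where
  mul_assoc := mul_assoc'
  mul_comm a b := by
    cases a with
    | zero => simp
    | z h => simp
    | pw h r i =>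
      cases b with
      | zero => simp
      | z h => simp
      | pw h' r' j =>
        by_cases e1 : h = h' ∧ r = r'
        · obtain ⟨rfl, rfl⟩ := e1
          simp only [pw_mul_pw, and_self, if_true, add_comm j i]
        · have e2 : ¬ (h' = h ∧ r' = r) := fun e => e1 ⟨e.1.symm, e.2.symm⟩
          simp only [pw_mul_pw, if_neg e1, if_neg e2]

/-- The generating sets: zero and the generators `x_{h,r}` with `r ≥ q` and `h ∉ X`. -/
def gen (X : Set ℕ) (q : ℕ) : Set E :=
  {x | x = zero ∨ ∃ h r, h ∉ X ∧ q ≤ r ∧ x = pw h r 0}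

theorem pw_injective {h r k h' r' k' : ℕ} (e : pw h r k = pw h' r' k') :
    h = h' ∧ r = r' ∧ k = k' := by
  injection e with e1 e2 e3
  exact ⟨e1, e2, e3⟩

end E

section general

variable {S : Type u} [Semigroup S]

theorem mem_setPow_one {A : Set S} {x : S} : x ∈ setPow A 1 ↔ x ∈ A := by
  constructor
  · rintro ⟨a, l, ha, -, hl, rfl⟩
    have : l = [] := List.eq_nil_of_length_eq_zero (by omega)
    subst this
    exact ha
  · intro hx
    exact ⟨x, [], hx, by simp, rfl, rfl⟩

theorem mem_setPow_succ {A : Set S} {n : ℕ} {x : S} :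
    x ∈ setPow A (n + 2) ↔ ∃ y ∈ setPow A (n + 1), ∃ b ∈ A, x = y * b := by
  constructor
  · rintro ⟨a, l, ha, hl, hn, rfl⟩
    rcases List.eq_nil_or_concat l with rfl | ⟨l', b, rfl⟩
    · simp at hn
    · refine ⟨l'.foldl (fun y z => y * z) a, ⟨a, l', ha, ?_, ?_, rfl⟩, b, ?_, ?_⟩
      · intro c hc
        exact hl c (by simp [hc])
      · simp at hn
        omega
      · exact hl b (by simp)
      · simp
  · rintro ⟨y, ⟨a, l, ha, hl, hn, rfl⟩, b, hb, rfl⟩
    refine ⟨a, l ++ [b], ha, ?_, ?_, ?_⟩
    · intro c hc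
      rcases List.mem_append.1 hc with hc | hc
      · exact hl c hc
      · rw [List.mem_singleton.1 hc]
        exact hb
    · simp
      omega
    · simp

theorem one_mem_prodIntSet {Q : Type v} (A : Q → Set S) : 1 ∈ prodIntSet A := by
  refine ⟨le_refl 1, ?_⟩
  ext x
  simp only [Set.mem_iInter, mem_setPow_one]

theorem zero_notMem_prodIntSet {Q : Type v} (A : Q → Set S) : 0 ∉ prodIntSet A := by
  rintro ⟨h, -⟩
  omega

end general

open E

theorem mem_setPow_gen {X : Set ℕ} {q n : ℕ} {x : E} (hx : x ∈ setPow (gen X q) (n + 1)) :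
    x = zero ∨ (∃ h r, h ∉ X ∧ q ≤ r ∧ x = pw h r n) ∨ (x = z (n + 1) ∧ n + 1 ∉ X) := by
  induction n generalizing x with
  | zero =>
    rcases mem_setPow_one.1 hx with h | h
    · exact Or.inl h
    · exact Or.inr (Or.inl h)
  | succ n ih =>
    obtain ⟨y, hy, b, hb, rfl⟩ := mem_setPow_succ.1 hx
    rcases ih hy with rfl | ⟨h, r, hX, hq, rfl⟩ | ⟨rfl, -⟩
    · exact Or.inl (zero_mul' b)
    · rcases hb with rfl | ⟨h', r', hX', hq', rfl⟩
      · exact Or.inl (mul_zero' _)
      · rw [pw_mul_pw]
        split_ifs with h1 h2 h3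
        · exact Or.inr (Or.inl ⟨h, r, hX, hq, rfl⟩)
        · refine Or.inr (Or.inr ⟨?_, ?_⟩)
          · rw [← h3]
          · rw [← h3] at hX; exact hX
        · exact Or.inl rfl
        · exact Or.inl rfl
    · exact Or.inl (z_mul _ b)

theorem zero_mem_setPow_gen (X : Set ℕ) (q n : ℕ) : zero ∈ setPow (gen X q) (n + 1) := by
  induction n with
  | zero => exact mem_setPow_one.2 (Or.inl rfl)
  | succ n ih => exact mem_setPow_succ.2 ⟨zero, ih, zero, Or.inl rfl, rfl⟩

theorem pw_mem_setPow_gen {X : Set ℕ} {h : ℕ} (hX : h ∉ X) (q n : ℕ) (hn : n + 1 < h) :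
    pw h q n ∈ setPow (gen X q) (n + 1) := by
  induction n with
  | zero => exact mem_setPow_one.2 (Or.inr ⟨h, q, hX, le_refl q, rfl⟩)
  | succ n ih =>
    refine mem_setPow_succ.2 ⟨pw h q n, ih (by omega), pw h q 0,
      Or.inr ⟨h, q, hX, le_refl q, rfl⟩, ?_⟩
    rw [pw_mul_pw, if_pos ⟨rfl, rfl⟩, if_pos (by omega)]

theorem z_mem_setPow_gen {X : Set ℕ} {h : ℕ} (hX : h + 2 ∉ X) (q : ℕ) :
    z (h + 2) ∈ setPow (gen X q) (h + 2) := by
  refine mem_setPow_succ.2 ⟨pw (h + 2) q h, pw_mem_setPow_gen hX q h (by omega),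
    pw (h + 2) q 0, Or.inr ⟨h + 2, q, hX, le_refl q, rfl⟩, ?_⟩
  rw [pw_mul_pw, if_pos ⟨rfl, rfl⟩, if_neg (by omega), if_pos (by omega)]

theorem iInter_gen {Q : Type v} (f : Q → ℕ) (hf : Function.Surjective f) (X : Set ℕ) :
    (⋂ q, gen X (f q)) = {zero} := by
  ext x
  simp only [Set.mem_iInter, Set.mem_singleton_iff]
  constructor
  · intro hx
    obtain ⟨q0, -⟩ := hf 0
    rcases hx q0 with h | ⟨h, r, -, -, rfl⟩
    · exact h
    · obtain ⟨q1, hq1⟩ := hf (r + 1)
      rcases hx q1 with h' | ⟨h', r', -, hr', e⟩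
      · exact h'
      · obtain ⟨-, e2, -⟩ := pw_injective e
        omega
  · rintro rfl q
    exact Or.inl rfl

theorem setPow_singleton_zero (n : ℕ) : setPow ({zero} : Set E) (n + 1) = {zero} := by
  induction n with
  | zero =>
    ext x
    exact mem_setPow_one
  | succ n ih =>
    ext x
    rw [mem_setPow_succ, ih]
    constructor
    · rintro ⟨y, hy, b, hb, rfl⟩
      rw [Set.mem_singleton_iff.1 hy]
      rfl
    · intro hx
      exact ⟨zero, rfl, zero, rfl, hx⟩

/-- The main computation: `H = X`. -/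
theorem prodIntSet_gen {Q : Type v} (f : Q → ℕ) (hf : Function.Surjective f) {X : Set ℕ}
    (h1 : 1 ∈ X) (h0 : 0 ∉ X) : prodIntSet (fun q => gen X (f q)) = X := by
  ext h
  constructor
  · rintro ⟨hh, e⟩
    by_contra hX
    obtain ⟨m, rfl⟩ : ∃ m, h = m + 2 := by
      refine ⟨h - 2, ?_⟩
      rcases Nat.lt_or_ge h 2 with h2 | h2
      · have : h = 1 := by omega
        subst this
        exact absurd h1 hX
      · omega
    rw [iInter_gen f hf X, setPow_singleton_zero] at e
    have hz : z (m + 2) ∈ ⋂ q, setPow (gen X (f q)) (m + 2) :=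
      Set.mem_iInter.2 fun q => z_mem_setPow_gen hX (f q)
    rw [← e] at hz
    simp at hz
  · intro hX
    obtain ⟨m, rfl⟩ : ∃ m, h = m + 1 := by
      refine ⟨h - 1, ?_⟩
      rcases Nat.eq_zero_or_pos h with h2 | h2
      · subst h2
        exact absurd hX h0
      · omega
    refine ⟨by omega, ?_⟩
    rw [iInter_gen f hf X, setPow_singleton_zero]
    ext x
    simp only [Set.mem_singleton_iff, Set.mem_iInter]
    constructor
    · rintro rfl q
      exact zero_mem_setPow_gen X (f q) m
    · intro hx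
      obtain ⟨q0, -⟩ := hf 0
      rcases mem_setPow_gen (hx q0) with h | ⟨h, r, -, -, rfl⟩ | ⟨-, h⟩
      · exact h
      · obtain ⟨q1, hq1⟩ := hf (r + 1)
        rcases mem_setPow_gen (hx q1) with h' | ⟨h', r', -, hr', e⟩ | ⟨-, h'⟩
        · exact h'
        · obtain ⟨-, e2, -⟩ := pw_injective e
          omega
        · exact absurd hX h'
      · exact absurd hX h

theorem gen_succ_subset (X : Set ℕ) (q : ℕ) : gen X (q + 1) ⊆ gen X q := by
  rintro x (h | ⟨h, r, hX, hr, rfl⟩)
  · exact Or.inl h
  · exact Or.inr ⟨h, r, hX, by omega, rfl⟩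

theorem gen_injective {X : Set ℕ} (h0 : 0 ∉ X) : Function.Injective (gen X) := by
  have key : ∀ a b : ℕ, a < b → gen X a ≠ gen X b := by
    intro a b hab e
    have h : pw 0 a 0 ∈ gen X a := Or.inr ⟨0, a, h0, le_refl a, rfl⟩
    rw [e] at h
    rcases h with h | ⟨h', r, -, hr, e⟩
    · exact E.noConfusion h
    · obtain ⟨-, e2, -⟩ := pw_injective e
      omega
  intro a b hab
  rcases lt_trichotomy a b with h | h | h
  · exact absurd hab (key a b h)
  · exact h
  · exact absurd hab.symm (key b a h)

theorem asympStrictDecr_gen {X : Set ℕ} (h0 : 0 ∉ X) : AsympStrictDecr (gen X) := by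
  refine ⟨gen_succ_subset X, ?_⟩
  have : {q | gen X q ≠ gen X (q + 1)} = Set.univ := by
    ext q
    simp only [Set.mem_ofPred_eq, Set.mem_univ, iff_true]
    intro e
    have := gen_injective h0 e
    omega
  rw [this]
  exact Set.infinite_univ

instance : Countable E := by
  let g : E → ℕ × ℕ × ℕ × ℕ := fun x => match x with
    | E.zero => (0, 0, 0, 0)
    | E.z h => (1, h, 0, 0)
    | E.pw h r k => (2, h, r, k)
  have hg : Function.Injective g := by
    intro a b hab
    cases a <;> cases b <;> simp_all [g]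
  exact hg.countable

/-! ### Lifting to an arbitrary universe -/

section lift

theorem setPow_image {S : Type u} {T : Type v} [Semigroup S] [Semigroup T] (e : S ≃* T)
    (A : Set S) (h : ℕ) : setPow (e '' A) h = e '' setPow A h := by
  rcases Nat.eq_zero_or_pos h with rfl | hh
  · ext x
    constructor
    · rintro ⟨a, l, -, -, hl, -⟩
      omega
    · rintro ⟨y, ⟨a, l, -, -, hl, -⟩, -⟩
      omega
  · obtain ⟨n, rfl⟩ : ∃ n, h = n + 1 := ⟨h - 1, by omega⟩
    induction n with
    | zero =>
      ext x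
      rw [mem_setPow_one]
      constructor
      · rintro ⟨a, ha, rfl⟩
        exact ⟨a, mem_setPow_one.2 ha, rfl⟩
      · rintro ⟨a, ha, rfl⟩
        exact ⟨a, mem_setPow_one.1 ha, rfl⟩
    | succ n ih =>
      ext x
      rw [mem_setPow_succ, ih (by omega)]
      constructor
      · rintro ⟨y, ⟨y', hy', rfl⟩, b, ⟨b', hb', rfl⟩, rfl⟩
        exact ⟨y' * b', mem_setPow_succ.2 ⟨y', hy', b', hb', rfl⟩, map_mul e y' b'⟩
      · rintro ⟨y, hy, rfl⟩
        obtain ⟨y', hy', b', hb', rfl⟩ := mem_setPow_succ.1 hy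
        exact ⟨e y', ⟨y', hy', rfl⟩, e b', ⟨b', hb', rfl⟩, map_mul e y' b'⟩

theorem prodIntSet_image {S : Type u} {T : Type v} [Semigroup S] [Semigroup T] (e : S ≃* T)
    {Q : Type*} (A : Q → Set S) : prodIntSet (fun q => e '' A q) = prodIntSet A := by
  have hinj : Function.Injective (fun B : Set S => e '' B) := e.injective.image_injective
  ext h
  unfold prodIntSet
  simp only [Set.mem_ofPred_eq]
  rw [← Set.image_iInter e.bijective, setPow_image]
  simp only [setPow_image]
  rw [← Set.image_iInter e.bijective]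
  constructor
  · rintro ⟨h1, h2⟩
    exact ⟨h1, hinj h2⟩
  · rintro ⟨h1, h2⟩
    exact ⟨h1, by rw [h2]⟩

end lift

/-- In every universe there is a countable commutative semigroup realising, for each `X ∋ 1`, the
set `X` both by strictly decreasing sequences and by families over any infinite index set. -/
theorem exists_universal :
    ∃ (S : Type u) (_ : CommSemigroup S), Countable S ∧
      ∀ X : Set ℕ, 1 ∈ X → 0 ∉ X →
        ∃ B : ℕ → Set S, AsympStrictDecr B ∧ Function.Injective B ∧
          ∀ (Q : Type v) (f : Q → ℕ), Function.Surjective f →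
            prodIntSet (fun q => B (f q)) = X := by
  refine ⟨ULift.{u} E, inferInstance, inferInstance, ?_⟩
  intro X h1 h0
  let e : E ≃* ULift.{u} E := MulEquiv.ulift.symm
  have hinj : Function.Injective (fun B : Set E => e '' B) := e.injective.image_injective
  refine ⟨fun n => e '' gen X n, ⟨fun q => Set.image_mono (gen_succ_subset X q), ?_⟩,
    fun a b hab => gen_injective h0 (hinj hab), ?_⟩
  · refine (asympStrictDecr_gen h0).2.mono ?_
    intro q hq e'
    exact hq (hinj e')
  · intro Q f hf
    rw [prodIntSet_image e (fun q => gen X (f q)), prodIntSet_gen f hf h1 h0]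

end Pool.Agent.X6.ProdInt
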