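import Mathlib

/-!
Points of the surface `(x³ - 3x) + (y³ - 3y) + (z³ - 3z) = -2` over `F_p`.
-/

namespace Pool.Agent.X6.Cubic

open Finset

variable {F : Type*} [Field F] [Fintype F] [DecidableEq F]

/-- the solutions -/
def surf (F : Type*) [Field F] [Fintype F] [DecidableEq F] : Finset (Fin 3 → F) :=
  Finset.univ.filter (fun x => ∑ i, (x i ^ 3 - 3 * x i) = -2)

theorem mem_surf (x : Fin 3 → F) : x ∈ surf F ↔
    (x 0 ^ 3 - 3 * x 0) + (x 1 ^ 3 - 3 * x 1) + (x 2 ^ 3 - 3 * x 2) = -2 := by
  unfold surf
  rw [Finset.mem_filter, Fin.sum_univ_three]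
  simp

theorem card_sq_roots (h2 : (2 : F) ≠ 0) (a c : F) (ha : a ≠ 0) :
    (Finset.univ.filter (fun m : F => a * m ^ 2 + c = 0)).card ≤ 2 := by
  rcases (Finset.univ.filter (fun m : F => a * m ^ 2 + c = 0)).eq_empty_or_nonempty with h | ⟨m0, hm0⟩
  · rw [h]
    simp
  · refine (Finset.card_le_card (t := {m0, -m0}) ?_).trans Finset.card_le_two
    intro m hm
    rw [Finset.mem_filter] at hm hm0
    have h1 : a * ((m - m0) * (m + m0)) = 0 := by linear_combination hm.2 - hm0.2
    rcases mul_eq_zero.1 h1 with h | h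
    · exact absurd h ha
    · rcases mul_eq_zero.1 h with h | h
      · rw [Finset.mem_insert]
        exact Or.inl (sub_eq_zero.1 h)
      · rw [Finset.mem_insert, Finset.mem_singleton]
        exact Or.inr (eq_neg_of_add_eq_zero_left h)

theorem card_surf (h2 : (2 : F) ≠ 0) (h3 : (3 : F) ≠ 0) :
    Fintype.card F ^ 2 ≤ (surf F).card + Fintype.card F := by
  classical
  set q := Fintype.card F with hq
  -- first family
  let Dn : F × F → F := fun z => 3 * z.2 ^ 2 + (1 + 4 * z.1 ^ 3)
  let sn : F × F → F := fun z => -12 * (z.2 + z.1 ^ 2) / Dn z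
  let dn : F × F → F := fun z => 2 + z.2 * sn z
  let f1 : F × F → (Fin 3 → F) := fun z => ![(sn z + dn z) / 2, (sn z - dn z) / 2, 1 + z.1 * sn z]
  set D1 : Finset (F × F) := Finset.univ.filter (fun z => Dn z ≠ 0 ∧ z.2 + z.1 ^ 2 ≠ 0) with hD1
  let f2 : F × Bool → (Fin 3 → F) := fun z => ![z.1, -z.1, if z.2 then 1 else -2]
  have hsn : ∀ z ∈ D1, sn z ≠ 0 := by
    intro z hz
    rw [hD1, Finset.mem_filter] at hz
    have h12 : (-12 : F) ≠ 0 := by
      have : (-12 : F) = -(2 * 2 * 3) := by norm_num
      rw [this]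
      exact neg_ne_zero.2 (mul_ne_zero (mul_ne_zero h2 h2) h3)
    exact div_ne_zero (mul_ne_zero h12 hz.2.2) hz.2.1
  have m1 : ∀ z ∈ D1, f1 z ∈ surf F := by
    intro z hz
    have hz' := hz
    rw [hD1, Finset.mem_filter] at hz'
    obtain ⟨-, hD, hm⟩ := hz'
    have e1 : sn z * Dn z = -12 * (z.2 + z.1 ^ 2) := div_mul_cancel₀ _ hD
    rw [mem_surf]
    show ((sn z + dn z) / 2) ^ 3 - 3 * ((sn z + dn z) / 2) +
      (((sn z - dn z) / 2) ^ 3 - 3 * ((sn z - dn z) / 2)) +
      ((1 + z.1 * sn z) ^ 3 - 3 * (1 + z.1 * sn z)) = -2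
    have e2 : dn z = 2 + z.2 * sn z := rfl
    have e3 : Dn z = 3 * z.2 ^ 2 + (1 + 4 * z.1 ^ 3) := rfl
    have h4 : (4 : F) ≠ 0 := by
      have : (4 : F) = 2 * 2 := by norm_num
      rw [this]
      exact mul_ne_zero h2 h2
    rw [e2]
    rw [e3] at e1
    field_simp
    linear_combination (2 * sn z ^ 2) * e1
  have i1 : Set.InjOn f1 D1 := by
    intro z hz z' hz' heq
    have hs := hsn z hz
    have hs' := hsn z' hz'
    have c0 : (sn z + dn z) / 2 = (sn z' + dn z') / 2 := congrFun heq 0
    have c1 : (sn z - dn z) / 2 = (sn z' - dn z') / 2 := congrFun heq 1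
    have c2 : 1 + z.1 * sn z = 1 + z'.1 * sn z' := congrFun heq 2
    have c0' : sn z + dn z = sn z' + dn z' := by
      have := congrArg (fun t => t * 2) c0
      simpa [div_mul_cancel₀ _ h2] using this
    have c1' : sn z - dn z = sn z' - dn z' := by
      have := congrArg (fun t => t * 2) c1
      simpa [div_mul_cancel₀ _ h2] using this
    have e1 : sn z = sn z' := by
      have : 2 * sn z = 2 * sn z' := by linear_combination c0' + c1'
      exact mul_left_cancel₀ h2 this
    have e2 : dn z = dn z' := by linear_combination c0' - e1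
    have e3 : z.2 = z'.2 := by
      have : z.2 * sn z = z'.2 * sn z' := by
        have h5 : 2 + z.2 * sn z = 2 + z'.2 * sn z' := e2
        linear_combination h5
      rw [← e1] at this
      exact mul_right_cancel₀ hs this
    have e4 : z.1 = z'.1 := by
      have : z.1 * sn z = z'.1 * sn z' := by linear_combination c2
      rw [← e1] at this
      exact mul_right_cancel₀ hs this
    exact Prod.ext e4 e3
  have m2 : ∀ z, f2 z ∈ surf F := by
    intro z
    rw [mem_surf]
    show z.1 ^ 3 - 3 * z.1 + ((-z.1) ^ 3 - 3 * (-z.1)) +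
      ((if z.2 then (1 : F) else -2) ^ 3 - 3 * (if z.2 then (1 : F) else -2)) = -2
    split_ifs <;> ring
  have i2 : Function.Injective f2 := by
    rintro ⟨a, b⟩ ⟨a', b'⟩ heq
    have c0 : a = a' := congrFun heq 0
    have c2 : (if b then (1 : F) else -2) = if b' then (1 : F) else -2 := congrFun heq 2
    have h12 : (1 : F) ≠ -2 := by
      intro h
      apply h3
      linear_combination h
    have e : b = b' := by
      cases b <;> cases b' <;> simp_all
    rw [c0, e]
  have hdisj : Disjoint (D1.image f1) (Finset.univ.image f2) := by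
    rw [Finset.disjoint_left]
    intro x hx hx'
    rw [Finset.mem_image] at hx hx'
    obtain ⟨z, hz, rfl⟩ := hx
    obtain ⟨z', -, h⟩ := hx'
    have c0 : z'.1 = (sn z + dn z) / 2 := congrFun h 0
    have c1 : -z'.1 = (sn z - dn z) / 2 := congrFun h 1
    apply hsn z hz
    have c2 : (sn z + dn z) / 2 + (sn z - dn z) / 2 = 0 := by rw [← c0, ← c1]; ring
    field_simp at c2
    have : sn z * 2 = 0 := by linear_combination c2
    exact (mul_eq_zero.1 this).resolve_right h2
  have hcard : D1.card + 2 * q ≤ (surf F).card := by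
    have h1 : (D1.image f1 ∪ Finset.univ.image f2).card ≤ (surf F).card := by
      apply Finset.card_le_card
      intro x hx
      rw [Finset.mem_union, Finset.mem_image, Finset.mem_image] at hx
      rcases hx with ⟨z, hz, rfl⟩ | ⟨z, -, rfl⟩
      · exact m1 z hz
      · exact m2 z
    rw [Finset.card_union_of_disjoint hdisj, Finset.card_image_of_injOn i1,
      Finset.card_image_of_injective _ i2, Finset.card_univ, Fintype.card_prod,
      Fintype.card_bool] at h1
    omega
  have hcompl : q * q ≤ D1.card + 3 * q := by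
    have h1 : (Finset.univ : Finset (F × F)) ⊆ D1 ∪
        ((Finset.univ.filter (fun z : F × F => Dn z = 0)) ∪
          (Finset.univ.image (fun t : F => (t, -t ^ 2)))) := by
      intro z _
      simp only [Finset.mem_union, Finset.mem_image, hD1, Finset.mem_filter, Finset.mem_univ,
        true_and]
      by_cases h : Dn z = 0
      · exact Or.inr (Or.inl h)
      · by_cases h' : z.2 + z.1 ^ 2 = 0
        · right
          right
          refine ⟨z.1, ?_⟩
          exact Prod.ext rfl (by
            show -z.1 ^ 2 = z.2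
            linear_combination -h')
        · exact Or.inl ⟨h, h'⟩
    have h2' := Finset.card_le_card h1
    rw [Finset.card_univ, Fintype.card_prod, ← hq] at h2'
    have h3' := Finset.card_union_le D1 ((Finset.univ.filter (fun z : F × F => Dn z = 0)) ∪
          (Finset.univ.image (fun t : F => (t, -t ^ 2))))
    have h4' := Finset.card_union_le (Finset.univ.filter (fun z : F × F => Dn z = 0))
          (Finset.univ.image (fun t : F => (t, -t ^ 2)))
    have h5' : (Finset.univ.image (fun t : F => (t, -t ^ 2))).card ≤ q := Finset.card_image_le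
    have h6' : (Finset.univ.filter (fun z : F × F => Dn z = 0)).card ≤ 2 * q := by
      have e1 : ∀ z ∈ Finset.univ.filter (fun z : F × F => Dn z = 0), z.1 ∈ (Finset.univ : Finset F) :=
        fun z _ => Finset.mem_univ _
      rw [Finset.card_eq_sum_card_fiberwise e1]
      have e2 : ∀ t ∈ (Finset.univ : Finset F),
          ((Finset.univ.filter (fun z : F × F => Dn z = 0)).filter (fun z => z.1 = t)).card ≤ 2 := by
        intro t _
        refine le_trans ?_ (card_sq_roots h2 3 (1 + 4 * t ^ 3) h3)
        refine Finset.card_le_card_of_injOn (fun z => z.2) ?_ ?_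
        · intro z hz
          rw [Finset.mem_coe, Finset.mem_filter, Finset.mem_filter] at hz
          rw [Finset.mem_coe, Finset.mem_filter]
          refine ⟨Finset.mem_univ _, ?_⟩
          rw [← hz.2]
          exact hz.1.2
        · intro z hz z' hz' h
          rw [Finset.mem_coe, Finset.mem_filter] at hz hz'
          exact Prod.ext (hz.2.trans hz'.2.symm) h
      refine (Finset.sum_le_card_nsmul _ _ _ e2).trans ?_
      rw [Finset.card_univ, smul_eq_mul, mul_comm, ← hq]
    omega
  rw [pow_two]
  omega

end Pool.Agent.X6.Cubic
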