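import Mathlib
import Pool.Agent.X6.Cubic1

/-!
Lifting the solutions of `∑ P(x_i) = c` from `Z/p` to `Z/p²`.
-/

namespace Pool.Agent.X6.Cubic

open Finset Polynomial

/-- the number of solutions of `∑ P(x_i) = c` in the ring `R` -/
noncomputable def cnt (P : ℤ[X]) (h : ℕ) (R : Type*) [CommRing R] (c : R) : ℕ :=
  Nat.card {x : Fin h → R // ∑ i, aeval (x i) P = c}

section Lift

variable (p : ℕ) [hp : Fact p.Prime]

instance neZero_sq : NeZero (p ^ 2) := ⟨pow_ne_zero _ hp.out.ne_zero⟩

/-- reduction -/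
noncomputable def pr : ZMod (p ^ 2) →+* ZMod p := ZMod.castHom (dvd_pow_self p two_ne_zero) (ZMod p)

/-- a section of `pr` -/
noncomputable def io (a : ZMod p) : ZMod (p ^ 2) := (a.val : ℕ)

theorem pr_io (a : ZMod p) : pr p (io p a) = a := by
  unfold pr io
  rw [map_natCast, ZMod.natCast_zmod_val]

theorem pr_eq (y : ZMod (p ^ 2)) : pr p y = ((y.val : ℕ) : ZMod p) := by
  conv_lhs => rw [← ZMod.natCast_zmod_val y]
  unfold pr
  rw [map_natCast]

theorem p_mul_congr {m n : ℕ} (h : (m : ZMod p) = n) :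
    (p : ZMod (p ^ 2)) * m = (p : ZMod (p ^ 2)) * n := by
  rw [ZMod.natCast_eq_natCast_iff] at h
  have h1 : p * m ≡ p * n [MOD p * p] := Nat.ModEq.mul_left' p h
  rw [← pow_two] at h1
  have h2 := (ZMod.natCast_eq_natCast_iff (p * m) (p * n) (p ^ 2)).2 h1
  push_cast at h2
  exact h2

/-- the isomorphism of `Z/p` with `p Z/p²` -/
noncomputable def jo : ZMod p →+ ZMod (p ^ 2) where
  toFun u := (p : ZMod (p ^ 2)) * (u.val : ℕ)
  map_zero' := by simp
  map_add' u v := by
    rw [← mul_add, ← Nat.cast_add]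
    apply p_mul_congr
    simp

theorem jo_apply (u : ZMod p) : jo p u = (p : ZMod (p ^ 2)) * (u.val : ℕ) := rfl

theorem jo_eq {m : ℕ} {u : ZMod p} (h : (m : ZMod p) = u) : jo p u = (p : ZMod (p ^ 2)) * m := by
  rw [jo_apply]
  apply p_mul_congr
  rw [ZMod.natCast_zmod_val, h]

theorem p_sq : (p : ZMod (p ^ 2)) * p = 0 := by
  have e : (p : ZMod (p ^ 2)) * p = ((p ^ 2 : ℕ) : ZMod (p ^ 2)) := by
    push_cast
    ring
  rw [e]
  exact ZMod.natCast_self _

theorem jo_sq (u : ZMod p) : (jo p u) ^ 2 = 0 := by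
  rw [jo_apply]
  linear_combination ((u.val : ZMod (p ^ 2)) ^ 2) * p_sq p

theorem mul_jo (y : ZMod (p ^ 2)) (u : ZMod p) : y * jo p u = jo p (pr p y * u) := by
  have h1 : jo p (pr p y * u) = (p : ZMod (p ^ 2)) * ((y.val * u.val : ℕ) : ZMod (p ^ 2)) := by
    apply jo_eq
    push_cast
    rw [ZMod.natCast_zmod_val, pr_eq]
  rw [h1, jo_apply]
  conv_lhs => rw [← ZMod.natCast_zmod_val y]
  push_cast
  ring

theorem jo_inj : Function.Injective (jo p) := by
  rw [injective_iff_map_eq_zero]
  intro u hu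
  rw [jo_apply] at hu
  have h1 : ((p * u.val : ℕ) : ZMod (p ^ 2)) = 0 := by
    push_cast
    exact hu
  rw [ZMod.natCast_eq_zero_iff, pow_two] at h1
  have h2 := Nat.dvd_of_mul_dvd_mul_left hp.out.pos h1
  have h3 : u.val = 0 := Nat.eq_zero_of_dvd_of_lt h2 (ZMod.val_lt u)
  exact (ZMod.val_eq_zero u).1 h3

theorem exists_jo {y : ZMod (p ^ 2)} (hy : pr p y = 0) : ∃ κ, y = jo p κ := by
  rw [pr_eq, ZMod.natCast_eq_zero_iff] at hy
  obtain ⟨k, hk⟩ := hy
  refine ⟨(k : ZMod p), ?_⟩
  rw [jo_eq p (m := k) rfl]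
  conv_lhs => rw [← ZMod.natCast_zmod_val y, hk]
  push_cast
  ring

theorem pr_jo (u : ZMod p) : pr p (jo p u) = 0 := by
  rw [jo_apply, map_mul]
  have : pr p (p : ZMod (p ^ 2)) = 0 := by
    unfold pr
    rw [map_natCast, ZMod.natCast_self]
  rw [this, zero_mul]

theorem pr_aeval (P : ℤ[X]) (y : ZMod (p ^ 2)) : pr p (aeval y P) = aeval (pr p y) P := by
  have := Polynomial.aeval_algHom_apply (pr p).toIntAlgHom y P
  simpa using this.symm

/-- solutions of a linear equation -/
theorem linear_count {h : ℕ} (w : Fin h → ZMod p) (i0 : Fin h) (hw : w i0 ≠ 0) (κ : ZMod p) :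
    p ^ h ≤ p * (Finset.univ.filter (fun u : Fin h → ZMod p => κ + ∑ i, w i * u i = 0)).card := by
  classical
  have h1 : ∀ u ∈ (Finset.univ : Finset (Fin h → ZMod p)), κ + ∑ i, w i * u i ∈
      (Finset.univ : Finset (ZMod p)) := fun _ _ => Finset.mem_univ _
  have h2 := Finset.card_eq_sum_card_fiberwise h1
  rw [Finset.card_univ, Fintype.card_fun, ZMod.card, Fintype.card_fin] at h2
  rw [h2]
  refine (Finset.sum_le_card_nsmul _ _
    (Finset.univ.filter (fun u : Fin h → ZMod p => κ + ∑ i, w i * u i = 0)).card ?_).trans ?_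
  · intro t _
    refine Finset.card_le_card_of_injOn (fun u => fun i => if i = i0 then u i - (w i0)⁻¹ * t else u i)
      ?_ ?_
    · intro u hu
      rw [Finset.mem_coe, Finset.mem_filter] at hu
      rw [Finset.mem_coe, Finset.mem_filter]
      refine ⟨Finset.mem_univ _, ?_⟩
      have e1 : ∀ i, w i * (if i = i0 then u i - (w i0)⁻¹ * t else u i) =
          w i * u i - (if i = i0 then t else 0) := by
        intro i
        split_ifs with hi
        · rw [hi]
          field_simp
        · ring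
      simp only [e1]
      rw [Finset.sum_sub_distrib, Finset.sum_ite_eq' Finset.univ i0 (fun _ => t)]
      simp only [Finset.mem_univ, if_true]
      linear_combination hu.2
    · intro u _ v _ huv
      funext i
      have e2 := congrFun huv i
      simp only at e2
      split_ifs at e2 with hi
      · linear_combination e2
      · exact e2
  · rw [Finset.card_univ, ZMod.card, smul_eq_mul]

/-- the number of lifts -/
theorem lift_count (P : ℤ[X]) (h : ℕ) (c : ZMod (p ^ 2)) (S Good : Finset (Fin h → ZMod p))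
    (hS : ∀ a ∈ S, ∑ i, aeval (a i) P = pr p c ∧ ∃ i, aeval (a i) (derivative P) ≠ 0)
    (hG : ∀ a ∈ Good, (∑ i, aeval (io p (a i)) P = c) ∧ ∀ i, aeval (a i) (derivative P) = 0) :
    S.card * p ^ h + p * (Good.card * p ^ h) ≤ p * cnt P h (ZMod (p ^ 2)) c := by
  classical
  let Φ : (Fin h → ZMod p) × (Fin h → ZMod p) → (Fin h → ZMod (p ^ 2)) :=
    fun z i => io p (z.1 i) + jo p (z.2 i)
  have hΦ : Function.Injective Φ := by
    rintro ⟨a, u⟩ ⟨a', u'⟩ heq
    have key : ∀ i, a i = a' i ∧ u i = u' i := by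
      intro i
      have e := congrFun heq i
      have e1 := congrArg (pr p) e
      simp only [Φ, map_add, pr_io, pr_jo, add_zero] at e1
      refine ⟨e1, ?_⟩
      simp only [Φ, e1, add_right_inj] at e
      exact jo_inj p e
    exact Prod.ext (funext fun i => (key i).1) (funext fun i => (key i).2)
  have hval : ∀ a u : Fin h → ZMod p, ∑ i, aeval (Φ (a, u) i) P =
      ∑ i, aeval (io p (a i)) P + jo p (∑ i, aeval (a i) (derivative P) * u i) := by
    intro a u
    rw [map_sum, ← Finset.sum_add_distrib]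
    refine Finset.sum_congr rfl (fun i _ => ?_)
    show aeval (io p (a i) + jo p (u i)) P = _
    rw [aeval_add_of_sq_eq_zero _ _ _ (jo_sq p (u i)), mul_jo, pr_aeval, pr_io]
  set T : Finset ((Fin h → ZMod p) × (Fin h → ZMod p)) :=
    Finset.univ.filter (fun z => ∑ i, aeval (Φ z i) P = c) with hT
  have hTc : T.card ≤ cnt P h (ZMod (p ^ 2)) c := by
    unfold cnt
    rw [← Fintype.card_coe, ← Nat.card_eq_fintype_card]
    refine Nat.card_le_card_of_injective
      (fun z : T => (⟨Φ z.1, (Finset.mem_filter.1 z.2).2⟩ :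
        {x : Fin h → ZMod (p ^ 2) // ∑ i, aeval (x i) P = c})) ?_
    intro z z' hz
    exact Subtype.ext (hΦ (congrArg Subtype.val hz))
  -- the fibres
  have hfibS : ∀ a ∈ S, p ^ h ≤ p * (T.filter (fun z => z.1 = a)).card := by
    intro a ha
    obtain ⟨ha1, i0, hi0⟩ := hS a ha
    have e1 : pr p (∑ i, aeval (io p (a i)) P - c) = 0 := by
      rw [map_sub, map_sum, ← ha1]
      simp only [pr_aeval, pr_io, sub_self]
    obtain ⟨κ, hκ⟩ := exists_jo p e1
    refine (linear_count p (fun i => aeval (a i) (derivative P)) i0 hi0 κ).trans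
      (Nat.mul_le_mul_left p ?_)
    refine Finset.card_le_card_of_injOn (fun u => (a, u)) ?_ ?_
    · intro u hu
      rw [Finset.mem_coe, Finset.mem_filter] at hu
      rw [Finset.mem_coe, Finset.mem_filter, hT, Finset.mem_filter]
      refine ⟨⟨Finset.mem_univ _, ?_⟩, rfl⟩
      rw [hval]
      have e2 : jo p κ + jo p (∑ i, aeval (a i) (derivative P) * u i) = 0 := by
        rw [← map_add, hu.2, map_zero]
      rw [← hκ] at e2
      linear_combination e2
    · intro u _ v _ huv
      exact (Prod.ext_iff.1 huv).2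
  have hfibG : ∀ a ∈ Good, p ^ h ≤ (T.filter (fun z => z.1 = a)).card := by
    intro a ha
    obtain ⟨ha1, ha2⟩ := hG a ha
    have e0 : p ^ h = (Finset.univ : Finset (Fin h → ZMod p)).card := by
      rw [Finset.card_univ, Fintype.card_fun, ZMod.card, Fintype.card_fin]
    rw [e0]
    refine Finset.card_le_card_of_injOn (fun u => (a, u)) ?_ ?_
    · intro u _
      rw [Finset.mem_coe, Finset.mem_filter, hT, Finset.mem_filter]
      refine ⟨⟨Finset.mem_univ _, ?_⟩, rfl⟩
      rw [hval, ha1]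
      simp only [ha2, zero_mul, Finset.sum_const_zero, map_zero, add_zero]
    · intro u _ v _ huv
      exact (Prod.ext_iff.1 huv).2
  have hdisj : Disjoint S Good := by
    rw [Finset.disjoint_left]
    intro a ha ha'
    obtain ⟨-, i0, hi0⟩ := hS a ha
    exact hi0 ((hG a ha').2 i0)
  have hsum : ∑ a ∈ S ∪ Good, (T.filter (fun z => z.1 = a)).card ≤ T.card := by
    have h1 : ∀ z ∈ T, z.1 ∈ (Finset.univ : Finset (Fin h → ZMod p)) := fun _ _ => Finset.mem_univ _
    rw [Finset.card_eq_sum_card_fiberwise h1]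
    exact Finset.sum_le_sum_of_subset (Finset.subset_univ _)
  rw [Finset.sum_union hdisj] at hsum
  have hS' : S.card * p ^ h ≤ p * ∑ a ∈ S, (T.filter (fun z => z.1 = a)).card := by
    rw [Finset.mul_sum, ← smul_eq_mul]
    exact Finset.card_nsmul_le_sum _ _ _ hfibS
  have hG' : Good.card * p ^ h ≤ ∑ a ∈ Good, (T.filter (fun z => z.1 = a)).card := by
    rw [← smul_eq_mul]
    exact Finset.card_nsmul_le_sum _ _ _ hfibG
  calc S.card * p ^ h + p * (Good.card * p ^ h) ≤
      p * ∑ a ∈ S, (T.filter (fun z => z.1 = a)).card +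
        p * ∑ a ∈ Good, (T.filter (fun z => z.1 = a)).card :=
        Nat.add_le_add hS' (Nat.mul_le_mul_left p hG')
    _ = p * (∑ a ∈ S, (T.filter (fun z => z.1 = a)).card +
        ∑ a ∈ Good, (T.filter (fun z => z.1 = a)).card) := by ring
    _ ≤ p * cnt P h (ZMod (p ^ 2)) c := Nat.mul_le_mul_left p (hsum.trans hTc)

end Lift

end Pool.Agent.X6.Cubic
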