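import Mathlib

/-!
Many solutions of `x_1^h + ... + x_h^h ≡ 0 (mod p^(h m))`.
-/

namespace Pool.Agent.X6.NearPow

open Finset

/-- `x_1, ..., x_h < R` with `Q ∣ x_1^h + ... + x_h^h` -/
def sols (h Q R : ℕ) : Finset (Fin h → ℕ) :=
  (Fintype.piFinset (fun _ => Finset.range R)).filter (fun x => Q ∣ ∑ i, x i ^ h)

theorem mem_sols {h Q R : ℕ} {x : Fin h → ℕ} :
    x ∈ sols h Q R ↔ (∀ i, x i < R) ∧ Q ∣ ∑ i, x i ^ h := by
  unfold sols
  rw [Finset.mem_filter, Fintype.mem_piFinset]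
  simp only [Finset.mem_range]

/-- periodicity -/
theorem sols_mul (h Q B : ℕ) (hQ : 0 < Q) :
    B ^ h * (sols h Q Q).card ≤ (sols h Q (B * Q)).card := by
  have h1 : (Fintype.piFinset (fun _ : Fin h => Finset.range B)).card = B ^ h := by
    rw [Fintype.card_piFinset]
    simp
  rw [← h1, ← Finset.card_product]
  refine Finset.card_le_card_of_injOn (fun z i => z.2 i + Q * z.1 i) ?_ ?_
  · rintro ⟨u, y⟩ hz
    rw [Finset.mem_coe, Finset.mem_product, Fintype.mem_piFinset] at hz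
    obtain ⟨hu, hy⟩ := hz
    simp only [Finset.mem_range] at hu
    simp only at hy
    rw [mem_sols] at hy
    rw [Finset.mem_coe, mem_sols]
    refine ⟨fun i => ?_, ?_⟩
    · simp only
      have e1 := hu i
      have e2 := hy.1 i
      calc y i + Q * u i < Q + Q * u i := by omega
        _ = Q * (u i + 1) := by ring
        _ ≤ Q * B := Nat.mul_le_mul_left Q e1
        _ = B * Q := mul_comm _ _
    · have e1 : ∑ i, (y i + Q * u i) ^ h ≡ ∑ i, y i ^ h [MOD Q] := by
        apply Nat.ModEq.sum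
        intro i _
        apply Nat.ModEq.pow
        exact (Nat.modEq_iff_dvd' (by omega)).2 (by simp) |>.symm
      exact (Nat.ModEq.dvd_iff e1 (dvd_refl Q)).2 hy.2
  · rintro ⟨u, y⟩ hz ⟨u', y'⟩ hz' hh
    rw [Finset.mem_coe, Finset.mem_product] at hz hz'
    obtain ⟨-, hy⟩ := hz
    obtain ⟨-, hy'⟩ := hz'
    simp only at hy hy'
    rw [mem_sols] at hy hy'
    have key : ∀ i, u i = u' i ∧ y i = y' i := by
      intro i
      have e := congrFun hh i
      simp only at e
      have e1 := hy.1 i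
      have e2 := hy'.1 i
      have e3 : (y i + Q * u i) / Q = u i := by
        rw [Nat.add_mul_div_left _ _ hQ, Nat.div_eq_of_lt e1, zero_add]
      have e4 : (y' i + Q * u' i) / Q = u' i := by
        rw [Nat.add_mul_div_left _ _ hQ, Nat.div_eq_of_lt e2, zero_add]
      have e5 : u i = u' i := by rw [← e3, ← e4, e]
      refine ⟨e5, ?_⟩
      rw [e5] at e
      omega
    exact Prod.ext (funext fun i => (key i).1) (funext fun i => (key i).2)

/-- primitive solutions -/
def prim (h p Q : ℕ) : Finset (Fin h → ℕ) := (sols h Q Q).filter (fun x => ∃ i, ¬ p ∣ x i)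

theorem sols_rec (h p Q : ℕ) (hh : 1 ≤ h) (hp : p.Prime) (hQ : 0 < Q) :
    (prim h p (p ^ h * Q)).card + (p ^ (h - 1)) ^ h * (sols h Q Q).card ≤
      (sols h (p ^ h * Q) (p ^ h * Q)).card := by
  have h1 : (sols h (p ^ h * Q) (p ^ h * Q)).card = (prim h p (p ^ h * Q)).card +
      ((sols h (p ^ h * Q) (p ^ h * Q)).filter (fun x => ¬ ∃ i, ¬ p ∣ x i)).card :=
    (Finset.card_filter_add_card_filter_not _).symm
  rw [h1]
  refine Nat.add_le_add_left ?_ _
  refine (sols_mul h Q (p ^ (h - 1)) hQ).trans ?_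
  refine Finset.card_le_card_of_injOn (fun y i => p * y i) ?_ ?_
  · intro y hy
    rw [Finset.mem_coe, mem_sols] at hy
    rw [Finset.mem_coe, Finset.mem_filter, mem_sols]
    refine ⟨⟨fun i => ?_, ?_⟩, ?_⟩
    · simp only
      have e1 := hy.1 i
      have e2 : p ^ h = p * p ^ (h - 1) := by
        rw [← pow_succ', Nat.sub_add_cancel hh]
      rw [e2, mul_assoc]
      exact Nat.mul_lt_mul_of_pos_left e1 hp.pos
    · simp only [mul_pow]
      rw [← Finset.mul_sum]
      exact Nat.mul_dvd_mul_left _ hy.2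
    · push Not
      intro i
      exact dvd_mul_right p _
  · intro y _ y' _ hh
    funext i
    exact Nat.eq_of_mul_eq_mul_left hp.pos (congrFun hh i)

theorem sols_lower (h p D : ℕ) (hh : 1 ≤ h) (hp : p.Prime)
    (hprim : ∀ L, 1 ≤ L → (p ^ L) ^ (h - 1) ≤ D * (prim h p (p ^ L)).card) (m : ℕ) :
    m * (p ^ (h * m)) ^ (h - 1) ≤ D * (sols h (p ^ (h * m)) (p ^ (h * m))).card := by
  induction m with
  | zero => simp
  | succ m ih =>
    have e0 : p ^ (h * (m + 1)) = p ^ h * p ^ (h * m) := by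
      rw [← pow_add]
      congr 1
      ring
    have h1 := sols_rec h p (p ^ (h * m)) hh hp (pow_pos hp.pos _)
    have h2 := hprim (h * (m + 1)) (Nat.mul_pos (by omega) (by omega))
    rw [e0] at h2 ⊢
    have e1 : (p ^ h * p ^ (h * m)) ^ (h - 1) = (p ^ (h - 1)) ^ h * (p ^ (h * m)) ^ (h - 1) := by
      rw [mul_pow]
      congr 1
      rw [← pow_mul, ← pow_mul, mul_comm]
    calc (m + 1) * (p ^ h * p ^ (h * m)) ^ (h - 1)
        = (p ^ h * p ^ (h * m)) ^ (h - 1) + (p ^ (h - 1)) ^ h * (m * (p ^ (h * m)) ^ (h - 1)) := by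
          rw [e1]
          ring
      _ ≤ D * (prim h p (p ^ h * p ^ (h * m))).card +
          (p ^ (h - 1)) ^ h * (D * (sols h (p ^ (h * m)) (p ^ (h * m))).card) :=
          Nat.add_le_add h2 (Nat.mul_le_mul_left _ ih)
      _ = D * ((prim h p (p ^ h * p ^ (h * m))).card +
          (p ^ (h - 1)) ^ h * (sols h (p ^ (h * m)) (p ^ (h * m))).card) := by ring
      _ ≤ _ := Nat.mul_le_mul_left _ h1

/-! ### Odd exponents: the prime two -/

theorem odd_root {h : ℕ} (hh : Odd h) {L : ℕ} (hL : 1 ≤ L) {s : ℕ} (hs : Odd s) :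
    ∃ z, z < 2 ^ L ∧ 2 ^ L ∣ z ^ h + s := by
  have : NeZero (2 ^ L) := ⟨by positivity⟩
  have hcop : Nat.Coprime s (2 ^ L) := (Nat.Coprime.pow_right L (Nat.coprime_two_right.2 hs))
  have hcard : (Nat.card (ZMod (2 ^ L))ˣ).Coprime h := by
    rw [Nat.card_eq_fintype_card, ZMod.card_units_eq_totient,
      Nat.totient_prime_pow Nat.prime_two (by omega)]
    simp only [Nat.add_one_sub_one, mul_one]
    exact Nat.Coprime.pow_left _ (Nat.coprime_two_left.2 hh)
  obtain ⟨v, hv⟩ := (powCoprime hcard).surjective (- (ZMod.unitOfCoprime s hcop))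
  refine ⟨(v : ZMod (2 ^ L)).val, ZMod.val_lt _, ?_⟩
  rw [← ZMod.natCast_eq_zero_iff]
  push_cast
  rw [ZMod.natCast_zmod_val]
  have h1 : v ^ h = - (ZMod.unitOfCoprime s hcop) := hv
  have h2 := congrArg (fun u : (ZMod (2 ^ L))ˣ => (u : ZMod (2 ^ L))) h1
  simp only [Units.val_pow_eq_pow_val, Units.val_neg, ZMod.coe_unitOfCoprime] at h2
  rw [h2]
  ring

theorem prim_odd {k : ℕ} (hh : Odd (k + 2)) (L : ℕ) (hL : 1 ≤ L) :
    (2 ^ L) ^ (k + 2 - 1) ≤ 2 ^ (k + 2) * (prim (k + 2) 2 (2 ^ L)).card := by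
  -- first coordinate odd, the others even
  let w : (Fin (k + 1) → ℕ) → (Fin (k + 1) → ℕ) := fun a i => if i = 0 then 2 * a i + 1 else 2 * a i
  have hodd : ∀ a, Odd (∑ i, w a i ^ (k + 2)) := by
    intro a
    rw [Fin.sum_univ_succ]
    have e1 : Odd (w a 0 ^ (k + 2)) := by
      apply Odd.pow
      simp only [w, if_true]
      exact odd_two_mul_add_one _
    have e2 : Even (∑ i : Fin k, w a i.succ ^ (k + 2)) := by
      apply Finset.even_sum
      intro i _
      apply Even.pow_of_ne_zero _ (by omega)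
      simp only [w, if_neg (Fin.succ_ne_zero i)]
      exact even_two_mul _
    exact e1.add_even e2
  choose z hz1 hz2 using fun a => odd_root hh hL (hodd a)
  have hinj : ∀ a b, w a = w b → a = b := by
    intro a b hab
    funext i
    have := congrFun hab i
    simp only [w] at this
    split_ifs at this <;> omega
  have h1 : (2 ^ (L - 1)) ^ (k + 1) ≤ (prim (k + 2) 2 (2 ^ L)).card := by
    have h2 : (Fintype.piFinset (fun _ : Fin (k + 1) => Finset.range (2 ^ (L - 1)))).card =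
        (2 ^ (L - 1)) ^ (k + 1) := by
      rw [Fintype.card_piFinset]
      simp
    rw [← h2]
    refine Finset.card_le_card_of_injOn (fun a => (Fin.cons (z a) (w a) : Fin (k + 2) → ℕ)) ?_ ?_
    · intro a ha
      rw [Finset.mem_coe, Fintype.mem_piFinset] at ha
      simp only [Finset.mem_range] at ha
      have e2 : 2 ^ L = 2 * 2 ^ (L - 1) := by
        rw [← pow_succ', Nat.sub_add_cancel hL]
      rw [Finset.mem_coe, prim, Finset.mem_filter, mem_sols]
      refine ⟨⟨fun i => ?_, ?_⟩, ⟨1, ?_⟩⟩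
      · refine Fin.cases ?_ (fun j => ?_) i
        · simpa using hz1 a
        · simp only [Fin.cons_succ, w]
          have := ha j
          split_ifs <;> omega
      · rw [Fin.sum_univ_succ]
        simp only [Fin.cons_zero, Fin.cons_succ]
        exact hz2 a
      · change ¬ 2 ∣ w a 0
        simp only [w, if_true]
        omega
    · intro a _ b _ hab
      simp only at hab
      exact hinj a b (Fin.cons_injective2 hab).2
  have e3 : (2 ^ L) ^ (k + 2 - 1) = 2 ^ (k + 1) * (2 ^ (L - 1)) ^ (k + 1) := by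
    have e2 : 2 ^ L = 2 * 2 ^ (L - 1) := by
      rw [← pow_succ', Nat.sub_add_cancel hL]
    rw [show k + 2 - 1 = k + 1 from rfl, e2, mul_pow]
  rw [e3]
  refine Nat.mul_le_mul ?_ h1
  exact Nat.pow_le_pow_right (by norm_num) (by omega)

/-! ### Even exponents: primes `p ≡ 1 (mod 2 h)` -/

theorem exists_iota {h p L : ℕ} (hh : 1 ≤ h) (hp : p.Prime) (hp2 : p ≠ 2) (hmod : 2 * h ∣ p - 1)
    (hL : 1 ≤ L) : ∃ u : (ZMod (p ^ L))ˣ, u ^ h = -1 := by
  have : NeZero (p ^ L) := ⟨pow_ne_zero _ hp.ne_zero⟩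
  have : IsCyclic (ZMod (p ^ L))ˣ := ZMod.isCyclic_units_of_prime_pow p hp hp2 L
  obtain ⟨g, hg⟩ := IsCyclic.exists_generator (α := (ZMod (p ^ L))ˣ)
  have hord : orderOf g = Fintype.card (ZMod (p ^ L))ˣ := by
    rw [orderOf_eq_card_of_forall_mem_zpowers hg, Nat.card_eq_fintype_card]
  obtain ⟨n, hn⟩ : 2 * h ∣ orderOf g := by
    rw [hord, ZMod.card_units_eq_totient, Nat.totient_prime_pow hp (by omega)]
    exact Dvd.dvd.mul_left hmod _
  have hpos : 0 < orderOf g := orderOf_pos g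
  have hn0 : 0 < n := by
    rcases Nat.eq_zero_or_pos n with h0 | h0
    · rw [h0, mul_zero] at hn
      omega
    · exact h0
  obtain ⟨j, hj⟩ : ∃ j : ℕ, g ^ j = -1 := by
    have := hg (-1)
    rw [← mem_powers_iff_mem_zpowers] at this
    exact this
  have h1 : g ^ (j * (2 * n)) = 1 := by
    rw [pow_mul, hj, pow_mul]
    simp
  have h2 : orderOf g ∣ j * (2 * n) := orderOf_dvd_of_pow_eq_one h1
  rw [hn] at h2
  have h3 : h ∣ j := by
    have e1 : 2 * h * n = h * (2 * n) := by ring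
    rw [e1] at h2
    exact Nat.dvd_of_mul_dvd_mul_right (by omega) h2
  obtain ⟨i, rfl⟩ := h3
  refine ⟨g ^ i, ?_⟩
  rw [← pow_mul, mul_comm i h]
  exact hj

theorem prim_even {k p : ℕ} (hk : 1 ≤ k) (hp : p.Prime) (hp2 : p ≠ 2)
    (hmod : 2 * (k + k) ∣ p - 1) (L : ℕ) (hL : 1 ≤ L) :
    (p ^ L) ^ (k + k - 1) ≤ 2 ^ (k + k) * (prim (k + k) p (p ^ L)).card := by
  classical
  have : NeZero (p ^ L) := ⟨pow_ne_zero _ hp.ne_zero⟩
  have : Fact (1 < p ^ L) := ⟨Nat.one_lt_pow (by omega) hp.one_lt⟩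
  obtain ⟨ι, hι⟩ := exists_iota (h := k + k) (by omega) hp hp2 hmod hL
  let f : (Fin k → (ZMod (p ^ L))ˣ) → (ZMod (p ^ L)) := fun x => ∑ i, ((x i : (ZMod (p ^ L))ˣ) : (ZMod (p ^ L))) ^ (k + k)
  set P : Finset ((Fin k → (ZMod (p ^ L))ˣ) × (Fin k → (ZMod (p ^ L))ˣ)) :=
    Finset.univ.filter (fun z => f z.1 = f z.2) with hP
  have hcardU : 2 * Fintype.card (ZMod (p ^ L))ˣ ≥ p ^ L := by
    rw [ZMod.card_units_eq_totient, Nat.totient_prime_pow hp (by omega)]
    have e1 : p ^ L = p ^ (L - 1) * p := by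
      rw [← pow_succ, Nat.sub_add_cancel hL]
    rw [e1]
    have : p ≤ 2 * (p - 1) := by
      have := hp.two_le
      omega
    calc p ^ (L - 1) * p ≤ p ^ (L - 1) * (2 * (p - 1)) := Nat.mul_le_mul_left _ this
      _ = 2 * (p ^ (L - 1) * (p - 1)) := by ring
  have hcardR : Fintype.card (ZMod (p ^ L)) = p ^ L := ZMod.card _
  -- Cauchy and Schwarz
  have hcs : (Fintype.card (ZMod (p ^ L))ˣ) ^ (k + k) ≤ p ^ L * P.card := by
    have e1 : ∑ r : (ZMod (p ^ L)), (Finset.univ.filter (fun x => f x = r)).card = (Fintype.card (ZMod (p ^ L))ˣ) ^ k := by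
      rw [← Finset.card_eq_sum_card_fiberwise (f := f) (s := Finset.univ) (t := Finset.univ)
        (fun x _ => Finset.mem_univ _), Finset.card_univ, Fintype.card_fun, Fintype.card_fin]
    have e2 : ∑ r : (ZMod (p ^ L)), (Finset.univ.filter (fun x => f x = r)).card ^ 2 = P.card := by
      rw [Finset.card_eq_sum_card_fiberwise (f := fun z : (Fin k → (ZMod (p ^ L))ˣ) × (Fin k → (ZMod (p ^ L))ˣ) => f z.1)
        (s := P) (t := Finset.univ) (fun x _ => Finset.mem_univ _)]
      refine Finset.sum_congr rfl fun r _ => ?_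
      rw [sq, ← Finset.card_product]
      congr 1
      ext ⟨x, y⟩
      simp only [Finset.mem_product, Finset.mem_filter, Finset.mem_univ, true_and, hP]
      constructor
      · rintro ⟨h1, h2⟩
        exact ⟨h1.trans h2.symm, h1⟩
      · rintro ⟨h1, h2⟩
        exact ⟨h2, h1.symm.trans h2⟩
    have e3 := sq_sum_le_card_mul_sum_sq (s := (Finset.univ : Finset (ZMod (p ^ L))))
      (f := fun r => (Finset.univ.filter (fun x => f x = r)).card)
    rw [e1, e2, Finset.card_univ, hcardR] at e3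
    calc (Fintype.card (ZMod (p ^ L))ˣ) ^ (k + k) = ((Fintype.card (ZMod (p ^ L))ˣ) ^ k) ^ 2 := by
          rw [pow_add, sq]
      _ ≤ _ := e3
  -- injection into the primitive solutions
  have hinj : P.card ≤ (prim (k + k) p (p ^ L)).card := by
    refine Finset.card_le_card_of_injOn (fun z i => ((Fin.append (fun i => ((z.1 i : (ZMod (p ^ L))ˣ) : (ZMod (p ^ L))))
      (fun i => (((ι * z.2 i : (ZMod (p ^ L))ˣ)) : (ZMod (p ^ L)))) i : (ZMod (p ^ L)))).val) ?_ ?_
    · rintro ⟨x, y⟩ hz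
      rw [Finset.mem_coe, hP, Finset.mem_filter] at hz
      have hz := hz.2
      simp only at hz
      rw [Finset.mem_coe, prim, Finset.mem_filter, mem_sols]
      refine ⟨⟨fun i => ZMod.val_lt _, ?_⟩, ?_⟩
      · rw [← ZMod.natCast_eq_zero_iff]
        push_cast
        simp only [ZMod.natCast_val, ZMod.cast_id', id]
        rw [Fin.sum_univ_add]
        simp only [Fin.append_left, Fin.append_right, Units.val_mul]
        have e1 : ∀ i, (((ι : (ZMod (p ^ L))ˣ) : (ZMod (p ^ L))) * ((y i : (ZMod (p ^ L))ˣ) : (ZMod (p ^ L)))) ^ (k + k) = - ((y i : (ZMod (p ^ L))ˣ) : (ZMod (p ^ L))) ^ (k + k) := by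
          intro i
          rw [mul_pow]
          have : ((ι : (ZMod (p ^ L))ˣ) : (ZMod (p ^ L))) ^ (k + k) = -1 := by
            have := congrArg (fun u : (ZMod (p ^ L))ˣ => (u : (ZMod (p ^ L)))) hι
            simpa using this
          rw [this]
          ring
        simp only [e1]
        rw [Finset.sum_neg_distrib]
        have : ∑ i, ((x i : (ZMod (p ^ L))ˣ) : (ZMod (p ^ L))) ^ (k + k) = ∑ i, ((y i : (ZMod (p ^ L))ˣ) : (ZMod (p ^ L))) ^ (k + k) := hz
        rw [this]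
        ring
      · refine ⟨Fin.castAdd k ⟨0, hk⟩, ?_⟩
        simp only [Fin.append_left]
        intro hdvd
        have hcop := ZMod.val_coe_unit_coprime (x ⟨0, hk⟩)
        have h2 : p ∣ p ^ L := dvd_pow_self p (by omega)
        have h3 := Nat.dvd_gcd hdvd h2
        rw [Nat.Coprime] at hcop
        rw [hcop] at h3
        exact hp.one_lt.ne' (Nat.dvd_one.1 h3)
    · rintro ⟨x, y⟩ _ ⟨x', y'⟩ _ hh
      have key : ∀ i, (Fin.append (fun i => ((x i : (ZMod (p ^ L))ˣ) : (ZMod (p ^ L)))) (fun i => (((ι * y i : (ZMod (p ^ L))ˣ)) : (ZMod (p ^ L)))) i : (ZMod (p ^ L))) =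
          (Fin.append (fun i => ((x' i : (ZMod (p ^ L))ˣ) : (ZMod (p ^ L)))) (fun i => (((ι * y' i : (ZMod (p ^ L))ˣ)) : (ZMod (p ^ L)))) i : (ZMod (p ^ L))) := by
        intro i
        exact ZMod.val_injective _ (congrFun hh i)
      refine Prod.ext (funext fun i => ?_) (funext fun i => ?_)
      · have := key (Fin.castAdd k i)
        simp only [Fin.append_left] at this
        exact Units.ext this
      · have := key (Fin.natAdd k i)
        simp only [Fin.append_right] at this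
        exact mul_left_cancel (Units.ext this)
  have hfin : (p ^ L) ^ (k + k) ≤ 2 ^ (k + k) * (p ^ L * (prim (k + k) p (p ^ L)).card) := by
    calc (p ^ L) ^ (k + k) ≤ (2 * Fintype.card (ZMod (p ^ L))ˣ) ^ (k + k) := Nat.pow_le_pow_left hcardU _
      _ = 2 ^ (k + k) * (Fintype.card (ZMod (p ^ L))ˣ) ^ (k + k) := by rw [mul_pow]
      _ ≤ 2 ^ (k + k) * (p ^ L * P.card) := Nat.mul_le_mul_left _ hcs
      _ ≤ _ := Nat.mul_le_mul_left _ (Nat.mul_le_mul_left _ hinj)
  have e1 : (p ^ L) ^ (k + k) = p ^ L * (p ^ L) ^ (k + k - 1) := by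
    rw [← pow_succ', Nat.sub_add_cancel (by omega)]
  rw [e1] at hfin
  have hpos : 0 < p ^ L := pow_pos hp.pos _
  refine Nat.le_of_mul_le_mul_left ?_ hpos
  calc p ^ L * (p ^ L) ^ (k + k - 1) ≤ _ := hfin
    _ = _ := by ring

/-- For every `h ≥ 2` there is a prime `p` with many primitive solutions modulo all `p^L`. -/
theorem exists_prime (h : ℕ) (hh : 2 ≤ h) : ∃ p : ℕ, p.Prime ∧
    ∀ L, 1 ≤ L → (p ^ L) ^ (h - 1) ≤ 2 ^ h * (prim h p (p ^ L)).card := by
  rcases Nat.even_or_odd h with he | ho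
  · obtain ⟨k, rfl⟩ := he
    obtain ⟨p, hp, hp2, hmod⟩ := Nat.exists_prime_gt_modEq_one (k := 2 * (k + k)) 2 (by omega)
    refine ⟨p, hp, prim_even (by omega) hp (by omega) ?_⟩
    exact (Nat.modEq_iff_dvd' hp.one_lt.le).1 hmod.symm
  · obtain ⟨k, rfl⟩ : ∃ k, h = k + 2 := ⟨h - 2, by omega⟩
    exact ⟨2, Nat.prime_two, prim_odd ho⟩

end Pool.Agent.X6.NearPow
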