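import Mathlib
import Pool.Agent.X6.NearPow1

/-!
Sets with a bounded representation function of order `h` stay away from the dilates of the
`h`-th powers.
-/

namespace Pool.Agent.X6.NearPow

open Finset

/-- The representations of `n` as a sum of `h` elements of `A`, the order of the summands being
disregarded: the multisets of `h` elements of `A` with sum `n`. -/
def reps (A : Set ℕ) (h n : ℕ) : Set (Multiset ℕ) :=
  {s | Multiset.card s = h ∧ (∀ a ∈ s, a ∈ A) ∧ s.sum = n}

/-- The unordered representation function `r_{A,h}(n)`. -/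
noncomputable def r (A : Set ℕ) (h n : ℕ) : ℕ := (reps A h n).ncard

theorem reps_finite (A : Set ℕ) (h n : ℕ) : (reps A h n).Finite := by
  refine (Finset.finite_toSet (h • Multiset.range (n + 1)).powerset.toFinset).subset ?_
  rintro s ⟨hc, -, hs⟩
  rw [Finset.mem_coe, Multiset.mem_toFinset, Multiset.mem_powerset, Multiset.le_iff_count]
  intro a
  rw [Multiset.count_nsmul]
  by_cases ha : a ∈ s
  · have h1 : a ≤ n := by
      rw [← hs]
      exact Multiset.single_le_sum (fun _ _ => Nat.zero_le _) a ha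
    have h2 : a ∈ Multiset.range (n + 1) := Multiset.mem_range.2 (by omega)
    have h3 : 1 ≤ Multiset.count a (Multiset.range (n + 1)) := Multiset.one_le_count_iff_mem.2 h2
    have h4 : Multiset.count a s ≤ h := by
      rw [← hc]
      exact Multiset.count_le_card a s
    calc Multiset.count a s ≤ h * 1 := by omega
      _ ≤ _ := Nat.mul_le_mul_left h h3
  · rw [Multiset.count_eq_zero_of_notMem ha]
    exact Nat.zero_le _

theorem card_near {T : Finset ℕ} {y z : ℝ} (hT : ∀ n ∈ T, |(n : ℝ) - y| ≤ z) :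
    T.card ≤ ⌊2 * z⌋₊ + 1 := by
  rcases T.eq_empty_or_nonempty with rfl | hne
  · simp
  · have hz : 0 ≤ z := by
      obtain ⟨n, hn⟩ := hne
      exact (abs_nonneg _).trans (hT n hn)
    have h1 : T ⊆ Finset.Icc (T.min' hne) (T.min' hne + ⌊2 * z⌋₊) := by
      intro n hn
      rw [Finset.mem_Icc]
      refine ⟨T.min'_le n hn, ?_⟩
      have e1 := hT n hn
      have e2 := hT _ (T.min'_mem hne)
      rw [abs_le] at e1 e2
      have e3 : ((n - T.min' hne : ℕ) : ℝ) ≤ 2 * z := by
        rw [Nat.cast_sub (T.min'_le n hn)]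
        linarith
      have e4 := Nat.le_floor e3
      omega
    refine (Finset.card_le_card h1).trans ?_
    rw [Nat.card_Icc]
    omega

theorem card_near_pow {T : Finset ℕ} {h : ℕ} (hh : 1 ≤ h) {b c c₁ τ w : ℝ} (hc₁ : 0 < c₁)
    (hc : c₁ ≤ c) (hT : ∀ x ∈ T, |b - (c * (x : ℝ) ^ h + τ)| ≤ w) :
    T.card ≤ ⌊2 * w / c₁⌋₊ + 1 := by
  rcases T.eq_empty_or_nonempty with rfl | hne
  · simp
  · have h1 : T ⊆ Finset.Icc (T.min' hne) (T.min' hne + ⌊2 * w / c₁⌋₊) := by
      intro n hn
      rw [Finset.mem_Icc]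
      refine ⟨T.min'_le n hn, ?_⟩
      have e1 := hT n hn
      have e2 := hT _ (T.min'_mem hne)
      rw [abs_le] at e1 e2
      set m := T.min' hne with hm
      have hmn : m ≤ n := T.min'_le n hn
      have e0 : ((n : ℝ) - m) ≤ (n : ℝ) ^ h - (m : ℝ) ^ h := by
        obtain ⟨k, rfl⟩ : ∃ k, h = k + 1 := ⟨h - 1, by omega⟩
        have f1 : n - m ≤ n ^ (k + 1) - m ^ (k + 1) := by
          rcases Nat.eq_zero_or_pos n with h0 | h0
          · omega
          · have f2 : m ^ k ≤ n ^ k := Nat.pow_le_pow_left hmn k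
            have f3 : 1 ≤ n ^ k := Nat.one_le_pow _ _ h0
            have f4 : m ^ (k + 1) ≤ n ^ k * m := by
              rw [pow_succ]
              exact Nat.mul_le_mul_right m f2
            calc n - m ≤ n ^ k * (n - m) := Nat.le_mul_of_pos_left _ f3
              _ = n ^ k * n - n ^ k * m := Nat.mul_sub _ _ _
              _ ≤ n ^ (k + 1) - m ^ (k + 1) := by
                  rw [← pow_succ]
                  exact Nat.sub_le_sub_left f4 _
        have f5 : ((n - m : ℕ) : ℝ) ≤ ((n ^ (k + 1) - m ^ (k + 1) : ℕ) : ℝ) := by exact_mod_cast f1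
        rw [Nat.cast_sub hmn, Nat.cast_sub (Nat.pow_le_pow_left hmn _)] at f5
        push_cast at f5
        exact f5
      have e3 : ((n - m : ℕ) : ℝ) ≤ 2 * w / c₁ := by
        have hnm : (0 : ℝ) ≤ (n : ℝ) - m := by
          have : (m : ℝ) ≤ n := by exact_mod_cast hmn
          linarith
        rw [Nat.cast_sub hmn, le_div_iff₀ hc₁]
        calc ((n : ℝ) - m) * c₁ ≤ ((n : ℝ) - m) * c := mul_le_mul_of_nonneg_left hc hnm
          _ = c * ((n : ℝ) - m) := mul_comm _ _
          _ ≤ c * ((n : ℝ) ^ h - (m : ℝ) ^ h) := mul_le_mul_of_nonneg_left e0 (by linarith)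
          _ ≤ 2 * w := by linarith
      have e4 := Nat.le_floor e3
      omega
    refine (Finset.card_le_card h1).trans ?_
    rw [Nat.card_Icc]
    omega

/-- tuples with a bad coordinate -/
theorem card_bad {h N : ℕ} (hh : 1 ≤ h) (S : Finset ℕ) :
    ((Fintype.piFinset (fun _ : Fin h => Finset.range N)).filter (fun x => ∃ i, x i ∈ S)).card ≤
      h * (S.card * N ^ (h - 1)) := by
  classical
  have h1 : (Fintype.piFinset (fun _ : Fin h => Finset.range N)).filter (fun x => ∃ i, x i ∈ S) ⊆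
      Finset.univ.biUnion (fun i : Fin h => Fintype.piFinset
        (fun j : Fin h => if j = i then S else Finset.range N)) := by
    intro x hx
    rw [Finset.mem_filter, Fintype.mem_piFinset] at hx
    obtain ⟨hx, i, hi⟩ := hx
    rw [Finset.mem_biUnion]
    refine ⟨i, Finset.mem_univ _, ?_⟩
    rw [Fintype.mem_piFinset]
    intro j
    split_ifs with e
    · rw [e]
      exact hi
    · exact hx j
  refine (Finset.card_le_card h1).trans ?_
  refine (Finset.card_biUnion_le_card_mul _ _ (S.card * N ^ (h - 1)) ?_).trans ?_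
  · intro i _
    rw [Fintype.card_piFinset]
    have : ∀ j : Fin h, (if j = i then S else Finset.range N).card =
        if j = i then S.card else N := by
      intro j
      split_ifs
      · rfl
      · simp
    simp only [this]
    rw [Finset.prod_ite, Finset.prod_const, Finset.prod_const]
    have e1 : (Finset.univ.filter (fun j : Fin h => j = i)).card = 1 := by
      rw [Finset.filter_eq']
      simp
    have e2 : (Finset.univ.filter (fun j : Fin h => ¬ j = i)).card = h - 1 := by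
      rw [Finset.filter_not, Finset.card_sdiff_of_subset (Finset.filter_subset _ _), e1]
      simp
    rw [e1, e2, pow_one]
  · simp

/-- the number of tuples of good integers with a given sum of `h`-th powers is bounded -/
theorem fiber_bound {h K : ℕ} (hh : 1 ≤ h) {c c₁ τ w : ℝ} (hc₁ : 0 < c₁) (hc : c₁ ≤ c)
    {A : Set ℕ} (hA : ∀ n, r A h n ≤ K) (b : ℕ → ℕ) (E : Finset (Fin h → ℕ)) (v : ℕ)
    (hE : ∀ x ∈ E, (∀ i, b (x i) ∈ A ∧ |(b (x i) : ℝ) - (c * (x i : ℝ) ^ h + τ)| ≤ w) ∧
      ∑ i, x i ^ h = v) :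
    E.card ≤ (h * (⌊2 * w / c₁⌋₊ + 1)) ^ h * ((⌊2 * (h * w)⌋₊ + 1) * K) := by
  classical
  let g : (Fin h → ℕ) → Multiset ℕ := fun x => Finset.univ.val.map (fun i => b (x i))
  have hgsum : ∀ x, (g x).sum = ∑ i, b (x i) := fun x => rfl
  have h1 : E.card ≤ (h * (⌊2 * w / c₁⌋₊ + 1)) ^ h * (E.image g).card := by
    refine Finset.card_le_mul_card_image _ _ ?_
    intro s hs
    obtain ⟨x0, hx0, rfl⟩ := Finset.mem_image.1 hs
    set T : Finset ℕ := (E.biUnion (fun x => Finset.univ.image x)).filter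
      (fun t => b t ∈ g x0 ∧ |(b t : ℝ) - (c * (t : ℝ) ^ h + τ)| ≤ w) with hT
    have h2 : E.filter (fun x => g x = g x0) ⊆ Fintype.piFinset (fun _ : Fin h => T) := by
      intro x hx
      rw [Finset.mem_filter] at hx
      rw [Fintype.mem_piFinset]
      intro i
      rw [hT, Finset.mem_filter, Finset.mem_biUnion]
      refine ⟨⟨x, hx.1, Finset.mem_image_of_mem _ (Finset.mem_univ _)⟩, ?_, ((hE x hx.1).1 i).2⟩
      rw [← hx.2]
      exact Multiset.mem_map.2 ⟨i, Finset.mem_univ_val i, rfl⟩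
    have h3 : T.card ≤ h * (⌊2 * w / c₁⌋₊ + 1) := by
      have h4 : T ⊆ (g x0).toFinset.biUnion (fun a => T.filter (fun t => b t = a)) := by
        intro t ht
        rw [Finset.mem_biUnion]
        have ht' := ht
        rw [hT, Finset.mem_filter] at ht'
        exact ⟨b t, Multiset.mem_toFinset.2 ht'.2.1, Finset.mem_filter.2 ⟨ht, rfl⟩⟩
      refine (Finset.card_le_card h4).trans ?_
      refine (Finset.card_biUnion_le_card_mul _ _ (⌊2 * w / c₁⌋₊ + 1) ?_).trans ?_
      · intro a _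
        refine card_near_pow (b := a) (τ := τ) hh hc₁ hc ?_
        intro t ht
        rw [Finset.mem_filter] at ht
        have ht2 := ht.1
        rw [hT, Finset.mem_filter] at ht2
        rw [← ht.2]
        exact ht2.2.2
      · refine Nat.mul_le_mul_right _ ?_
        refine (Multiset.toFinset_card_le _).trans ?_
        simp [g]
    calc (E.filter (fun x => g x = g x0)).card ≤ (Fintype.piFinset (fun _ : Fin h => T)).card :=
          Finset.card_le_card h2
      _ = T.card ^ h := by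
          rw [Fintype.card_piFinset]
          simp
      _ ≤ _ := Nat.pow_le_pow_left h3 h
  refine h1.trans (Nat.mul_le_mul_left _ ?_)
  set NI : Finset ℕ := E.image (fun x => ∑ i, b (x i)) with hNI
  have h5 : E.image g ⊆ NI.biUnion (fun n => (reps_finite A h n).toFinset) := by
    intro s hs
    obtain ⟨x, hx, rfl⟩ := Finset.mem_image.1 hs
    rw [Finset.mem_biUnion]
    refine ⟨∑ i, b (x i), Finset.mem_image_of_mem _ hx, ?_⟩
    rw [Set.Finite.mem_toFinset]
    refine ⟨?_, ?_, rfl⟩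
    · simp [g]
    · intro a ha
      obtain ⟨i, -, rfl⟩ := Multiset.mem_map.1 ha
      exact ((hE x hx).1 i).1
  refine (Finset.card_le_card h5).trans ?_
  refine (Finset.card_biUnion_le_card_mul _ _ K ?_).trans ?_
  · intro n _
    have := hA n
    rw [r, Set.ncard_eq_toFinset_card _ (reps_finite A h n)] at this
    exact this
  · refine Nat.mul_le_mul_right _ ?_
    refine card_near (y := c * v + h * τ) ?_
    intro n hn
    obtain ⟨x, hx, rfl⟩ := Finset.mem_image.1 hn
    obtain ⟨hx1, hx2⟩ := hE x hx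
    rw [← hx2]
    push_cast
    have hτ : (h : ℝ) * τ = ∑ _i : Fin h, τ := by simp
    rw [Finset.mul_sum, hτ, ← Finset.sum_add_distrib, ← Finset.sum_sub_distrib]
    refine (Finset.abs_sum_le_sum_abs _ _).trans ?_
    calc ∑ i, |(b (x i) : ℝ) - (c * (x i : ℝ) ^ h + τ)| ≤ ∑ _i : Fin h, w :=
          Finset.sum_le_sum (fun i _ => (hx1 i).2)
      _ = h * w := by simp

open Classical in
/-- The main theorem. -/
theorem main (h : ℕ) (hh : 2 ≤ h) (K : ℕ) (c₁ w : ℝ) (hc₁ : 0 < c₁) :
    ∃ δ : ℝ, 0 < δ ∧ ∃ N₀ : ℕ, ∀ A : Set ℕ, (∀ n, r A h n ≤ K) → ∀ N : ℕ, N₀ ≤ N →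
      ∀ c τ : ℝ, c₁ ≤ c → δ * N ≤ (((Finset.range N).filter
        (fun x : ℕ => ∀ a ∈ A, w < |(a : ℝ) - (c * (x : ℝ) ^ h + τ)|)).card : ℝ) := by
  obtain ⟨p, hp, hprim⟩ := exists_prime h hh
  set F : ℕ := (h * (⌊2 * w / c₁⌋₊ + 1)) ^ h * ((⌊2 * (h * w)⌋₊ + 1) * K) with hF
  set m : ℕ := 2 ^ (h + 2) * h * 2 ^ h * F + 1 with hm
  set Q : ℕ := p ^ (h * m) with hQ
  have hQ0 : 0 < Q := pow_pos hp.pos _
  have hQr : (0 : ℝ) < Q := by exact_mod_cast hQ0
  have hhr : (0 : ℝ) < h := by
    have : 0 < h := by omega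
    exact_mod_cast this
  have hm0 : (0 : ℝ) < m := by
    have : 0 < m := Nat.succ_pos _
    exact_mod_cast this
  refine ⟨m / (2 * (2 ^ h * Q * 2 ^ h) * h), by positivity, Q, ?_⟩
  intro A hA N hN c τ hc
  have hN0 : 0 < N := by omega
  have hNr : (0 : ℝ) < N := by exact_mod_cast hN0
  set S := (Finset.range N).filter
    (fun x : ℕ => ∀ a ∈ A, w < |(a : ℝ) - (c * (x : ℝ) ^ h + τ)|) with hS
  by_contra hcon
  push Not at hcon
  -- choose close elements
  have hchoice : ∀ x : ℕ, ∃ a : ℕ, (x < N → x ∉ S → a ∈ A ∧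
      |(a : ℝ) - (c * (x : ℝ) ^ h + τ)| ≤ w) := by
    intro x
    by_cases hx : x < N ∧ x ∉ S
    · have h1 : ¬ ∀ a ∈ A, w < |(a : ℝ) - (c * (x : ℝ) ^ h + τ)| := by
        intro h2
        exact hx.2 (Finset.mem_filter.2 ⟨Finset.mem_range.2 hx.1, h2⟩)
      push Not at h1
      obtain ⟨a, ha, h2⟩ := h1
      exact ⟨a, fun _ _ => ⟨ha, h2⟩⟩
    · exact ⟨0, fun h1 h2 => absurd ⟨h1, h2⟩ hx⟩
  choose b hb using hchoice
  -- the number of tuples
  set B : ℕ := N / Q with hB
  have hB1 : 1 ≤ B := (Nat.one_le_div_iff hQ0).2 hN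
  have hBN : B * Q ≤ N := Nat.div_mul_le_self N Q
  have hNB : N ≤ 2 * (B * Q) := by
    have h1 : N < (B + 1) * Q := by
      have := Nat.lt_div_mul_add (a := N) hQ0
      calc N < N / Q * Q + Q := this
        _ = (B + 1) * Q := by rw [← hB]; ring
    nlinarith
  have hlow := sols_lower h p (2 ^ h) (by omega) hp hprim m
  rw [← hQ] at hlow
  have hmul := sols_mul h Q B hQ0
  have hmono : (sols h Q (B * Q)).card ≤ (sols h Q N).card := by
    apply Finset.card_le_card
    intro x hx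
    rw [mem_sols] at hx ⊢
    exact ⟨fun i => lt_of_lt_of_le (hx.1 i) hBN, hx.2⟩
  have hI1 : m * N ^ h ≤ 2 ^ h * Q * 2 ^ h * (sols h Q N).card := by
    have e1 : N ^ h ≤ 2 ^ h * (B ^ h * (Q * Q ^ (h - 1))) := by
      calc N ^ h ≤ (2 * (B * Q)) ^ h := Nat.pow_le_pow_left hNB h
        _ = 2 ^ h * (B ^ h * Q ^ h) := by rw [mul_pow, mul_pow]
        _ = _ := by
            rw [← pow_succ', Nat.sub_add_cancel (by omega : 1 ≤ h)]
    calc m * N ^ h ≤ m * (2 ^ h * (B ^ h * (Q * Q ^ (h - 1)))) := Nat.mul_le_mul_left _ e1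
      _ = 2 ^ h * Q * B ^ h * (m * Q ^ (h - 1)) := by ring
      _ ≤ 2 ^ h * Q * B ^ h * (2 ^ h * (sols h Q Q).card) := Nat.mul_le_mul_left _ hlow
      _ = 2 ^ h * Q * 2 ^ h * (B ^ h * (sols h Q Q).card) := by ring
      _ ≤ 2 ^ h * Q * 2 ^ h * (sols h Q N).card := Nat.mul_le_mul_left _ (hmul.trans hmono)
  -- remove the bad tuples
  set E : Finset (Fin h → ℕ) := (sols h Q N).filter (fun x => ∀ i, x i ∉ S) with hE
  have hsplit : (sols h Q N).card ≤ E.card + h * (S.card * N ^ (h - 1)) := by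
    rw [← Finset.card_filter_add_card_filter_not (s := sols h Q N) (fun x => ∀ i, x i ∉ S)]
    refine Nat.add_le_add_left ?_ _
    refine le_trans (Finset.card_le_card ?_) (card_bad (h := h) (N := N) (by omega) S)
    intro x hx
    rw [Finset.mem_filter] at hx
    have h1 := (mem_sols.1 hx.1).1
    rw [Finset.mem_filter, Fintype.mem_piFinset]
    refine ⟨fun i => Finset.mem_range.2 (h1 i), ?_⟩
    have h2 := hx.2
    push Not at h2
    exact h2
  -- the fibres
  have hfib : E.card ≤ F * (h * N ^ h / Q + 1) := by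
    have h1 : ∀ x ∈ E, (∑ i, x i ^ h) / Q ∈ Finset.range (h * N ^ h / Q + 1) := by
      intro x hx
      rw [hE, Finset.mem_filter] at hx
      have h2 := (mem_sols.1 hx.1).1
      rw [Finset.mem_range]
      have h3 : ∑ i, x i ^ h ≤ h * N ^ h := by
        calc ∑ i, x i ^ h ≤ ∑ _i : Fin h, N ^ h :=
              Finset.sum_le_sum (fun i _ => Nat.pow_le_pow_left (h2 i).le h)
          _ = h * N ^ h := by simp
      have := Nat.div_le_div_right (c := Q) h3
      omega
    rw [Finset.card_eq_sum_card_fiberwise h1]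
    have h2 : ∀ v ∈ Finset.range (h * N ^ h / Q + 1),
        (E.filter (fun x => (∑ i, x i ^ h) / Q = v)).card ≤ F := by
      intro v _
      refine fiber_bound (τ := τ) (by omega) hc₁ hc hA b _ (Q * v) ?_
      intro x hx
      rw [Finset.mem_filter] at hx
      have h3 := hx.1
      rw [hE, Finset.mem_filter, mem_sols] at h3
      refine ⟨fun i => hb (x i) (h3.1.1 i) (h3.2 i), ?_⟩
      rw [← hx.2]
      exact (Nat.mul_div_cancel' h3.1.2).symm
    refine (Finset.sum_le_card_nsmul _ _ _ h2).trans ?_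
    rw [Finset.card_range, smul_eq_mul, mul_comm]
  -- real inequalities
  have hQN : (Q : ℝ) ≤ (N : ℝ) ^ h := by
    have : Q ≤ N ^ h := hN.trans (Nat.le_self_pow (by omega) N)
    exact_mod_cast this
  have hNh : (0 : ℝ) < (N : ℝ) ^ h := by positivity
  have r1 : (m : ℝ) * (N : ℝ) ^ h ≤ 2 ^ h * Q * 2 ^ h * ((sols h Q N).card : ℝ) := by
    exact_mod_cast hI1
  have r2 : ((sols h Q N).card : ℝ) ≤ E.card + h * (S.card * (N : ℝ) ^ (h - 1)) := by
    exact_mod_cast hsplit
  have r3 : (E.card : ℝ) ≤ F * (2 * h * (N : ℝ) ^ h / Q) := by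
    have e1 : (E.card : ℝ) ≤ F * (((h * N ^ h / Q : ℕ) : ℝ) + 1) := by exact_mod_cast hfib
    have e2 : ((h * N ^ h / Q : ℕ) : ℝ) ≤ (h : ℝ) * (N : ℝ) ^ h / Q := by
      have := Nat.cast_div_le (α := ℝ) (m := h * N ^ h) (n := Q)
      push_cast at this
      exact this
    have e3 : (1 : ℝ) ≤ (h : ℝ) * (N : ℝ) ^ h / Q := by
      rw [le_div_iff₀ hQr, one_mul]
      have : (1 : ℝ) ≤ h := by
        have : 1 ≤ h := by omega
        exact_mod_cast this
      nlinarith
    refine e1.trans ?_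
    apply mul_le_mul_of_nonneg_left _ (Nat.cast_nonneg F)
    have : 2 * (h : ℝ) * (N : ℝ) ^ h / Q = (h : ℝ) * (N : ℝ) ^ h / Q + (h : ℝ) * (N : ℝ) ^ h / Q := by
      ring
    rw [this]
    linarith
  have hNp : (N : ℝ) ^ h = N * (N : ℝ) ^ (h - 1) := by
    rw [← pow_succ', Nat.sub_add_cancel (by omega : 1 ≤ h)]
  set D : ℝ := 2 ^ h * Q * 2 ^ h with hD
  have hD0 : 0 < D := by rw [hD]; positivity
  have r4 : D * (h * (S.card * (N : ℝ) ^ (h - 1))) ≤ m * (N : ℝ) ^ h / 2 := by
    have e1 : (S.card : ℝ) ≤ m / (2 * D * h) * N := hcon.le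
    calc D * (h * (S.card * (N : ℝ) ^ (h - 1))) ≤
        D * (h * ((m / (2 * D * h) * N) * (N : ℝ) ^ (h - 1))) := by
          apply mul_le_mul_of_nonneg_left _ hD0.le
          apply mul_le_mul_of_nonneg_left _ hhr.le
          exact mul_le_mul_of_nonneg_right e1 (by positivity)
      _ = m * (N : ℝ) ^ h / 2 := by
          rw [hNp]
          field_simp
  have r5 : (m : ℝ) * (N : ℝ) ^ h / 2 ≤ D * E.card := by
    have : D * ((sols h Q N).card : ℝ) ≤ D * E.card + D * (h * (S.card * (N : ℝ) ^ (h - 1))) := by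
      rw [← mul_add]
      exact mul_le_mul_of_nonneg_left r2 hD0.le
    linarith
  have r6 : D * E.card ≤ 2 ^ h * 2 ^ h * F * 2 * h * (N : ℝ) ^ h := by
    calc D * E.card ≤ D * (F * (2 * h * (N : ℝ) ^ h / Q)) := mul_le_mul_of_nonneg_left r3 hD0.le
      _ = 2 ^ h * 2 ^ h * F * 2 * h * (N : ℝ) ^ h := by
          rw [hD]
          field_simp
  have r7 : (m : ℝ) / 2 ≤ 2 ^ h * 2 ^ h * F * 2 * h := by
    have : (m : ℝ) / 2 * (N : ℝ) ^ h ≤ 2 ^ h * 2 ^ h * F * 2 * h * (N : ℝ) ^ h := by linarith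
    exact le_of_mul_le_mul_right this hNh
  have r8 : (m : ℝ) = 2 ^ (h + 2) * h * 2 ^ h * F + 1 := by
    rw [hm]
    push_cast
    rfl
  rw [r8, pow_add] at r7
  nlinarith

end Pool.Agent.X6.NearPow
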