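import Mathlib
import Pool.Agent.X6.NearPow2

/-!
Sets with a bounded representation function of order `h` and the values of a polynomial of
degree `h`: reduction to the unboundedness of the numbers of solutions of congruences.
-/

namespace Pool.Agent.X6.PolyEng

open Finset Polynomial Pool.Agent.X6.NearPow

/-- tuples of integers below `R` with `∑ P(x_i) ≡ c (mod Q)` -/
def sols (P : ℤ[X]) (h Q R : ℕ) (c : ℤ) : Finset (Fin h → ℕ) :=
  (Fintype.piFinset (fun _ => Finset.range R)).filter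
    (fun x => (Q : ℤ) ∣ ∑ i, P.eval (x i : ℤ) - c)

theorem mem_sols {P : ℤ[X]} {h Q R : ℕ} {c : ℤ} {x : Fin h → ℕ} :
    x ∈ sols P h Q R c ↔ (∀ i, x i < R) ∧ (Q : ℤ) ∣ ∑ i, P.eval (x i : ℤ) - c := by
  unfold sols
  rw [Finset.mem_filter, Fintype.mem_piFinset]
  simp only [Finset.mem_range]

theorem eval_congr (P : ℤ[X]) (Q : ℤ) {a b : ℤ} (h : Q ∣ a - b) : Q ∣ P.eval a - P.eval b :=
  h.trans (Polynomial.sub_dvd_eval_sub a b P)

/-- periodicity -/
theorem sols_mul (P : ℤ[X]) (h Q B : ℕ) (c : ℤ) (hQ : 0 < Q) :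
    B ^ h * (sols P h Q Q c).card ≤ (sols P h Q (B * Q) c).card := by
  have h1 : (Fintype.piFinset (fun _ : Fin h => Finset.range B)).card = B ^ h := by
    rw [Fintype.card_piFinset]
    simp
  rw [← h1, ← Finset.card_product]
  refine Finset.card_le_card_of_injOn (fun z i => z.2 i + Q * z.1 i) ?_ ?_
  · rintro ⟨u, y⟩ hz
    rw [Finset.mem_coe, Finset.mem_product, Fintype.mem_piFinset] at hz
    obtain ⟨hu, hy⟩ := hz
    simp only at hu hy
    rw [mem_sols] at hy
    rw [Finset.mem_coe, mem_sols]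
    constructor
    · intro i
      have e1 := Finset.mem_range.1 (hu i)
      have e2 := hy.1 i
      calc y i + Q * u i < Q + Q * u i := by omega
        _ = (u i + 1) * Q := by ring
        _ ≤ B * Q := Nat.mul_le_mul_right Q e1
    · have e3 : (Q : ℤ) ∣ ∑ i, P.eval (((y i + Q * u i : ℕ) : ℤ)) - ∑ i, P.eval (y i : ℤ) := by
        rw [← Finset.sum_sub_distrib]
        refine Finset.dvd_sum (fun i _ => ?_)
        apply eval_congr
        refine ⟨u i, ?_⟩
        push_cast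
        ring
      have e4 := dvd_add e3 hy.2
      have e5 : (∑ i, P.eval (((y i + Q * u i : ℕ) : ℤ)) - ∑ i, P.eval (y i : ℤ)) +
          (∑ i, P.eval (y i : ℤ) - c) = ∑ i, P.eval (((y i + Q * u i : ℕ) : ℤ)) - c := by ring
      rw [e5] at e4
      exact e4
  · rintro ⟨u, y⟩ hz ⟨u', y'⟩ hz' heq
    rw [Finset.mem_coe, Finset.mem_product] at hz hz'
    have hy := (mem_sols.1 hz.2).1
    have hy' := (mem_sols.1 hz'.2).1
    simp only at hy hy'
    have key : ∀ i, y i = y' i ∧ u i = u' i := by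
      intro i
      have e := congrFun heq i
      simp only at e
      have e1 : (y i + Q * u i) % Q = (y' i + Q * u' i) % Q := by rw [e]
      rw [Nat.add_mul_mod_self_left, Nat.add_mul_mod_self_left, Nat.mod_eq_of_lt (hy i),
        Nat.mod_eq_of_lt (hy' i)] at e1
      refine ⟨e1, ?_⟩
      rw [e1] at e
      exact Nat.eq_of_mul_eq_mul_left hQ (by omega)
    refine Prod.ext ?_ ?_
    · funext i
      exact (key i).2
    · funext i
      exact (key i).1

theorem card_near_int {T : Finset ℤ} {y z : ℝ} (hT : ∀ n ∈ T, |(n : ℝ) - y| ≤ z) :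
    T.card ≤ ⌊2 * z⌋₊ + 1 := by
  rcases T.eq_empty_or_nonempty with rfl | hne
  · simp
  · have hz : 0 ≤ z := by
      obtain ⟨n, hn⟩ := hne
      exact (abs_nonneg _).trans (hT n hn)
    have h1 : T ⊆ Finset.Icc (T.min' hne) (T.min' hne + ⌊2 * z⌋₊) := by
      intro n hn
      rw [Finset.mem_Icc]
      refine ⟨T.min'_le n hn, ?_⟩
      have e1 := hT n hn
      have e2 := hT _ (T.min'_mem hne)
      rw [abs_le] at e1 e2
      have hle := T.min'_le n hn
      obtain ⟨k, hk⟩ := Int.eq_ofNat_of_zero_le (sub_nonneg.2 hle)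
      have e3 : ((k : ℕ) : ℝ) ≤ 2 * z := by
        have : ((k : ℕ) : ℝ) = (n : ℝ) - (T.min' hne : ℝ) := by
          have h5 : ((k : ℤ) : ℝ) = ((n - T.min' hne : ℤ) : ℝ) := by rw [hk]
          push_cast at h5
          exact h5
        rw [this]
        linarith
      have e4 := Nat.le_floor e3
      have e5 : ((k : ℕ) : ℤ) ≤ (⌊2 * z⌋₊ : ℤ) := by exact_mod_cast e4
      omega
    refine (Finset.card_le_card h1).trans ?_
    rw [Int.card_Icc]
    have : T.min' hne + (⌊2 * z⌋₊ : ℤ) + 1 - T.min' hne = ((⌊2 * z⌋₊ + 1 : ℕ) : ℤ) := by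
      push_cast
      ring
    rw [this, Int.toNat_natCast]

theorem card_level (P : ℤ[X]) (hP : 1 ≤ P.natDegree) (v : ℤ) (T : Finset ℕ)
    (hT : ∀ x ∈ T, P.eval (x : ℤ) = v) : T.card ≤ P.natDegree := by
  have h0 : P - C v ≠ 0 := by
    intro h
    have h1 : P = C v := sub_eq_zero.1 h
    rw [h1, natDegree_C] at hP
    omega
  have h1 : (T.image (fun x : ℕ => (x : ℤ))).card = T.card :=
    Finset.card_image_of_injective _ Nat.cast_injective
  rw [← h1]
  have h2 : (T.image (fun x : ℕ => (x : ℤ))).val ⊆ (P - C v).roots := by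
    intro y hy
    rw [Finset.mem_val, Finset.mem_image] at hy
    obtain ⟨x, hx, rfl⟩ := hy
    rw [mem_roots h0, IsRoot, eval_sub, eval_C, hT x hx, sub_self]
  have h3 := card_le_degree_of_subset_roots h2
  rw [natDegree_sub_C] at h3
  exact h3

theorem card_near_poly (P : ℤ[X]) (hP : 1 ≤ P.natDegree) {T : Finset ℕ} {b c c₁ τ w : ℝ}
    (hc₁ : 0 < c₁) (hc : c₁ ≤ c) (hT : ∀ x ∈ T, |b - (c * ((P.eval (x : ℤ) : ℤ) : ℝ) + τ)| ≤ w) :
    T.card ≤ P.natDegree * (⌊2 * (w / c₁)⌋₊ + 1) := by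
  classical
  rcases T.eq_empty_or_nonempty with rfl | hne
  · simp
  have hw : 0 ≤ w := by
    obtain ⟨n, hn⟩ := hne
    exact (abs_nonneg _).trans (hT n hn)
  have hc0 : 0 < c := lt_of_lt_of_le hc₁ hc
  have h1 : T.card ≤ P.natDegree * (T.image (fun x : ℕ => P.eval (x : ℤ))).card := by
    refine Finset.card_le_mul_card_image _ _ ?_
    intro v _
    refine card_level P hP v _ ?_
    intro x hx
    exact (Finset.mem_filter.1 hx).2
  refine h1.trans (Nat.mul_le_mul_left _ ?_)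
  refine card_near_int (y := (b - τ) / c) ?_
  intro n hn
  obtain ⟨x, hx, rfl⟩ := Finset.mem_image.1 hn
  have h2 := hT x hx
  have h3 : ((P.eval (x : ℤ) : ℤ) : ℝ) - (b - τ) / c = -(b - (c * ((P.eval (x : ℤ) : ℤ) : ℝ) + τ)) / c := by
    field_simp
    ring
  rw [h3, abs_div, abs_neg, abs_of_pos hc0]
  calc |b - (c * ((P.eval (x : ℤ) : ℤ) : ℝ) + τ)| / c ≤ w / c := div_le_div_of_nonneg_right h2 hc0.le
    _ ≤ w / c₁ := div_le_div_of_nonneg_left hw hc₁ hc

/-- the number of tuples of good integers with a given sum of values is bounded -/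
theorem fiber_bound {h K : ℕ} (P : ℤ[X]) (hP : 1 ≤ P.natDegree) {c c₁ τ w : ℝ} (hc₁ : 0 < c₁)
    (hc : c₁ ≤ c) {A : Set ℕ} (hA : ∀ n, r A h n ≤ K) (b : ℕ → ℕ) (E : Finset (Fin h → ℕ)) (v : ℤ)
    (hE : ∀ x ∈ E, (∀ i, b (x i) ∈ A ∧
      |(b (x i) : ℝ) - (c * ((P.eval (x i : ℤ) : ℤ) : ℝ) + τ)| ≤ w) ∧
      ∑ i, P.eval (x i : ℤ) = v) :
    E.card ≤ (h * (P.natDegree * (⌊2 * (w / c₁)⌋₊ + 1))) ^ h * ((⌊2 * (h * w)⌋₊ + 1) * K) := by
  classical
  let g : (Fin h → ℕ) → Multiset ℕ := fun x => Finset.univ.val.map (fun i => b (x i))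
  have h1 : E.card ≤ (h * (P.natDegree * (⌊2 * (w / c₁)⌋₊ + 1))) ^ h * (E.image g).card := by
    refine Finset.card_le_mul_card_image _ _ ?_
    intro s hs
    obtain ⟨x0, hx0, rfl⟩ := Finset.mem_image.1 hs
    set T : Finset ℕ := (E.biUnion (fun x => Finset.univ.image x)).filter
      (fun t => b t ∈ g x0 ∧ |(b t : ℝ) - (c * ((P.eval (t : ℤ) : ℤ) : ℝ) + τ)| ≤ w) with hT
    have h2 : E.filter (fun x => g x = g x0) ⊆ Fintype.piFinset (fun _ : Fin h => T) := by
      intro x hx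
      rw [Finset.mem_filter] at hx
      rw [Fintype.mem_piFinset]
      intro i
      rw [hT, Finset.mem_filter, Finset.mem_biUnion]
      refine ⟨⟨x, hx.1, Finset.mem_image_of_mem _ (Finset.mem_univ _)⟩, ?_, ((hE x hx.1).1 i).2⟩
      rw [← hx.2]
      exact Multiset.mem_map.2 ⟨i, Finset.mem_univ_val i, rfl⟩
    have h3 : T.card ≤ h * (P.natDegree * (⌊2 * (w / c₁)⌋₊ + 1)) := by
      have h4 : T ⊆ (g x0).toFinset.biUnion (fun a => T.filter (fun t => b t = a)) := by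
        intro t ht
        rw [Finset.mem_biUnion]
        have ht' := ht
        rw [hT, Finset.mem_filter] at ht'
        exact ⟨b t, Multiset.mem_toFinset.2 ht'.2.1, Finset.mem_filter.2 ⟨ht, rfl⟩⟩
      refine (Finset.card_le_card h4).trans ?_
      refine (Finset.card_biUnion_le_card_mul _ _ (P.natDegree * (⌊2 * (w / c₁)⌋₊ + 1)) ?_).trans ?_
      · intro a _
        refine card_near_poly P hP (b := a) (τ := τ) hc₁ hc ?_
        intro t ht
        rw [Finset.mem_filter] at ht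
        have ht2 := ht.1
        rw [hT, Finset.mem_filter] at ht2
        rw [← ht.2]
        exact ht2.2.2
      · refine Nat.mul_le_mul_right _ ?_
        refine (Multiset.toFinset_card_le _).trans ?_
        simp [g]
    calc (E.filter (fun x => g x = g x0)).card ≤ (Fintype.piFinset (fun _ : Fin h => T)).card :=
          Finset.card_le_card h2
      _ = T.card ^ h := by
          rw [Fintype.card_piFinset]
          simp
      _ ≤ _ := Nat.pow_le_pow_left h3 h
  refine h1.trans (Nat.mul_le_mul_left _ ?_)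
  set NI : Finset ℕ := E.image (fun x => ∑ i, b (x i)) with hNI
  have h5 : E.image g ⊆ NI.biUnion (fun n => (reps_finite A h n).toFinset) := by
    intro s hs
    obtain ⟨x, hx, rfl⟩ := Finset.mem_image.1 hs
    rw [Finset.mem_biUnion]
    refine ⟨∑ i, b (x i), Finset.mem_image_of_mem _ hx, ?_⟩
    rw [Set.Finite.mem_toFinset]
    refine ⟨?_, ?_, rfl⟩
    · simp [g]
    · intro a ha
      obtain ⟨i, -, rfl⟩ := Multiset.mem_map.1 ha
      exact ((hE x hx).1 i).1
  refine (Finset.card_le_card h5).trans ?_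
  refine (Finset.card_biUnion_le_card_mul _ _ K ?_).trans ?_
  · intro n _
    have := hA n
    rw [r, Set.ncard_eq_toFinset_card _ (reps_finite A h n)] at this
    exact this
  · refine Nat.mul_le_mul_right _ ?_
    refine card_near (y := c * v + h * τ) ?_
    intro n hn
    obtain ⟨x, hx, rfl⟩ := Finset.mem_image.1 hn
    obtain ⟨hx1, hx2⟩ := hE x hx
    rw [← hx2]
    push_cast
    have hτ : (h : ℝ) * τ = ∑ _i : Fin h, τ := by simp
    rw [Finset.mul_sum, hτ, ← Finset.sum_add_distrib, ← Finset.sum_sub_distrib]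
    refine (Finset.abs_sum_le_sum_abs _ _).trans ?_
    calc ∑ i, |(b (x i) : ℝ) - (c * ((P.eval (x i : ℤ) : ℤ) : ℝ) + τ)| ≤ ∑ _i : Fin h, w :=
          Finset.sum_le_sum (fun i _ => (hx1 i).2)
      _ = h * w := by simp

/-- values of a polynomial are `O(N^h)` on `[0, N)` -/
theorem eval_bound (P : ℤ[X]) : ∃ C : ℕ, ∀ N : ℕ, ∀ x : ℕ, x < N →
    |P.eval (x : ℤ)| ≤ C * (N : ℤ) ^ P.natDegree := by
  refine ⟨∑ i ∈ Finset.range (P.natDegree + 1), (P.coeff i).natAbs, ?_⟩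
  intro N x hx
  rw [eval_eq_sum_range]
  refine (Finset.abs_sum_le_sum_abs _ _).trans ?_
  push_cast
  rw [Finset.sum_mul]
  refine Finset.sum_le_sum ?_
  intro i hi
  rw [abs_mul, abs_pow]
  refine mul_le_mul_of_nonneg_left ?_ (abs_nonneg _)
  have h1 : |(x : ℤ)| ≤ (N : ℤ) := by
    rw [abs_of_nonneg (by positivity)]
    exact_mod_cast hx.le
  have h2 : (1 : ℤ) ≤ N := by
    have : 1 ≤ N := by omega
    exact_mod_cast this
  calc |(x : ℤ)| ^ i ≤ (N : ℤ) ^ i := pow_le_pow_left₀ (abs_nonneg _) h1 i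
    _ ≤ (N : ℤ) ^ P.natDegree := pow_le_pow_right₀ h2 (by
        rw [Finset.mem_range] at hi
        omega)

open Classical in
/-- The engine. -/
theorem engine (P : ℤ[X]) (h : ℕ) (hh : 1 ≤ h) (hdeg : P.natDegree = h)
    (hT : ∀ T : ℕ, ∃ Q : ℕ, 0 < Q ∧ ∃ c : ℤ, T * Q ^ (h - 1) ≤ (sols P h Q Q c).card)
    (K : ℕ) (c₁ w : ℝ) (hc₁ : 0 < c₁) :
    ∃ δ : ℝ, 0 < δ ∧ ∃ N₀ : ℕ, ∀ A : Set ℕ, (∀ n, r A h n ≤ K) → ∀ N : ℕ, N₀ ≤ N →
      ∀ c τ : ℝ, c₁ ≤ c → δ * N ≤ (((Finset.range N).filter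
        (fun x : ℕ => ∀ a ∈ A, w < |(a : ℝ) - (c * ((P.eval (x : ℤ) : ℤ) : ℝ) + τ)|)).card : ℝ) := by
  have hP : 1 ≤ P.natDegree := by omega
  obtain ⟨C, hC⟩ := eval_bound P
  set F : ℕ := (h * (P.natDegree * (⌊2 * (w / c₁)⌋₊ + 1))) ^ h * ((⌊2 * (h * w)⌋₊ + 1) * K) with hF
  set m : ℕ := 2 * (2 ^ h * F * (2 * h * C + 3)) + 1 with hm
  obtain ⟨Q, hQ0, c0, hQc⟩ := hT m
  have hQr : (0 : ℝ) < Q := by exact_mod_cast hQ0
  have hhr : (0 : ℝ) < h := by
    have : 0 < h := by omega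
    exact_mod_cast this
  have hm0 : (0 : ℝ) < m := by
    have : 0 < m := Nat.succ_pos _
    exact_mod_cast this
  refine ⟨m / (2 * (Q * 2 ^ h) * h), by positivity, Q + c0.natAbs, ?_⟩
  intro A hA N hN c τ hc
  have hN0 : 0 < N := by omega
  have hNr : (0 : ℝ) < N := by exact_mod_cast hN0
  set S := (Finset.range N).filter
    (fun x : ℕ => ∀ a ∈ A, w < |(a : ℝ) - (c * ((P.eval (x : ℤ) : ℤ) : ℝ) + τ)|) with hS
  by_contra hcon
  push Not at hcon
  -- choose close elements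
  have hchoice : ∀ x : ℕ, ∃ a : ℕ, (x < N → x ∉ S → a ∈ A ∧
      |(a : ℝ) - (c * ((P.eval (x : ℤ) : ℤ) : ℝ) + τ)| ≤ w) := by
    intro x
    by_cases hx : x < N ∧ x ∉ S
    · have h1 : ¬ ∀ a ∈ A, w < |(a : ℝ) - (c * ((P.eval (x : ℤ) : ℤ) : ℝ) + τ)| := by
        intro h2
        exact hx.2 (Finset.mem_filter.2 ⟨Finset.mem_range.2 hx.1, h2⟩)
      push Not at h1
      obtain ⟨a, ha, h2⟩ := h1
      exact ⟨a, fun _ _ => ⟨ha, h2⟩⟩
    · exact ⟨0, fun h1 h2 => absurd ⟨h1, h2⟩ hx⟩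
  choose b hb using hchoice
  -- the number of tuples
  set B : ℕ := N / Q with hB
  have hB1 : 1 ≤ B := (Nat.one_le_div_iff hQ0).2 (by omega)
  have hBN : B * Q ≤ N := Nat.div_mul_le_self N Q
  have hNB : N ≤ 2 * (B * Q) := by
    have h1 : N < (B + 1) * Q := by
      have := Nat.lt_div_mul_add (a := N) hQ0
      calc N < N / Q * Q + Q := this
        _ = (B + 1) * Q := by rw [← hB]; ring
    nlinarith
  have hmul := sols_mul P h Q B c0 hQ0
  have hmono : (sols P h Q (B * Q) c0).card ≤ (sols P h Q N c0).card := by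
    apply Finset.card_le_card
    intro x hx
    rw [mem_sols] at hx ⊢
    exact ⟨fun i => lt_of_lt_of_le (hx.1 i) hBN, hx.2⟩
  have hI1 : m * N ^ h ≤ Q * 2 ^ h * (sols P h Q N c0).card := by
    have e1 : N ^ h ≤ 2 ^ h * (B ^ h * (Q * Q ^ (h - 1))) := by
      calc N ^ h ≤ (2 * (B * Q)) ^ h := Nat.pow_le_pow_left hNB h
        _ = 2 ^ h * (B ^ h * Q ^ h) := by rw [mul_pow, mul_pow]
        _ = _ := by
            rw [← pow_succ', Nat.sub_add_cancel (by omega : 1 ≤ h)]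
    calc m * N ^ h ≤ m * (2 ^ h * (B ^ h * (Q * Q ^ (h - 1)))) := Nat.mul_le_mul_left _ e1
      _ = Q * 2 ^ h * B ^ h * (m * Q ^ (h - 1)) := by ring
      _ ≤ Q * 2 ^ h * B ^ h * (sols P h Q Q c0).card := Nat.mul_le_mul_left _ hQc
      _ = Q * 2 ^ h * (B ^ h * (sols P h Q Q c0).card) := by ring
      _ ≤ Q * 2 ^ h * (sols P h Q N c0).card := Nat.mul_le_mul_left _ (hmul.trans hmono)
  -- remove the bad tuples
  set E : Finset (Fin h → ℕ) := (sols P h Q N c0).filter (fun x => ∀ i, x i ∉ S) with hE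
  have hsplit : (sols P h Q N c0).card ≤ E.card + h * (S.card * N ^ (h - 1)) := by
    rw [← Finset.card_filter_add_card_filter_not (s := sols P h Q N c0) (fun x => ∀ i, x i ∉ S)]
    refine Nat.add_le_add_left ?_ _
    refine le_trans (Finset.card_le_card ?_) (card_bad (h := h) (N := N) (by omega) S)
    intro x hx
    rw [Finset.mem_filter] at hx
    have h1 := (mem_sols.1 hx.1).1
    rw [Finset.mem_filter, Fintype.mem_piFinset]
    refine ⟨fun i => Finset.mem_range.2 (h1 i), ?_⟩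
    have h2 := hx.2
    push Not at h2
    exact h2
  -- the fibres
  set G : ℕ := (2 * h * C + 2) * N ^ h / Q + 1 with hG
  have hbd : ∀ x ∈ E, |∑ i, P.eval (x i : ℤ) - c0| ≤ ((h * C + 1) * N ^ h : ℕ) := by
    intro x hx
    rw [hE, Finset.mem_filter] at hx
    have h2 := (mem_sols.1 hx.1).1
    have h3 : |∑ i, P.eval (x i : ℤ)| ≤ h * (C * (N : ℤ) ^ h) := by
      refine (Finset.abs_sum_le_sum_abs _ _).trans ?_
      calc ∑ i, |P.eval (x i : ℤ)| ≤ ∑ _i : Fin h, (C * (N : ℤ) ^ h) :=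
            Finset.sum_le_sum (fun i _ => by
              have := hC N (x i) (h2 i)
              rw [hdeg] at this
              exact this)
        _ = h * (C * (N : ℤ) ^ h) := by simp
    have h4 : |c0| ≤ (N : ℤ) ^ h := by
      have h5 : c0.natAbs ≤ N ^ h := le_trans (by omega) (Nat.le_self_pow (by omega) N)
      rw [Int.abs_eq_natAbs]
      exact_mod_cast h5
    have h5 := abs_sub (∑ i, P.eval (x i : ℤ)) c0
    push_cast
    nlinarith
  have hfib : E.card ≤ F * G := by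
    have h1 : ∀ x ∈ E, (∑ i, P.eval (x i : ℤ) - c0) / Q ∈
        Finset.Icc (-(((h * C + 1) * N ^ h / Q : ℕ) : ℤ)) (((h * C + 1) * N ^ h / Q : ℕ) : ℤ) := by
      intro x hx
      have h2 := hbd x hx
      have hx' := hx
      rw [hE, Finset.mem_filter] at hx'
      obtain ⟨k, hk⟩ := (mem_sols.1 hx'.1).2
      have hQz : (0 : ℤ) < Q := by exact_mod_cast hQ0
      rw [hk, Int.mul_ediv_cancel_left _ hQz.ne', Finset.mem_Icc, ← abs_le]
      rw [hk, abs_mul, abs_of_pos hQz] at h2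
      rw [Int.abs_eq_natAbs] at h2 ⊢
      have h3 : Q * k.natAbs ≤ (h * C + 1) * N ^ h := by exact_mod_cast h2
      have h4 : k.natAbs ≤ (h * C + 1) * N ^ h / Q := by
        rw [Nat.le_div_iff_mul_le hQ0, mul_comm]
        exact h3
      exact_mod_cast h4
    rw [Finset.card_eq_sum_card_fiberwise h1]
    have h2 : ∀ v ∈ Finset.Icc (-(((h * C + 1) * N ^ h / Q : ℕ) : ℤ))
        (((h * C + 1) * N ^ h / Q : ℕ) : ℤ),
        (E.filter (fun x => (∑ i, P.eval (x i : ℤ) - c0) / Q = v)).card ≤ F := by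
      intro v _
      refine fiber_bound (τ := τ) P hP hc₁ hc hA b _ (Q * v + c0) ?_
      intro x hx
      rw [Finset.mem_filter] at hx
      have h3 := hx.1
      rw [hE, Finset.mem_filter, mem_sols] at h3
      refine ⟨fun i => hb (x i) (h3.1.1 i) (h3.2 i), ?_⟩
      rw [← hx.2, Int.mul_ediv_cancel' h3.1.2]
      ring
    refine (Finset.sum_le_card_nsmul _ _ _ h2).trans ?_
    rw [smul_eq_mul, mul_comm F G]
    refine Nat.mul_le_mul_right F ?_
    rw [Int.card_Icc]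
    have e1 : ((((h * C + 1) * N ^ h / Q : ℕ) : ℤ) + 1 - -(((h * C + 1) * N ^ h / Q : ℕ) : ℤ)) =
        ((2 * ((h * C + 1) * N ^ h / Q) + 1 : ℕ) : ℤ) := by
      push_cast
      ring
    rw [e1, Int.toNat_natCast, hG]
    refine Nat.add_le_add_right ?_ 1
    rw [Nat.le_div_iff_mul_le hQ0]
    calc 2 * ((h * C + 1) * N ^ h / Q) * Q = 2 * (((h * C + 1) * N ^ h / Q) * Q) := by ring
      _ ≤ 2 * ((h * C + 1) * N ^ h) := Nat.mul_le_mul_left _ (Nat.div_mul_le_self _ _)
      _ = (2 * h * C + 2) * N ^ h := by ring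
  -- real inequalities
  have hQN : (Q : ℝ) ≤ (N : ℝ) ^ h := by
    have : Q ≤ N ^ h := le_trans (by omega) (Nat.le_self_pow (by omega) N)
    exact_mod_cast this
  have hNh : (0 : ℝ) < (N : ℝ) ^ h := by positivity
  have r1 : (m : ℝ) * (N : ℝ) ^ h ≤ Q * 2 ^ h * ((sols P h Q N c0).card : ℝ) := by
    exact_mod_cast hI1
  have r2 : ((sols P h Q N c0).card : ℝ) ≤ E.card + h * (S.card * (N : ℝ) ^ (h - 1)) := by
    exact_mod_cast hsplit
  have r3 : (E.card : ℝ) ≤ F * ((2 * h * C + 3) * (N : ℝ) ^ h / Q) := by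
    have e1 : (E.card : ℝ) ≤ F * ((((2 * h * C + 2) * N ^ h / Q : ℕ) : ℝ) + 1) := by
      have : (E.card : ℝ) ≤ ((F * G : ℕ) : ℝ) := by exact_mod_cast hfib
      rw [hG] at this
      push_cast at this ⊢
      exact this
    have e2 : (((2 * h * C + 2) * N ^ h / Q : ℕ) : ℝ) ≤ ((2 * h * C + 2) : ℝ) * (N : ℝ) ^ h / Q := by
      have := Nat.cast_div_le (α := ℝ) (m := (2 * h * C + 2) * N ^ h) (n := Q)
      push_cast at this ⊢
      exact this
    have e3 : (1 : ℝ) ≤ (N : ℝ) ^ h / Q := by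
      rw [le_div_iff₀ hQr, one_mul]
      exact hQN
    refine e1.trans ?_
    apply mul_le_mul_of_nonneg_left _ (Nat.cast_nonneg F)
    have : (2 * (h : ℝ) * C + 3) * (N : ℝ) ^ h / Q =
        (2 * h * C + 2) * (N : ℝ) ^ h / Q + (N : ℝ) ^ h / Q := by
      ring
    rw [this]
    linarith
  have hNp : (N : ℝ) ^ h = N * (N : ℝ) ^ (h - 1) := by
    rw [← pow_succ', Nat.sub_add_cancel (by omega : 1 ≤ h)]
  set D : ℝ := Q * 2 ^ h with hD
  have hD0 : 0 < D := by rw [hD]; positivity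
  have r4 : D * (h * (S.card * (N : ℝ) ^ (h - 1))) ≤ m * (N : ℝ) ^ h / 2 := by
    have e1 : (S.card : ℝ) ≤ m / (2 * D * h) * N := hcon.le
    calc D * (h * (S.card * (N : ℝ) ^ (h - 1))) ≤
        D * (h * ((m / (2 * D * h) * N) * (N : ℝ) ^ (h - 1))) := by
          apply mul_le_mul_of_nonneg_left _ hD0.le
          apply mul_le_mul_of_nonneg_left _ hhr.le
          exact mul_le_mul_of_nonneg_right e1 (by positivity)
      _ = m * (N : ℝ) ^ h / 2 := by
          rw [hNp]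
          field_simp
  have r5 : (m : ℝ) * (N : ℝ) ^ h / 2 ≤ D * E.card := by
    have : D * ((sols P h Q N c0).card : ℝ) ≤
        D * E.card + D * (h * (S.card * (N : ℝ) ^ (h - 1))) := by
      rw [← mul_add]
      exact mul_le_mul_of_nonneg_left r2 hD0.le
    linarith
  have r6 : D * E.card ≤ 2 ^ h * F * (2 * h * C + 3) * (N : ℝ) ^ h := by
    calc D * E.card ≤ D * (F * ((2 * h * C + 3) * (N : ℝ) ^ h / Q)) :=
          mul_le_mul_of_nonneg_left r3 hD0.le
      _ = 2 ^ h * F * (2 * h * C + 3) * (N : ℝ) ^ h := by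
          rw [hD]
          field_simp
  have r7 : (m : ℝ) / 2 ≤ 2 ^ h * F * (2 * h * C + 3) := by
    have : (m : ℝ) / 2 * (N : ℝ) ^ h ≤ 2 ^ h * F * (2 * h * C + 3) * (N : ℝ) ^ h := by linarith
    exact le_of_mul_le_mul_right this hNh
  have r8 : (m : ℝ) = 2 * (2 ^ h * F * (2 * h * C + 3)) + 1 := by
    rw [hm]
    push_cast
    rfl
  rw [r8] at r7
  linarith

end Pool.Agent.X6.PolyEng
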