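import Mathlib
import Pool.Agent.X6.Cubic2
import Pool.Agent.X6.PolyEng
import Pool.Agent.Helper591.APRec

/-!
Cubic polynomials: many solutions of `P(x) + P(y) + P(z) ≡ c` modulo suitable moduli.
-/

namespace Pool.Agent.X6.Cubic

open Finset Polynomial

theorem aeval3 {P : ℤ[X]} (hdeg : P.natDegree = 3) {R : Type*} [CommRing R] (x : R) :
    aeval x P = (P.coeff 3 : R) * x ^ 3 + (P.coeff 2 : R) * x ^ 2 + (P.coeff 1 : R) * x +
      (P.coeff 0 : R) := by
  rw [aeval_eq_sum_range' (show P.natDegree < 4 by omega)]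
  simp only [Finset.sum_range_succ, Finset.sum_range_zero, zsmul_eq_mul]
  ring

theorem aeval3' {P : ℤ[X]} (hdeg : P.natDegree = 3) {R : Type*} [CommRing R] (x : R) :
    aeval x (derivative P) = 3 * (P.coeff 3 : R) * x ^ 2 + 2 * (P.coeff 2 : R) * x +
      (P.coeff 1 : R) := by
  have h1 : (derivative P).natDegree < 3 := by
    rw [← hdeg]
    exact natDegree_derivative_lt (by omega)
  rw [aeval_eq_sum_range' h1]
  simp only [Finset.sum_range_succ, Finset.sum_range_zero, zsmul_eq_mul, coeff_derivative]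
  push_cast
  ring

/-- `p` gives a gain -/
def Good (P : ℤ[X]) (p : ℕ) : Prop :=
  ∃ c : ZMod (p ^ 2), 2 * p ^ 4 + p ^ 3 ≤ 2 * cnt P 3 (ZMod (p ^ 2)) c

theorem local_ne {P : ℤ[X]} (hdeg : P.natDegree = 3) (p : ℕ) [hp : Fact p.Prime] (hp11 : 11 ≤ p)
    (hα : ((P.coeff 3 : ℤ) : ZMod p) ≠ 0) (e : ZMod p) (he : e ≠ 0)
    (hΔ : e ^ 2 = (P.coeff 2 : ZMod p) ^ 2 - 3 * (P.coeff 3 : ZMod p) * (P.coeff 1 : ZMod p)) :
    Good P p := by
  classical
  have h2 : (2 : ZMod p) ≠ 0 := by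
    intro h
    have h' : ((2 : ℕ) : ZMod p) = 0 := by exact_mod_cast h
    rw [ZMod.natCast_eq_zero_iff] at h'
    have := Nat.le_of_dvd (by norm_num) h'
    omega
  have h3 : (3 : ZMod p) ≠ 0 := by
    intro h
    have h' : ((3 : ℕ) : ZMod p) = 0 := by exact_mod_cast h
    rw [ZMod.natCast_eq_zero_iff] at h'
    have := Nat.le_of_dvd (by norm_num) h'
    omega
  set α : ZMod p := (P.coeff 3 : ZMod p) with hαd
  set β : ZMod p := (P.coeff 2 : ZMod p) with hβd
  set γ : ZMod p := (P.coeff 1 : ZMod p) with hγd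
  set ξ : ZMod p := e / (3 * α) with hξ
  set ζ : ZMod p := -β / (3 * α) with hζ
  have h3α : 3 * α ≠ 0 := mul_ne_zero h3 hα
  have hξ0 : ξ ≠ 0 := div_ne_zero he h3α
  have hξe : ξ * (3 * α) = e := div_mul_cancel₀ _ h3α
  have hζe : ζ * (3 * α) = -β := div_mul_cancel₀ _ h3α
  have hγ : γ = 3 * α * (ζ ^ 2 - ξ ^ 2) := by
    have h4 : (3 * α) * γ = (3 * α) * (3 * α * (ζ ^ 2 - ξ ^ 2)) := by
      have e1 : (3 * α) * (3 * α * (ζ ^ 2 - ξ ^ 2)) = (ζ * (3 * α)) ^ 2 - (ξ * (3 * α)) ^ 2 := by ring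
      rw [e1, hξe, hζe, hΔ]
      ring
    exact mul_left_cancel₀ h3α h4
  have hβ : β = -(3 * α * ζ) := by linear_combination hζe
  -- values of P
  have hev : ∀ X : ZMod p, aeval (ζ + ξ * X) P = aeval ζ P + α * ξ ^ 3 * (X ^ 3 - 3 * X) := by
    intro X
    rw [aeval3 hdeg, aeval3 hdeg, ← hαd, ← hβd, ← hγd, hγ, hβ]
    ring
  have hdev : ∀ a : ZMod p, aeval a (derivative P) = 3 * α * ((a - (ζ + ξ)) * (a - (ζ - ξ))) := by
    intro a
    rw [aeval3' hdeg, ← hαd, ← hβd, ← hγd, hγ, hβ]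
    ring
  have hdev1 : aeval (ζ + ξ) (derivative P) = 0 := by rw [hdev]; ring
  have hdev2 : aeval (ζ - ξ) (derivative P) = 0 := by rw [hdev]; ring
  have hev1 : aeval (ζ + ξ) P = aeval ζ P + α * ξ ^ 3 * (-2) := by
    have := hev 1
    rw [mul_one] at this
    rw [this]
    ring
  have hev2 : aeval (ζ - ξ) P = aeval ζ P + α * ξ ^ 3 * 2 := by
    have := hev (-1)
    have e1 : ζ + ξ * (-1) = ζ - ξ := by ring
    rw [e1] at this
    rw [this]
    ring
  set c : ZMod (p ^ 2) := aeval (io p (ζ + ξ)) P + aeval (io p (ζ + ξ)) P +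
    aeval (io p (ζ - ξ)) P with hc
  have hprc : pr p c = 3 * aeval ζ P + α * ξ ^ 3 * (-2) := by
    rw [hc, map_add, map_add, pr_aeval, pr_aeval, pr_io, pr_io, hev1, hev2]
    ring
  refine ⟨c, ?_⟩
  set S1 : Finset (Fin 3 → ZMod p) := (surf (ZMod p)).image (fun X i => ζ + ξ * X i) with hS1
  have hS1c : S1.card = (surf (ZMod p)).card := by
    rw [hS1]
    apply Finset.card_image_of_injective
    intro X Y hXY
    funext i
    have e1 := congrFun hXY i
    simp only at e1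
    have e2 : ξ * X i = ξ * Y i := by linear_combination e1
    exact mul_left_cancel₀ hξ0 e2
  have hS1v : ∀ a ∈ S1, ∑ i, aeval (a i) P = pr p c := by
    intro a ha
    rw [hS1, Finset.mem_image] at ha
    obtain ⟨X, hX, rfl⟩ := ha
    rw [mem_surf] at hX
    simp only [hev]
    rw [Fin.sum_univ_three, hprc]
    linear_combination (α * ξ ^ 3) * hX
  set S : Finset (Fin 3 → ZMod p) := S1.filter (fun a => ∃ i, aeval (a i) (derivative P) ≠ 0) with hS
  have hScard : S1.card ≤ S.card + 8 := by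
    rw [← Finset.card_filter_add_card_filter_not (s := S1)
      (fun a => ∃ i, aeval (a i) (derivative P) ≠ 0)]
    refine Nat.add_le_add_left ?_ _
    have h4 : S1.filter (fun a => ¬ ∃ i, aeval (a i) (derivative P) ≠ 0) ⊆
        Fintype.piFinset (fun _ : Fin 3 => ({ζ + ξ, ζ - ξ} : Finset (ZMod p))) := by
      intro a ha
      rw [Finset.mem_filter] at ha
      rw [Fintype.mem_piFinset]
      intro i
      have h5 := ha.2
      push Not at h5
      have h6 := h5 i
      rw [hdev] at h6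
      have h7 := (mul_eq_zero.1 h6).resolve_left h3α
      rw [Finset.mem_insert, Finset.mem_singleton]
      rcases mul_eq_zero.1 h7 with h | h
      · exact Or.inl (sub_eq_zero.1 h)
      · exact Or.inr (sub_eq_zero.1 h)
    refine (Finset.card_le_card h4).trans ?_
    rw [Fintype.card_piFinset]
    have h8 : ({ζ + ξ, ζ - ξ} : Finset (ZMod p)).card ≤ 2 := Finset.card_le_two
    calc ∏ _i : Fin 3, ({ζ + ξ, ζ - ξ} : Finset (ZMod p)).card ≤ ∏ _i : Fin 3, 2 :=
          Finset.prod_le_prod' (fun _ _ => h8)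
      _ = 8 := by simp
  set G : Finset (Fin 3 → ZMod p) := {![ζ + ξ, ζ + ξ, ζ - ξ], ![ζ + ξ, ζ - ξ, ζ + ξ],
    ![ζ - ξ, ζ + ξ, ζ + ξ]} with hG
  have hne : ζ + ξ ≠ ζ - ξ := by
    intro h
    have : 2 * ξ = 0 := by linear_combination h
    exact hξ0 ((mul_eq_zero.1 this).resolve_left h2)
  have hGcard : G.card = 3 := by
    rw [hG, Finset.card_insert_of_notMem, Finset.card_insert_of_notMem, Finset.card_singleton]
    · rw [Finset.mem_singleton]
      intro h
      have := congrFun h 0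
      exact hne this
    · rw [Finset.mem_insert, Finset.mem_singleton]
      rintro (h | h)
      · have := congrFun h 1
        exact hne this
      · have := congrFun h 0
        exact hne this
  have hGs : ∀ a ∈ G, (∑ i, aeval (io p (a i)) P = c) ∧ ∀ i, aeval (a i) (derivative P) = 0 := by
    intro a ha
    rw [hG, Finset.mem_insert, Finset.mem_insert, Finset.mem_singleton] at ha
    rcases ha with rfl | rfl | rfl
    · constructor
      · rw [Fin.sum_univ_three]
        rfl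
      · intro i
        fin_cases i
        · exact hdev1
        · exact hdev1
        · exact hdev2
    · constructor
      · rw [Fin.sum_univ_three, hc]
        show aeval (io p (ζ + ξ)) P + aeval (io p (ζ - ξ)) P + aeval (io p (ζ + ξ)) P = _
        ring
      · intro i
        fin_cases i
        · exact hdev1
        · exact hdev2
        · exact hdev1
    · constructor
      · rw [Fin.sum_univ_three, hc]
        show aeval (io p (ζ - ξ)) P + aeval (io p (ζ + ξ)) P + aeval (io p (ζ + ξ)) P = _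
        ring
      · intro i
        fin_cases i
        · exact hdev2
        · exact hdev1
        · exact hdev1
  have hmain := lift_count p P 3 c S G (fun a ha => by
    rw [hS, Finset.mem_filter] at ha
    exact ⟨hS1v a ha.1, ha.2⟩) hGs
  rw [hGcard] at hmain
  have hsurf := card_surf h2 h3
  rw [ZMod.card] at hsurf
  have hp0 : 0 < p := by omega
  have k1 : p ^ 2 ≤ S.card + 8 + p := by
    rw [hS1c] at hScard
    omega
  have k2 : S.card * p ^ 2 + 3 * p ^ 3 ≤ cnt P 3 (ZMod (p ^ 2)) c := by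
    apply Nat.le_of_mul_le_mul_left _ hp0
    calc p * (S.card * p ^ 2 + 3 * p ^ 3) = S.card * p ^ 3 + p * (3 * p ^ 3) := by ring
      _ ≤ _ := hmain
  have k3 : p ^ 2 * p ^ 2 ≤ (S.card + 8 + p) * p ^ 2 := Nat.mul_le_mul_right _ k1
  have k4 : 11 * p ^ 2 ≤ p * p ^ 2 := Nat.mul_le_mul_right _ hp11
  nlinarith

theorem local_eq {P : ℤ[X]} (hdeg : P.natDegree = 3) (p : ℕ) [hp : Fact p.Prime]
    (hα : ((P.coeff 3 : ℤ) : ZMod p) ≠ 0) (h3 : (3 : ZMod p) ≠ 0)
    (hΔ : (P.coeff 2 : ZMod p) ^ 2 - 3 * (P.coeff 3 : ZMod p) * (P.coeff 1 : ZMod p) = 0)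
    (hcube : ∀ v : ZMod p, ∃ g, g ^ 3 = v) :
    Good P p := by
  classical
  set α : ZMod p := (P.coeff 3 : ZMod p) with hαd
  set β : ZMod p := (P.coeff 2 : ZMod p) with hβd
  set γ : ZMod p := (P.coeff 1 : ZMod p) with hγd
  set ζ : ZMod p := -β / (3 * α) with hζ
  have h3α : 3 * α ≠ 0 := mul_ne_zero h3 hα
  have hζe : ζ * (3 * α) = -β := div_mul_cancel₀ _ h3α
  have hγ : γ = 3 * α * ζ ^ 2 := by
    have h4 : (3 * α) * γ = (3 * α) * (3 * α * ζ ^ 2) := by
      have e1 : (3 * α) * (3 * α * ζ ^ 2) = (ζ * (3 * α)) ^ 2 := by ring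
      rw [e1, hζe]
      linear_combination -hΔ
    exact mul_left_cancel₀ h3α h4
  have hβ : β = -(3 * α * ζ) := by linear_combination hζe
  have hev : ∀ X : ZMod p, aeval (ζ + X) P = aeval ζ P + α * X ^ 3 := by
    intro X
    rw [aeval3 hdeg, aeval3 hdeg, ← hαd, ← hβd, ← hγd, hγ, hβ]
    ring
  have hdev : ∀ a : ZMod p, aeval a (derivative P) = 3 * α * ((a - ζ) * (a - ζ)) := by
    intro a
    rw [aeval3' hdeg, ← hαd, ← hβd, ← hγd, hγ, hβ]
    ring
  choose g hg using hcube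
  set c : ZMod (p ^ 2) := ∑ _i : Fin 3, aeval (io p ζ) P with hc
  have hprc : pr p c = 3 * aeval ζ P := by
    rw [hc, map_sum]
    simp only [pr_aeval, pr_io]
    simp
  refine ⟨c, ?_⟩
  set L : Finset (Fin 3 → ZMod p) := Finset.univ.filter
    (fun u : Fin 3 → ZMod p => (0 : ZMod p) + ∑ i, (fun _ => (1 : ZMod p)) i * u i = 0) with hL
  have hLc : p ^ 2 ≤ L.card := by
    have h4 := linear_count p (fun _ : Fin 3 => (1 : ZMod p)) 0 one_ne_zero 0
    rw [pow_succ, mul_comm (p ^ 2) p] at h4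
    exact Nat.le_of_mul_le_mul_left h4 hp.out.pos
  set S1 : Finset (Fin 3 → ZMod p) := L.image (fun v i => ζ + g (v i)) with hS1
  have hS1c : S1.card = L.card := by
    rw [hS1]
    apply Finset.card_image_of_injective
    intro X Y hXY
    funext i
    have e1 := congrFun hXY i
    simp only at e1
    have e2 : g (X i) = g (Y i) := by linear_combination e1
    rw [← hg (X i), ← hg (Y i), e2]
  have hS1v : ∀ a ∈ S1, ∑ i, aeval (a i) P = pr p c := by
    intro a ha
    rw [hS1, Finset.mem_image] at ha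
    obtain ⟨X, hX, rfl⟩ := ha
    rw [hL, Finset.mem_filter] at hX
    have hX2 := hX.2
    simp only [one_mul, zero_add] at hX2
    simp only [hev, hg]
    rw [Finset.sum_add_distrib, ← Finset.mul_sum, hX2, hprc]
    simp
  set S : Finset (Fin 3 → ZMod p) := S1.filter (fun a => ∃ i, aeval (a i) (derivative P) ≠ 0) with hS
  have hScard : S1.card ≤ S.card + 1 := by
    rw [← Finset.card_filter_add_card_filter_not (s := S1)
      (fun a => ∃ i, aeval (a i) (derivative P) ≠ 0)]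
    refine Nat.add_le_add_left ?_ _
    rw [← Finset.card_singleton (fun _ : Fin 3 => ζ)]
    apply Finset.card_le_card
    intro a ha
    rw [Finset.mem_filter] at ha
    rw [Finset.mem_singleton]
    funext i
    have h5 := ha.2
    push Not at h5
    have h6 := h5 i
    rw [hdev] at h6
    have h7 := (mul_eq_zero.1 h6).resolve_left h3α
    rcases mul_eq_zero.1 h7 with h | h
    · exact sub_eq_zero.1 h
    · exact sub_eq_zero.1 h
  have hmain := lift_count p P 3 c S {fun _ => ζ} (fun a ha => by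
    rw [hS, Finset.mem_filter] at ha
    exact ⟨hS1v a ha.1, ha.2⟩) (fun a ha => by
    rw [Finset.mem_singleton] at ha
    subst ha
    exact ⟨rfl, fun i => by rw [hdev]; ring⟩)
  rw [Finset.card_singleton] at hmain
  have hp0 : 0 < p := hp.out.pos
  have hp2 : 2 ≤ p := hp.out.two_le
  have k1 : p ^ 2 ≤ S.card + 1 := by
    rw [hS1c] at hScard
    omega
  have k2 : S.card * p ^ 2 + p ^ 3 ≤ cnt P 3 (ZMod (p ^ 2)) c := by
    apply Nat.le_of_mul_le_mul_left _ hp0
    calc p * (S.card * p ^ 2 + p ^ 3) = S.card * p ^ 3 + p * (1 * p ^ 3) := by ring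
      _ ≤ _ := hmain
  have k3 : p ^ 2 * p ^ 2 ≤ (S.card + 1) * p ^ 2 := Nat.mul_le_mul_right _ k1
  have k4 : 2 * p ^ 2 ≤ p * p ^ 2 := Nat.mul_le_mul_right _ hp2
  nlinarith

theorem exists_cube_root (p : ℕ) [hp : Fact p.Prime] (h : p % 3 = 2) (v : ZMod p) :
    ∃ g : ZMod p, g ^ 3 = v := by
  by_cases hv : v = 0
  · exact ⟨0, by rw [hv]; ring⟩
  · obtain ⟨k, hk⟩ : ∃ k, p = 3 * k + 2 := ⟨p / 3, by omega⟩
    refine ⟨v ^ (2 * k + 1), ?_⟩
    have h1 := ZMod.pow_card_sub_one_eq_one hv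
    have h2 : p - 1 = 3 * k + 1 := by omega
    rw [h2] at h1
    calc (v ^ (2 * k + 1)) ^ 3 = (v ^ (3 * k + 1)) ^ 2 * v := by ring
      _ = v := by rw [h1]; ring

theorem exists_sqrt {Δ : ℤ} (p : ℕ) [hp : Fact p.Prime]
    (hmod : (p : ZMod (4 * Δ.natAbs)) = 1) (hΔp : ((Δ : ℤ) : ZMod p) ≠ 0) (hodd : Odd p) :
    ∃ e : ZMod p, e ^ 2 = ((Δ : ℤ) : ZMod p) := by
  have hΔ : Δ ≠ 0 := by
    rintro rfl
    simp at hΔp
  have hpos : 0 < Δ.natAbs := Int.natAbs_pos.2 hΔ
  have h1 : p % (4 * Δ.natAbs) = 1 := by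
    have h2 : ((p : ℕ) : ZMod (4 * Δ.natAbs)) = ((1 : ℕ) : ZMod (4 * Δ.natAbs)) := by
      rw [hmod]
      simp
    rw [ZMod.natCast_eq_natCast_iff'] at h2
    rw [h2]
    exact Nat.mod_eq_of_lt (by omega)
  have h3 := jacobiSym.mod_right Δ hodd
  rw [h1, jacobiSym.one_right, ← jacobiSym.legendreSym.to_jacobiSym, legendreSym.eq_one_iff p hΔp] at h3
  obtain ⟨e, he⟩ := h3
  exact ⟨e, by rw [he]; ring⟩

/-- primes in a residue class with large reciprocal sum -/
theorem exists_block {q : ℕ} [NeZero q] {a : ZMod q} (ha : IsUnit a) (T : ℝ) (y : ℕ) :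
    ∃ D : Finset ℕ, (∀ p ∈ D, p.Prime ∧ (p : ZMod q) = a ∧ y < p) ∧ T ≤ ∑ p ∈ D, (1 : ℝ) / p := by
  classical
  by_contra hcon
  push Not at hcon
  apply Pool.Agent.Helper591.APRec.not_summable_g ha
  refine summable_of_sum_le (c := ∑ n ∈ Finset.range (y + 1), Pool.Agent.Helper591.APRec.g a n + T)
    (fun n => Pool.Agent.Helper591.APRec.g_nonneg a n) ?_
  intro u
  rw [← Finset.sum_filter_add_sum_filter_not u (fun n => n < y + 1)]
  refine add_le_add ?_ ?_
  · refine Finset.sum_le_sum_of_subset_of_nonneg ?_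
      (fun n _ _ => Pool.Agent.Helper591.APRec.g_nonneg a n)
    intro n hn
    rw [Finset.mem_filter] at hn
    exact Finset.mem_range.2 hn.2
  · have h1 := hcon ((u.filter (fun n => ¬ n < y + 1)).filter
      (fun n => n.Prime ∧ (n : ZMod q) = a)) (by
        intro p hp
        rw [Finset.mem_filter, Finset.mem_filter] at hp
        exact ⟨hp.2.1, hp.2.2, by omega⟩)
    rw [Finset.sum_filter] at h1
    exact h1.le

theorem exists_good_block {P : ℤ[X]} (hdeg : P.natDegree = 3) (T : ℝ) :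
    ∃ D : Finset ℕ, (∀ p ∈ D, p.Prime ∧ Good P p) ∧ T ≤ ∑ p ∈ D, (1 : ℝ) / p := by
  have hα : P.coeff 3 ≠ 0 := by
    rw [← hdeg]
    intro h
    rw [coeff_natDegree, leadingCoeff_eq_zero] at h
    rw [h, natDegree_zero] at hdeg
    omega
  have hαp : ∀ p : ℕ, (P.coeff 3).natAbs < p → ((P.coeff 3 : ℤ) : ZMod p) ≠ 0 := by
    intro p hp h
    rw [ZMod.intCast_zmod_eq_zero_iff_dvd] at h
    have := Int.natAbs_dvd_natAbs.2 h
    rw [Int.natAbs_natCast] at this
    have := Nat.le_of_dvd (Int.natAbs_pos.2 hα) this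
    omega
  set Δ : ℤ := (P.coeff 2) ^ 2 - 3 * (P.coeff 3) * (P.coeff 1) with hΔ
  by_cases h0 : Δ = 0
  · obtain ⟨D, hD, hDT⟩ := exists_block (q := 3) (a := 2) (by decide) T
      ((P.coeff 3).natAbs + 3)
    refine ⟨D, fun p hp => ?_, hDT⟩
    obtain ⟨hpp, hp2, hpy⟩ := hD p hp
    have : Fact p.Prime := ⟨hpp⟩
    refine ⟨hpp, ?_⟩
    refine local_eq hdeg p (hαp p (by omega)) ?_ ?_ ?_
    · intro h
      have h' : ((3 : ℕ) : ZMod p) = 0 := by exact_mod_cast h
      rw [ZMod.natCast_eq_zero_iff] at h'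
      have := Nat.le_of_dvd (by norm_num) h'
      omega
    · have : ((Δ : ℤ) : ZMod p) = 0 := by rw [h0]; simp
      rw [hΔ] at this
      push_cast at this
      exact this
    · have hp3 : p % 3 = 2 := by
        have h2 : ((p : ℕ) : ZMod 3) = ((2 : ℕ) : ZMod 3) := by
          rw [hp2]
          rfl
        rw [ZMod.natCast_eq_natCast_iff'] at h2
        exact h2
      exact exists_cube_root p hp3
  · have hpos : 0 < Δ.natAbs := Int.natAbs_pos.2 h0
    have : NeZero (4 * Δ.natAbs) := ⟨by omega⟩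
    obtain ⟨D, hD, hDT⟩ := exists_block (q := 4 * Δ.natAbs) (a := 1) isUnit_one T
      ((P.coeff 3).natAbs + Δ.natAbs + 11)
    refine ⟨D, fun p hp => ?_, hDT⟩
    obtain ⟨hpp, hp2, hpy⟩ := hD p hp
    have : Fact p.Prime := ⟨hpp⟩
    refine ⟨hpp, ?_⟩
    have hΔp : ((Δ : ℤ) : ZMod p) ≠ 0 := by
      intro h
      rw [ZMod.intCast_zmod_eq_zero_iff_dvd] at h
      have := Int.natAbs_dvd_natAbs.2 h
      rw [Int.natAbs_natCast] at this
      have := Nat.le_of_dvd (Int.natAbs_pos.2 h0) this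
      omega
    obtain ⟨e, he⟩ := exists_sqrt p hp2 hΔp (hpp.odd_of_ne_two (by omega))
    refine local_ne hdeg p (by omega) (hαp p (by omega)) e ?_ ?_
    · rintro rfl
      apply hΔp
      rw [← he]
      ring
    · rw [he, hΔ]
      push_cast
      ring

theorem hom_aeval {R S : Type*} [CommRing R] [CommRing S] (φ : R →+* S) (P : ℤ[X]) (z : R) :
    φ (aeval z P) = aeval (φ z) P :=
  (Polynomial.aeval_algHom_apply (φ.toIntAlgHom) z P).symm

theorem cnt_prod (P : ℤ[X]) (h : ℕ) {R S : Type*} [CommRing R] [CommRing S] (a : R) (b : S) :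
    cnt P h (R × S) (a, b) = cnt P h R a * cnt P h S b := by
  unfold cnt
  rw [← Nat.card_prod]
  refine Nat.card_congr ⟨fun x => (⟨fun i => (x.1 i).1, ?_⟩, ⟨fun i => (x.1 i).2, ?_⟩),
    fun y => ⟨fun i => (y.1.1 i, y.2.1 i), ?_⟩, fun x => rfl, fun y => rfl⟩
  · have := congrArg (RingHom.fst R S) x.2
    rw [map_sum] at this
    simp only [hom_aeval] at this
    exact this
  · have := congrArg (RingHom.snd R S) x.2
    rw [map_sum] at this
    simp only [hom_aeval] at this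
    exact this
  · refine Prod.ext ?_ ?_
    · show (RingHom.fst R S) _ = a
      rw [map_sum]
      simp only [hom_aeval]
      exact y.1.2
    · show (RingHom.snd R S) _ = b
      rw [map_sum]
      simp only [hom_aeval]
      exact y.2.2

theorem cnt_equiv (P : ℤ[X]) (h : ℕ) {R S : Type*} [CommRing R] [CommRing S] (e : R ≃+* S) (c : S) :
    cnt P h R (e.symm c) = cnt P h S c := by
  unfold cnt
  have h1 : ∀ z : R, e (aeval z P) = aeval (e z) P := fun z =>
    (Polynomial.aeval_algHom_apply (e.toRingHom.toIntAlgHom) z P).symm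
  have h2 : ∀ z : S, e.symm (aeval z P) = aeval (e.symm z) P := fun z =>
    (Polynomial.aeval_algHom_apply (e.symm.toRingHom.toIntAlgHom) z P).symm
  refine Nat.card_congr ⟨fun x => ⟨fun i => e (x.1 i), ?_⟩,
    fun y => ⟨fun i => e.symm (y.1 i), ?_⟩, fun x => ?_, fun y => ?_⟩
  · simp only [← h1]
    rw [← map_sum, x.2, RingEquiv.apply_symm_apply]
  · simp only [← h2]
    rw [← map_sum, y.2]
  · exact Subtype.ext (funext fun i => e.symm_apply_apply _)
  · exact Subtype.ext (funext fun i => e.apply_symm_apply _)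

theorem exists_modulus {P : ℤ[X]} (D : Finset ℕ) (hD : ∀ p ∈ D, p.Prime ∧ Good P p) :
    ∃ Q : ℕ, Q ≠ 0 ∧ (∀ q : ℕ, q.Prime → q ∉ D → Nat.Coprime q Q) ∧ ∃ c : ZMod Q,
      (Q : ℝ) ^ 2 * (1 + ∑ p ∈ D, 1 / (2 * (p : ℝ))) ≤ (cnt P 3 (ZMod Q) c : ℝ) := by
  classical
  induction D using Finset.induction_on with
  | empty =>
    refine ⟨1, one_ne_zero, fun q _ _ => Nat.coprime_one_right q, 0, ?_⟩
    have h1 : cnt P 3 (ZMod 1) 0 = 1 := by
      unfold cnt
      rw [Nat.card_eq_one_iff_unique]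
      exact ⟨inferInstance, ⟨⟨0, Subsingleton.elim _ _⟩⟩⟩
    rw [h1]
    simp
  | insert p D hpD ih =>
    obtain ⟨Q, hQ0, hQc, c, hc⟩ := ih (fun q hq => hD q (Finset.mem_insert_of_mem hq))
    obtain ⟨hp, c', hc'⟩ := hD p (Finset.mem_insert_self p D)
    have hcop : Nat.Coprime (p ^ 2) Q := Nat.Coprime.pow_left 2 (hQc p hp hpD)
    refine ⟨p ^ 2 * Q, mul_ne_zero (pow_ne_zero _ hp.ne_zero) hQ0, ?_, ?_⟩
    · intro q hq hqD
      rw [Finset.mem_insert, not_or] at hqD
      refine Nat.Coprime.mul_right (Nat.Coprime.pow_right 2 ?_) (hQc q hq hqD.2)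
      exact (Nat.coprime_primes hq hp).2 hqD.1
    · refine ⟨(ZMod.chineseRemainder hcop).symm (c', c), ?_⟩
      rw [cnt_equiv, cnt_prod, Finset.sum_insert hpD]
      have hp0 : (0 : ℝ) < p := by exact_mod_cast hp.pos
      have k1 : ((p ^ 2 : ℕ) : ℝ) ^ 2 * (1 + 1 / (2 * (p : ℝ))) ≤ (cnt P 3 (ZMod (p ^ 2)) c' : ℝ) := by
        have h1 : (2 : ℝ) * (p : ℝ) ^ 4 + (p : ℝ) ^ 3 ≤ 2 * (cnt P 3 (ZMod (p ^ 2)) c' : ℝ) := by
          exact_mod_cast hc'
        have h2 : ((p ^ 2 : ℕ) : ℝ) ^ 2 * (1 + 1 / (2 * (p : ℝ))) =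
            (2 * (p : ℝ) ^ 4 + (p : ℝ) ^ 3) / 2 := by
          push_cast
          field_simp
        rw [h2]
        linarith
      have hs : (0 : ℝ) ≤ ∑ x ∈ D, 1 / (2 * (x : ℝ)) := Finset.sum_nonneg fun _ _ => by positivity
      have h3 : (0 : ℝ) ≤ 1 / (2 * (p : ℝ)) := by positivity
      push_cast at k1 ⊢
      calc ((p : ℝ) ^ 2 * Q) ^ 2 * (1 + (1 / (2 * (p : ℝ)) + ∑ x ∈ D, 1 / (2 * (x : ℝ)))) ≤
          (((p : ℝ) ^ 2) ^ 2 * (1 + 1 / (2 * (p : ℝ)))) *
            ((Q : ℝ) ^ 2 * (1 + ∑ x ∈ D, 1 / (2 * (x : ℝ)))) := by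
            have : ((p : ℝ) ^ 2 * Q) ^ 2 *
                (1 + (1 / (2 * (p : ℝ)) + ∑ x ∈ D, 1 / (2 * (x : ℝ)))) ≤
                ((p : ℝ) ^ 2 * Q) ^ 2 * ((1 + 1 / (2 * (p : ℝ))) *
                  (1 + ∑ x ∈ D, 1 / (2 * (x : ℝ)))) := by
              apply mul_le_mul_of_nonneg_left _ (by positivity)
              nlinarith [mul_nonneg h3 hs]
            refine this.trans (le_of_eq ?_)
            ring
        _ ≤ _ := mul_le_mul k1 hc (by positivity) (by positivity)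

/-- the hypothesis of the engine -/
theorem hyp {P : ℤ[X]} (hdeg : P.natDegree = 3) (T : ℕ) :
    ∃ Q : ℕ, 0 < Q ∧ ∃ c : ℤ, T * Q ^ (3 - 1) ≤ (PolyEng.sols P 3 Q Q c).card := by
  classical
  obtain ⟨D, hD, hDT⟩ := exists_good_block hdeg (2 * T : ℝ)
  obtain ⟨Q, hQ0, -, c, hc⟩ := exists_modulus D hD
  have : NeZero Q := ⟨hQ0⟩
  refine ⟨Q, Nat.pos_of_ne_zero hQ0, (c.val : ℤ), ?_⟩
  have h1 : cnt P 3 (ZMod Q) c ≤ (PolyEng.sols P 3 Q Q (c.val : ℤ)).card := by
    unfold cnt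
    rw [← Fintype.card_coe, ← Nat.card_eq_fintype_card]
    have hmem : ∀ x : {x : Fin 3 → ZMod Q // ∑ i, aeval (x i) P = c},
        (fun i => (x.1 i).val) ∈ PolyEng.sols P 3 Q Q (c.val : ℤ) := by
      intro x
      rw [PolyEng.mem_sols]
      refine ⟨fun i => ZMod.val_lt _, ?_⟩
      have h3 : ∀ i, ((P.eval (((x.1 i).val : ℕ) : ℤ) : ℤ) : ZMod Q) = aeval (x.1 i) P := by
        intro i
        have h2 := Polynomial.aeval_algebraMap_apply (ZMod Q) (((x.1 i).val : ℕ) : ℤ) P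
        rw [Polynomial.coe_aeval_eq_eval, eq_intCast, eq_intCast] at h2
        rw [← h2]
        push_cast
        rw [ZMod.natCast_zmod_val]
      rw [← ZMod.intCast_zmod_eq_zero_iff_dvd]
      push_cast
      simp only [h3]
      rw [ZMod.natCast_zmod_val, sub_eq_zero]
      exact x.2
    refine Nat.card_le_card_of_injective
      (fun x => (⟨fun i => (x.1 i).val, hmem x⟩ : (PolyEng.sols P 3 Q Q (c.val : ℤ)))) ?_
    intro x y hxy
    apply Subtype.ext
    funext i
    exact ZMod.val_injective Q (congrFun (congrArg Subtype.val hxy) i)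
  have h2 : (T : ℝ) * (Q : ℝ) ^ 2 ≤ (cnt P 3 (ZMod Q) c : ℝ) := by
    refine le_trans ?_ hc
    rw [mul_comm]
    apply mul_le_mul_of_nonneg_left _ (by positivity)
    have h3 : ∑ p ∈ D, 1 / (2 * (p : ℝ)) = (∑ p ∈ D, (1 : ℝ) / p) / 2 := by
      rw [Finset.sum_div]
      refine Finset.sum_congr rfl (fun p _ => ?_)
      ring
    rw [h3]
    linarith
  have h3 : T * Q ^ 2 ≤ cnt P 3 (ZMod Q) c := by exact_mod_cast h2
  exact h3.trans h1

end Pool.Agent.X6.Cubic
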