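import Mathlib

/-!
Counting matrices of small rank, and solutions of `y * b * M = 0`, over a finite field.
-/

namespace Pool.Agent.X6.CoverMat

open Matrix

universe u

variable {F : Type u} [Field F] {n : ℕ}

/-- Rank factorisation. -/
theorem exists_factor (y : Matrix (Fin n) (Fin n) F) (s : ℕ) (hs : y.rank ≤ s) :
    ∃ (A : Matrix (Fin n) (Fin s) F) (B : Matrix (Fin s) (Fin n) F), y = A * B := by
  classical
  obtain ⟨V, U, e, hV, hU, h⟩ := Matrix.exists_rank_normal_form y
  obtain ⟨V', hV'⟩ := hV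
  obtain ⟨U', hU'⟩ := hU
  set E : Matrix (Fin n) (Fin s) F := fun i k =>
    Sum.elim (fun a : Fin y.rank => if (a : ℕ) = k then (1 : F) else 0) (fun _ => 0) (e i) with hE
  have hEE : E * Eᵀ = (fromBlocks 1 0 0 0 : Matrix (Fin y.rank ⊕ Fin (Fintype.card (Fin n) - y.rank))
      (Fin y.rank ⊕ Fin (Fintype.card (Fin n) - y.rank)) F).submatrix e e := by
    ext i j
    rw [Matrix.mul_apply, Matrix.submatrix_apply]
    simp only [hE, Matrix.transpose_apply]
    rcases hi : e i with a | a
    · rcases hj : e j with b | b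
      · simp only [Sum.elim_inl, Matrix.fromBlocks_apply₁₁, Matrix.one_apply]
        rw [Finset.sum_eq_single (⟨a, lt_of_lt_of_le a.2 hs⟩ : Fin s)]
        · by_cases hab : a = b
          · subst hab
            simp
          · have : (b : ℕ) ≠ (a : ℕ) := fun h => hab (Fin.ext h.symm)
            simp [hab, this]
        · intro k _ hk
          have : ¬ (a : ℕ) = k := fun h => hk (Fin.ext h.symm)
          simp [this]
        · intro h
          exact absurd (Finset.mem_univ _) h
      · simp
    · rcases hj : e j with b | b <;> simp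
  obtain ⟨Vi, hVi⟩ : ∃ Vi : Matrix (Fin n) (Fin n) F, Vi * V = 1 :=
    ⟨((V'⁻¹ : (Matrix (Fin n) (Fin n) F)ˣ) : Matrix (Fin n) (Fin n) F), by rw [← hV']; exact Units.inv_mul _⟩
  obtain ⟨Ui, hUi⟩ : ∃ Ui : Matrix (Fin n) (Fin n) F, U * Ui = 1 :=
    ⟨((U'⁻¹ : (Matrix (Fin n) (Fin n) F)ˣ) : Matrix (Fin n) (Fin n) F), by rw [← hU']; exact Units.mul_inv _⟩
  refine ⟨Vi * E, Eᵀ * Ui, ?_⟩
  have h2 : Vi * E * (Eᵀ * Ui) = Vi * (E * Eᵀ) * Ui := by
    simp only [Matrix.mul_assoc]
  rw [h2, hEE, ← h]
  have h3 : Vi * (V * y * U) * Ui = (Vi * V) * y * (U * Ui) := by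
    simp only [Matrix.mul_assoc]
  rw [h3, hVi, hUi, Matrix.one_mul, Matrix.mul_one]

variable [Fintype F]

open scoped Classical in
/-- The number of matrices of rank at most `s` is at most `q^(2 n s)`. -/
theorem card_rank_le (s : ℕ) :
    (Finset.univ.filter (fun y : Matrix (Fin n) (Fin n) F => y.rank ≤ s)).card ≤
      Fintype.card F ^ (2 * n * s) := by
  have h1 : Finset.univ.filter (fun y : Matrix (Fin n) (Fin n) F => y.rank ≤ s) ⊆
      (Finset.univ : Finset ((Matrix (Fin n) (Fin s) F) × (Matrix (Fin s) (Fin n) F))).image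
        (fun p => p.1 * p.2) := by
    intro y hy
    obtain ⟨A, B, h⟩ := exists_factor y s (Finset.mem_filter.1 hy).2
    exact Finset.mem_image.2 ⟨(A, B), Finset.mem_univ _, h.symm⟩
  refine (Finset.card_le_card h1).trans (Finset.card_image_le.trans ?_)
  rw [Finset.card_univ, Fintype.card_prod]
  have e1 : Fintype.card (Matrix (Fin n) (Fin s) F) = Fintype.card F ^ (n * s) := by
    rw [show Fintype.card (Matrix (Fin n) (Fin s) F) = Fintype.card (Fin n → Fin s → F) from rfl]
    rw [Fintype.card_fun, Fintype.card_fun, Fintype.card_fin, Fintype.card_fin, ← pow_mul, mul_comm]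
  have e2 : Fintype.card (Matrix (Fin s) (Fin n) F) = Fintype.card F ^ (s * n) := by
    rw [show Fintype.card (Matrix (Fin s) (Fin n) F) = Fintype.card (Fin s → Fin n → F) from rfl]
    rw [Fintype.card_fun, Fintype.card_fun, Fintype.card_fin, Fintype.card_fin, ← pow_mul, mul_comm]
  rw [e1, e2, ← pow_add]
  refine le_of_eq ?_
  congr 1
  ring

open scoped Classical in
/-- `#{b : y b M = 0} q^(rank y rank M) ≤ q^(n^2)`. -/
theorem card_mul_mul_eq_zero (y M : Matrix (Fin n) (Fin n) F) :
    (Finset.univ.filter (fun b : Matrix (Fin n) (Fin n) F => y * b * M = 0)).card *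
      Fintype.card F ^ (y.rank * M.rank) ≤ Fintype.card F ^ (n * n) := by
  obtain ⟨V, U, e, hV, hU, h⟩ := Matrix.exists_rank_normal_form y
  obtain ⟨V2, U2, e2, hV2, hU2, h2⟩ := Matrix.exists_rank_normal_form M
  obtain ⟨V, rfl⟩ := hV
  obtain ⟨U, rfl⟩ := hU
  obtain ⟨V2, rfl⟩ := hV2
  obtain ⟨U2, rfl⟩ := hU2
  -- the positions forced to vanish
  let Z : Type := {p : Fin n × Fin n // ¬ ((e p.1).isLeft ∧ (e2 p.2).isLeft)}
  let g : Matrix (Fin n) (Fin n) F → (Z → F) := fun b p =>
    ((U⁻¹ : (Matrix (Fin n) (Fin n) F)ˣ) * b * (V2⁻¹ : (Matrix (Fin n) (Fin n) F)ˣ) :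
      Matrix (Fin n) (Fin n) F) p.1.1 p.1.2
  have hvan : ∀ b : Matrix (Fin n) (Fin n) F, y * b * M = 0 → ∀ i j, (e i).isLeft → (e2 j).isLeft →
      ((U⁻¹ : (Matrix (Fin n) (Fin n) F)ˣ) * b * (V2⁻¹ : (Matrix (Fin n) (Fin n) F)ˣ) :
      Matrix (Fin n) (Fin n) F) i j = 0 := by
    intro b hb i j hi hj
    set b' : Matrix (Fin n) (Fin n) F :=
      (U⁻¹ : (Matrix (Fin n) (Fin n) F)ˣ) * b * (V2⁻¹ : (Matrix (Fin n) (Fin n) F)ˣ) with hb'
    have e1 : (V : Matrix (Fin n) (Fin n) F) * y * U * b' * (V2 * M * U2) = 0 := by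
      have : (V : Matrix (Fin n) (Fin n) F) * y * U * b' * (V2 * M * U2) =
          V * (y * b * M) * U2 := by
        rw [hb']
        simp only [Matrix.mul_assoc]
        rw [← Matrix.mul_assoc (V2⁻¹ : (Matrix (Fin n) (Fin n) F)ˣ).val V2.val, Units.inv_mul,
          Matrix.one_mul, ← Matrix.mul_assoc U.val, Units.mul_inv, Matrix.one_mul]
      rw [this, hb]
      simp
    rw [h, h2] at e1
    have e3 := congrFun (congrFun e1 i) j
    rw [Matrix.zero_apply, Matrix.mul_apply, Finset.sum_eq_single j] at e3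
    · rw [Matrix.mul_apply, Finset.sum_eq_single i] at e3
      · rcases hei : e i with a | a
        · rcases hej : e2 j with c | c
          · simpa [hei, hej] using e3
          · rw [hej] at hj
            simp at hj
        · rw [hei] at hi
          simp at hi
      · intro k _ hk
        rw [Matrix.submatrix_apply]
        have : e i ≠ e k := fun hh => hk (e.injective hh).symm
        rcases hei : e i with a | a <;> rcases hek : e k with c | c
        · have hac : a ≠ c := fun hh => this (by rw [hei, hek, hh])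
          simp [hac]
        · simp
        · simp
        · simp
      · intro hh
        exact absurd (Finset.mem_univ _) hh
    · intro k _ hk
      rw [Matrix.submatrix_apply _ e2 e2]
      have : e2 k ≠ e2 j := fun hh => hk (e2.injective hh)
      rcases hei : e2 k with a | a <;> rcases hek : e2 j with c | c
      · have hac : a ≠ c := fun hh => this (by rw [hei, hek, hh])
        simp [hac]
      · simp
      · simp
      · simp
    · intro hh
      exact absurd (Finset.mem_univ _) hh
  have hinj : Set.InjOn g (Finset.univ.filter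
      (fun b : Matrix (Fin n) (Fin n) F => y * b * M = 0) : Finset _) := by
    intro b hb c hc hbc
    rw [Finset.mem_coe, Finset.mem_filter] at hb hc
    have h3 : ((U⁻¹ : (Matrix (Fin n) (Fin n) F)ˣ) * b * (V2⁻¹ : (Matrix (Fin n) (Fin n) F)ˣ) :
      Matrix (Fin n) (Fin n) F) = ((U⁻¹ : (Matrix (Fin n) (Fin n) F)ˣ) * c *
        (V2⁻¹ : (Matrix (Fin n) (Fin n) F)ˣ) : Matrix (Fin n) (Fin n) F) := by
      ext i j
      by_cases hij : (e i).isLeft ∧ (e2 j).isLeft
      · rw [hvan b hb.2 i j hij.1 hij.2, hvan c hc.2 i j hij.1 hij.2]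
      · exact congrFun hbc ⟨(i, j), hij⟩
    have h4 := congrArg (fun x => (U : Matrix (Fin n) (Fin n) F) * x * V2) h3
    beta_reduce at h4
    rw [← Matrix.mul_assoc, ← Matrix.mul_assoc, Units.mul_inv, Matrix.one_mul, Matrix.mul_assoc,
      Units.inv_mul, Matrix.mul_one, ← Matrix.mul_assoc, ← Matrix.mul_assoc, Units.mul_inv,
      Matrix.one_mul, Matrix.mul_assoc, Units.inv_mul, Matrix.mul_one] at h4
    exact h4
  have hcard1 : (Finset.univ.filter (fun b : Matrix (Fin n) (Fin n) F => y * b * M = 0)).card ≤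
      Fintype.card (Z → F) := by
    rw [← Finset.card_univ]
    exact Finset.card_le_card_of_injOn g (fun _ _ => Finset.mem_univ _) hinj
  have hZ : Fintype.card Z + y.rank * M.rank = n * n := by
    have h5 : Fintype.card {p : Fin n × Fin n // ((e p.1).isLeft ∧ (e2 p.2).isLeft)} =
        y.rank * M.rank := by
      have eq1 : {p : Fin n × Fin n // ((e p.1).isLeft ∧ (e2 p.2).isLeft)} ≃
          Fin y.rank × Fin M.rank := by
        refine Equiv.ofBijective (fun p => ((e p.1.1).getLeft p.2.1, (e2 p.1.2).getLeft p.2.2)) ⟨?_, ?_⟩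
        · rintro ⟨⟨i, j⟩, hi, hj⟩ ⟨⟨i', j'⟩, hi', hj'⟩ hh
          simp only [Prod.mk.injEq] at hh
          obtain ⟨a, ha⟩ := Sum.isLeft_iff.1 hi
          obtain ⟨a', ha'⟩ := Sum.isLeft_iff.1 hi'
          obtain ⟨c, hc⟩ := Sum.isLeft_iff.1 hj
          obtain ⟨c', hc'⟩ := Sum.isLeft_iff.1 hj'
          simp only at ha ha' hc hc'
          have t1 := hh.1
          have t2 := hh.2
          simp only [ha, ha', hc, hc', Sum.getLeft_inl] at t1 t2
          have u1 : i = i' := e.injective (by rw [ha, ha', t1])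
          have u2 : j = j' := e2.injective (by rw [hc, hc', t2])
          subst u1
          subst u2
          rfl
        · rintro ⟨a, c⟩
          refine ⟨⟨(e.symm (Sum.inl a), e2.symm (Sum.inl c)), ?_, ?_⟩, ?_⟩
          · simp
          · simp
          · simp
      rw [Fintype.card_congr eq1, Fintype.card_prod, Fintype.card_fin, Fintype.card_fin]
    have h6 := Fintype.card_subtype_compl (fun p : Fin n × Fin n =>
      ((e p.1).isLeft ∧ (e2 p.2).isLeft : Prop))
    have h7 : Fintype.card {p : Fin n × Fin n // ((e p.1).isLeft ∧ (e2 p.2).isLeft)} ≤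
        Fintype.card (Fin n × Fin n) := Fintype.card_subtype_le _
    have hcf : Fintype.card (Fin n × Fin n) = n * n := by simp
    rw [hcf] at h6 h7
    have h8 : Fintype.card Z = n * n -
      Fintype.card {p : Fin n × Fin n // ((e p.1).isLeft ∧ (e2 p.2).isLeft)} := by
      rw [← h6]
    rw [h8, h5]
    rw [h5] at h7
    omega
  rw [Fintype.card_fun] at hcard1
  calc _ ≤ Fintype.card F ^ Fintype.card Z * Fintype.card F ^ (y.rank * M.rank) :=
        Nat.mul_le_mul_right _ hcard1
    _ = Fintype.card F ^ (n * n) := by rw [← pow_add, hZ]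

end Pool.Agent.X6.CoverMat
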