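import Mathlib
import Pool.Agent.X6.CoverMat1

/-!
Fourier analysis on the additive group of matrices over a finite field.
-/

namespace Pool.Agent.X6.CoverMat

open Matrix

universe u

variable {F : Type u} [Field F] [Fintype F] {n : ℕ}

open scoped Classical in
theorem sum_char (ψ : AddChar F ℂ) (hψ : ψ ≠ 1) (z : Matrix (Fin n) (Fin n) F) :
    ∑ a : Matrix (Fin n) (Fin n) F, ψ (trace (z * a)) =
      if z = 0 then (Fintype.card (Matrix (Fin n) (Fin n) F) : ℂ) else 0 := by
  let φ : AddChar (Matrix (Fin n) (Fin n) F) ℂ :=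
    { toFun := fun a => ψ (trace (z * a))
      map_zero_eq_one' := by simp
      map_add_eq_mul' := by
        intro a b
        rw [Matrix.mul_add, Matrix.trace_add, AddChar.map_add_eq_mul] }
  have hφ : ∀ a, φ a = ψ (trace (z * a)) := fun a => rfl
  split_ifs with h
  · subst h
    simp
  · have h1 : φ ≠ 1 := by
      obtain ⟨t, ht⟩ := AddChar.ne_one_iff.1 hψ
      obtain ⟨i, j, hij⟩ : ∃ i j, z i j ≠ 0 := by
        by_contra hcon
        push Not at hcon
        exact h (Matrix.ext hcon)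
      rw [AddChar.ne_one_iff]
      refine ⟨Matrix.single j i (t / z i j), ?_⟩
      rw [hφ]
      have : trace (z * Matrix.single j i (t / z i j)) = t := by
        rw [Matrix.trace_mul_single, op_smul_eq_mul]
        field_simp
      rw [this]
      exact ht
    have h2 := AddChar.sum_eq_zero_of_ne_one h1
    exact h2

/-- the Fourier transform of the indicator function of `X` -/
noncomputable def FX (ψ : AddChar F ℂ) (X : Finset (Matrix (Fin n) (Fin n) F))
    (M : Matrix (Fin n) (Fin n) F) : ℂ := ∑ x ∈ X, ψ (trace (M * x))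

open scoped Classical in
theorem second_moment (ψ : AddChar F ℂ) (hψ : ψ ≠ 1) (X : Finset (Matrix (Fin n) (Fin n) F))
    (M : Matrix (Fin n) (Fin n) F) :
    ∑ b : Matrix (Fin n) (Fin n) F, ∑ a : Matrix (Fin n) (Fin n) F, ‖FX ψ X (b * M * a)‖ ^ 2 =
      (Fintype.card (Matrix (Fin n) (Fin n) F) : ℝ) * ∑ x ∈ X, ∑ x' ∈ X,
        ((Finset.univ.filter (fun b : Matrix (Fin n) (Fin n) F => (x - x') * b * M = 0)).card : ℝ) := by
  have h1 : ∀ a b : Matrix (Fin n) (Fin n) F, ((‖FX ψ X (b * M * a)‖ ^ 2 : ℝ) : ℂ) =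
      ∑ x ∈ X, ∑ x' ∈ X, ψ (trace ((x - x') * b * M * a)) := by
    intro a b
    push_cast
    rw [← Complex.mul_conj']
    unfold FX
    rw [map_sum, Finset.sum_mul_sum]
    refine Finset.sum_congr rfl fun x _ => Finset.sum_congr rfl fun x' _ => ?_
    rw [← AddChar.map_neg_eq_conj, ← AddChar.map_add_eq_mul]
    congr 1
    have e1 : trace (b * M * a * x) + -trace (b * M * a * x') = trace (b * M * a * (x - x')) := by
      rw [Matrix.mul_sub, Matrix.trace_sub]
      ring
    rw [e1, Matrix.trace_mul_comm]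
    congr 1
    simp only [Matrix.mul_assoc]
  have h2 : ((∑ b : Matrix (Fin n) (Fin n) F, ∑ a : Matrix (Fin n) (Fin n) F,
      ‖FX ψ X (b * M * a)‖ ^ 2 : ℝ) : ℂ) =
      (((Fintype.card (Matrix (Fin n) (Fin n) F) : ℝ) * ∑ x ∈ X, ∑ x' ∈ X,
        ((Finset.univ.filter
          (fun b : Matrix (Fin n) (Fin n) F => (x - x') * b * M = 0)).card : ℝ) : ℝ) : ℂ) := by
    rw [Complex.ofReal_sum]
    simp_rw [Complex.ofReal_sum, h1]
    have h3 : ∀ b : Matrix (Fin n) (Fin n) F, ∑ a : Matrix (Fin n) (Fin n) F,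
        ∑ x ∈ X, ∑ x' ∈ X, ψ (trace ((x - x') * b * M * a)) =
        ∑ x ∈ X, ∑ x' ∈ X, if (x - x') * b * M = 0 then
          (Fintype.card (Matrix (Fin n) (Fin n) F) : ℂ) else 0 := by
      intro b
      rw [Finset.sum_comm]
      refine Finset.sum_congr rfl fun x _ => ?_
      rw [Finset.sum_comm]
      refine Finset.sum_congr rfl fun x' _ => ?_
      exact sum_char ψ hψ _
    simp_rw [h3]
    rw [Finset.sum_comm, Complex.ofReal_mul, Complex.ofReal_sum, Finset.mul_sum]
    refine Finset.sum_congr rfl fun x _ => ?_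
    rw [Finset.sum_comm, Complex.ofReal_sum, Finset.mul_sum]
    refine Finset.sum_congr rfl fun x' _ => ?_
    rw [← Finset.sum_filter, Finset.sum_const]
    simp [mul_comm]
  exact_mod_cast h2

theorem map_fsum (ψ : AddChar F ℂ) {ι : Type*} (s : Finset ι) (f : ι → F) :
    ψ (∑ i ∈ s, f i) = ∏ i ∈ s, ψ (f i) := by
  classical
  induction s using Finset.induction_on with
  | empty => rw [Finset.sum_empty, Finset.prod_empty, AddChar.map_zero_eq_one]
  | insert i s hi ih =>
    rw [Finset.sum_insert hi, Finset.prod_insert hi, AddChar.map_add_eq_mul, ih]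

theorem FX_zero (ψ : AddChar F ℂ) (X : Finset (Matrix (Fin n) (Fin n) F)) :
    FX ψ X 0 = (X.card : ℂ) := by
  unfold FX
  have : ∀ x ∈ X, ψ (trace ((0 : Matrix (Fin n) (Fin n) F) * x)) = 1 := by
    intro x _
    rw [Matrix.zero_mul, Matrix.trace_zero, AddChar.map_zero_eq_one]
  rw [Finset.sum_congr rfl this, Finset.sum_const, nsmul_eq_mul, mul_one]

open scoped Classical in
/-- The number of representations is controlled by the Fourier transforms. -/
theorem exists_rep (ψ : AddChar F ℂ) (hψ : ψ ≠ 1) {μ : ℕ}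
    (X : Fin μ → Finset (Matrix (Fin n) (Fin n) F))
    (a b : Fin μ → Matrix (Fin n) (Fin n) F)
    (h : ∑ M ∈ Finset.univ.erase (0 : Matrix (Fin n) (Fin n) F),
      ∏ i, ‖FX ψ (X i) (b i * M * a i)‖ < ∏ i, ((X i).card : ℝ))
    (g : Matrix (Fin n) (Fin n) F) :
    ∃ x : Fin μ → Matrix (Fin n) (Fin n) F, (∀ i, x i ∈ X i) ∧ ∑ i, a i * x i * b i = g := by
  by_contra hcon
  push Not at hcon
  -- total sum
  have h1 : ∑ M : Matrix (Fin n) (Fin n) F, ∑ x ∈ Fintype.piFinset X,
      ψ (trace ((∑ i, a i * x i * b i - g) * M)) = 0 := by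
    rw [Finset.sum_comm]
    refine Finset.sum_eq_zero fun x hx => ?_
    rw [sum_char ψ hψ, if_neg]
    intro h0
    exact hcon x (fun i => Fintype.mem_piFinset.1 hx i) (sub_eq_zero.1 h0)
  have h2 : ∀ M : Matrix (Fin n) (Fin n) F, ∑ x ∈ Fintype.piFinset X,
      ψ (trace ((∑ i, a i * x i * b i - g) * M)) =
      ψ (- trace (g * M)) * ∏ i, FX ψ (X i) (b i * M * a i) := by
    intro M
    unfold FX
    rw [Finset.prod_univ_sum, Finset.mul_sum]
    refine Finset.sum_congr rfl fun x _ => ?_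
    have e1 : trace ((∑ i, a i * x i * b i - g) * M) =
        - trace (g * M) + ∑ i, trace (b i * M * a i * x i) := by
      rw [Matrix.sub_mul, Matrix.trace_sub, Finset.sum_mul, Matrix.trace_sum]
      have : ∀ i, trace (a i * x i * b i * M) = trace (b i * M * a i * x i) := by
        intro i
        rw [Matrix.mul_assoc (a i * x i), Matrix.trace_mul_comm (a i * x i)]
        simp only [Matrix.mul_assoc]
      simp_rw [this]
      ring
    rw [e1, AddChar.map_add_eq_mul, map_fsum]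
  simp_rw [h2] at h1
  rw [← Finset.add_sum_erase _ _ (Finset.mem_univ (0 : Matrix (Fin n) (Fin n) F))] at h1
  have h3 : ψ (- trace (g * (0 : Matrix (Fin n) (Fin n) F))) * ∏ i, FX ψ (X i)
      (b i * 0 * a i) = ((∏ i, ((X i).card : ℝ) : ℝ) : ℂ) := by
    have e1 : ∀ i, FX ψ (X i) (b i * 0 * a i) = ((X i).card : ℂ) := by
      intro i
      rw [Matrix.mul_zero, Matrix.zero_mul, FX_zero]
    rw [Finset.prod_congr rfl (fun i _ => e1 i), Matrix.mul_zero, Matrix.trace_zero, neg_zero,
      AddChar.map_zero_eq_one, one_mul]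
    push_cast
    rfl
  rw [h3] at h1
  have h4 : ((∏ i, ((X i).card : ℝ) : ℝ) : ℂ) =
      - ∑ M ∈ Finset.univ.erase (0 : Matrix (Fin n) (Fin n) F),
        ψ (- trace (g * M)) * ∏ i, FX ψ (X i) (b i * M * a i) := by
    linear_combination h1
  have h5 := congrArg norm h4
  rw [norm_neg, Complex.norm_real, Real.norm_of_nonneg
    (Finset.prod_nonneg (fun i _ => Nat.cast_nonneg _))] at h5
  have h6 : ‖∑ M ∈ Finset.univ.erase (0 : Matrix (Fin n) (Fin n) F),
        ψ (- trace (g * M)) * ∏ i, FX ψ (X i) (b i * M * a i)‖ ≤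
      ∑ M ∈ Finset.univ.erase (0 : Matrix (Fin n) (Fin n) F),
        ∏ i, ‖FX ψ (X i) (b i * M * a i)‖ := by
    refine (norm_sum_le _ _).trans (le_of_eq ?_)
    refine Finset.sum_congr rfl fun M _ => ?_
    rw [norm_mul, AddChar.norm_apply, one_mul, norm_prod]
  exact absurd (h5.le.trans h6) (not_le.2 h)

/-- Averaging: a choice at least as good as the average. -/
theorem exists_choice {μ : ℕ} {ι : Type u} {G : Type*} [Fintype G] [Nonempty G]
    (s : Finset ι) (f : Fin μ → ι → G → ℝ) (w : Fin μ → ι → ℝ)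
    (hf : ∀ i m, 0 ≤ ∑ c, f i m c)
    (h : ∀ i, ∀ m ∈ s, ∑ c, f i m c ≤ (Fintype.card G : ℝ) * w i m) :
    ∃ c : Fin μ → G, ∑ m ∈ s, ∏ i, f i m (c i) ≤ ∑ m ∈ s, ∏ i, w i m := by
  classical
  have h1 : ∑ c : Fin μ → G, ∑ m ∈ s, ∏ i, f i m (c i) ≤
      ∑ _c : Fin μ → G, ∑ m ∈ s, ∏ i, w i m := by
    rw [Finset.sum_comm, Finset.sum_const, Finset.card_univ, Fintype.card_fun, Fintype.card_fin,
      nsmul_eq_mul, Finset.mul_sum]
    refine Finset.sum_le_sum fun m hm => ?_
    have e1 : ∑ c : Fin μ → G, ∏ i, f i m (c i) = ∏ i, ∑ c, f i m c := by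
      rw [Finset.prod_univ_sum, Fintype.piFinset_univ]
    rw [e1]
    have e2 : (((Fintype.card G) ^ μ : ℕ) : ℝ) * ∏ i, w i m =
        ∏ i, ((Fintype.card G : ℝ) * w i m) := by
      rw [Finset.prod_mul_distrib, Finset.prod_const, Finset.card_univ, Fintype.card_fin]
      push_cast
      rfl
    rw [e2]
    exact Finset.prod_le_prod (fun i _ => hf i m) (fun i _ => h i m hm)
  obtain ⟨c, -, hc⟩ := Finset.exists_le_of_sum_le Finset.univ_nonempty h1
  exact ⟨c, hc⟩

end Pool.Agent.X6.CoverMat
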