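import Mathlib

/-!
Sums of twisted two-element sets of matrices, and the density of the general linear group.
-/

namespace Pool.Agent.X6.CoverMat

open Matrix

universe u

variable {F : Type u} [Field F] {n : ℕ}

theorem single_mem_closure (i k : Fin n) (c : F) :
    Matrix.single i k c ∈ AddSubgroup.closure {u : Matrix (Fin n) (Fin n) F | IsUnit u} := by
  have h1 : (1 : Matrix (Fin n) (Fin n) F) ∈
      AddSubgroup.closure {u : Matrix (Fin n) (Fin n) F | IsUnit u} :=
    AddSubgroup.subset_closure isUnit_one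
  have htr : ∀ (i k : Fin n) (c : F), i ≠ k → IsUnit (1 + Matrix.single i k c) := by
    intro i k c hik
    rw [Matrix.isUnit_iff_isUnit_det]
    have := Matrix.det_transvection_of_ne i k hik c
    unfold Matrix.transvection at this
    rw [this]
    exact isUnit_one
  by_cases hik : i = k
  · subst hik
    by_cases hj : ∃ j, j ≠ i
    · obtain ⟨j, hj⟩ := hj
      have e1 : Matrix.single i i c = Matrix.single i j c * Matrix.single j i (1 : F) := by
        rw [Matrix.single_mul_single_same, mul_one]
      have e2 : Matrix.single i i c = (1 + Matrix.single i j c) * (1 + Matrix.single j i (1 : F)) -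
          (1 + Matrix.single i j c) - (1 + Matrix.single j i (1 : F)) + 1 := by
        rw [e1]
        noncomm_ring
      rw [e2]
      refine add_mem (sub_mem (sub_mem ?_ ?_) ?_) h1
      · exact AddSubgroup.subset_closure ((htr i j c hj.symm).mul (htr j i 1 hj))
      · exact AddSubgroup.subset_closure (htr i j c hj.symm)
      · exact AddSubgroup.subset_closure (htr j i 1 hj)
    · push Not at hj
      have e1 : Matrix.single i i c = c • (1 : Matrix (Fin n) (Fin n) F) := by
        ext a b
        rw [hj a, hj b]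
        simp
      rw [e1]
      by_cases hc : c = 0
      · subst hc
        rw [zero_smul]
        exact zero_mem _
      · refine AddSubgroup.subset_closure ?_
        have : IsUnit (c • (1 : Matrix (Fin n) (Fin n) F)) := by
          rw [Matrix.isUnit_iff_isUnit_det, Matrix.det_smul, Matrix.det_one, mul_one]
          exact (IsUnit.mk0 c hc).pow _
        exact this
  · have e1 : Matrix.single i k c = (1 + Matrix.single i k c) - 1 := by
      rw [add_sub_cancel_left]
    rw [e1]
    exact sub_mem (AddSubgroup.subset_closure (htr i k c hik)) h1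

theorem eq_top (H : AddSubgroup (Matrix (Fin n) (Fin n) F)) {d : Matrix (Fin n) (Fin n) F}
    (hd : d ≠ 0) (h : ∀ a b : Matrix (Fin n) (Fin n) F, IsUnit a → IsUnit b → a * d * b ∈ H) :
    ∀ z, z ∈ H := by
  set U := AddSubgroup.closure {u : Matrix (Fin n) (Fin n) F | IsUnit u} with hU
  have h1 : ∀ a ∈ U, ∀ b, IsUnit b → a * d * b ∈ H := by
    intro a ha b hb
    induction ha using AddSubgroup.closure_induction with
    | mem a ha => exact h a b ha hb
    | zero => rw [zero_mul, zero_mul]; exact zero_mem _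
    | add x y _ _ hx hy => rw [add_mul, add_mul]; exact add_mem hx hy
    | neg x _ hx => rw [neg_mul, neg_mul]; exact neg_mem hx
  have h2 : ∀ a ∈ U, ∀ b ∈ U, a * d * b ∈ H := by
    intro a ha b hb
    induction hb using AddSubgroup.closure_induction with
    | mem b hb => exact h1 a ha b hb
    | zero => rw [mul_zero]; exact zero_mem _
    | add x y _ _ hx hy => rw [mul_add]; exact add_mem hx hy
    | neg x _ hx => rw [mul_neg]; exact neg_mem hx
  obtain ⟨k, l, hkl⟩ : ∃ k l, d k l ≠ 0 := by
    by_contra hcon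
    push Not at hcon
    exact hd (Matrix.ext hcon)
  intro z
  rw [Matrix.matrix_eq_sum_single z]
  refine sum_mem fun i _ => sum_mem fun j _ => ?_
  have e1 : Matrix.single i j (z i j) =
      Matrix.single i k (z i j / d k l) * d * Matrix.single l j (1 : F) := by
    rw [Matrix.single_mul_mul_single, mul_one, div_mul_cancel₀ _ hkl]
  rw [e1]
  exact h2 _ (single_mem_closure i k _) _ (single_mem_closure l j _)

variable [Fintype F]

open scoped Classical in
theorem exists_new {Y : Finset (Matrix (Fin n) (Fin n) F)} (hY : Y.Nonempty)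
    (hYu : Y ≠ Finset.univ) {d : Matrix (Fin n) (Fin n) F} (hd : d ≠ 0) :
    ∃ a b : GL (Fin n) F, ∃ y ∈ Y, y + (a : Matrix (Fin n) (Fin n) F) * d * b ∉ Y := by
  by_contra hcon
  push Not at hcon
  let H : AddSubgroup (Matrix (Fin n) (Fin n) F) :=
    { carrier := {h | Y.image (fun y => y + h) = Y}
      zero_mem' := by
        change Y.image (fun y => y + 0) = Y
        simp only [add_zero]
        exact Finset.image_id
      add_mem' := by
        intro a b ha hb
        simp only [Set.mem_ofPred_eq] at ha hb ⊢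
        calc Y.image (fun y => y + (a + b)) = (Y.image (fun y => y + a)).image (fun y => y + b) := by
              rw [Finset.image_image]
              refine Finset.image_congr fun y _ => ?_
              simp only [Function.comp]
              rw [add_assoc]
          _ = Y := by rw [ha, hb]
      neg_mem' := by
        intro a ha
        simp only [Set.mem_ofPred_eq] at ha ⊢
        conv_lhs => rw [← ha]
        rw [Finset.image_image]
        have : ((fun y => y + -a) ∘ fun y => y + a) = (id : Matrix (Fin n) (Fin n) F → _) := by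
          funext y
          simp
        rw [this, Finset.image_id] }
  have hH : ∀ z, z ∈ H := by
    refine eq_top H hd ?_
    rintro a b ⟨a, rfl⟩ ⟨b, rfl⟩
    change Y.image (fun y => y + (a : Matrix (Fin n) (Fin n) F) * d * b) = Y
    refine Finset.eq_of_subset_of_card_le ?_ ?_
    · intro x hx
      obtain ⟨y, hy, rfl⟩ := Finset.mem_image.1 hx
      exact hcon a b y hy
    · rw [Finset.card_image_of_injective _ (fun x y h => add_right_cancel h)]
  apply hYu
  obtain ⟨y0, hy0⟩ := hY
  ext g
  simp only [Finset.mem_univ, iff_true]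
  have h1 : Y.image (fun y => y + (g - y0)) = Y := hH (g - y0)
  rw [← h1]
  exact Finset.mem_image.2 ⟨y0, hy0, by abel⟩

open scoped Classical in
theorem growth (μ : ℕ) : ∀ X : Fin μ → Finset (Matrix (Fin n) (Fin n) F), (∀ i, 2 ≤ (X i).card) →
    ∃ (a b : Fin μ → GL (Fin n) F) (S : Finset (Matrix (Fin n) (Fin n) F)),
      (∀ g ∈ S, ∃ x : Fin μ → Matrix (Fin n) (Fin n) F, (∀ i, x i ∈ X i) ∧
        ∑ i, (a i : Matrix (Fin n) (Fin n) F) * x i * b i = g) ∧
      (S = Finset.univ ∨ μ + 1 ≤ S.card) ∧ S.Nonempty := by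
  induction μ with
  | zero =>
    intro X _
    refine ⟨fun _ => 1, fun _ => 1, {0}, ?_, Or.inr (by simp), by simp⟩
    intro g hg
    refine ⟨fun _ => 0, fun i => i.elim0, ?_⟩
    simp [Finset.mem_singleton.1 hg]
  | succ μ ih =>
    intro X hX
    obtain ⟨a, b, S, hS, hSc, hSn⟩ := ih (fun i => X i.succ) (fun i => hX i.succ)
    obtain ⟨x, hx, x', hx', hne⟩ := Finset.one_lt_card.1 (hX 0)
    by_cases hSu : S = Finset.univ
    · refine ⟨Fin.cons 1 a, Fin.cons 1 b, Finset.univ, ?_, Or.inl rfl, Finset.univ_nonempty⟩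
      intro g _
      obtain ⟨y, hy, hyg⟩ := hS (g - x) (by rw [hSu]; exact Finset.mem_univ _)
      refine ⟨Fin.cons x y, ?_, ?_⟩
      · intro i
        refine Fin.cases ?_ (fun j => ?_) i
        · simpa using hx
        · simpa using hy j
      · rw [Fin.sum_univ_succ]
        simp only [Fin.cons_zero, Fin.cons_succ, Units.val_one, one_mul, mul_one, hyg]
        abel
    · obtain ⟨a0, b0, y0, hy0, hnew⟩ := exists_new hSn hSu (d := x' - x) (sub_ne_zero.2 hne.symm)
      set t : Matrix (Fin n) (Fin n) F := (a0 : Matrix (Fin n) (Fin n) F) * x * b0 with ht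
      have hrep : ∀ s ∈ S, ∀ z ∈ X 0, ∃ w : Fin (μ + 1) → Matrix (Fin n) (Fin n) F,
          (∀ i, w i ∈ X i) ∧ ∑ i, ((Fin.cons a0 a : Fin (μ + 1) → GL (Fin n) F) i :
            Matrix (Fin n) (Fin n) F) * w i * ((Fin.cons b0 b : Fin (μ + 1) → GL (Fin n) F) i :
            Matrix (Fin n) (Fin n) F) = (a0 : Matrix (Fin n) (Fin n) F) * z * b0 + s := by
        intro s hs z hz
        obtain ⟨y, hy, hyg⟩ := hS s hs
        refine ⟨Fin.cons z y, ?_, ?_⟩
        · intro i
          refine Fin.cases ?_ (fun j => ?_) i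
          · simpa using hz
          · simpa using hy j
        · rw [Fin.sum_univ_succ]
          simp only [Fin.cons_zero, Fin.cons_succ, hyg]
      refine ⟨Fin.cons a0 a, Fin.cons b0 b,
        insert ((a0 : Matrix (Fin n) (Fin n) F) * x' * b0 + y0) (S.image (fun s => t + s)), ?_, ?_,
        Finset.insert_nonempty _ _⟩
      · intro g hg
        rcases Finset.mem_insert.1 hg with rfl | hg
        · exact hrep y0 hy0 x' hx'
        · obtain ⟨s, hs, rfl⟩ := Finset.mem_image.1 hg
          exact hrep s hs x hx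
      · right
        rw [Finset.card_insert_of_notMem, Finset.card_image_of_injective _
          (fun x y h => add_left_cancel h)]
        · rcases hSc with h | h
          · exact absurd h hSu
          · omega
        · intro hmem
          obtain ⟨s, hs, hst⟩ := Finset.mem_image.1 hmem
          apply hnew
          have : y0 + (a0 : Matrix (Fin n) (Fin n) F) * (x' - x) * b0 = s := by
            rw [mul_sub, sub_mul]
            have e2 : s = (a0 : Matrix (Fin n) (Fin n) F) * x' * b0 + y0 - t := by
              rw [← hst]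
              abel
            rw [e2, ht]
            abel
          rw [this]
          exact hs

/-! ### The density of the general linear group -/

theorem card_GL_ge (hn : 1 ≤ n) :
    (Fintype.card (Matrix (Fin n) (Fin n) F) : ℝ) ≤ 4 * (Nat.card (GL (Fin n) F) : ℝ) := by
  have hq : 2 ≤ Fintype.card F := Fintype.one_lt_card
  set q := Fintype.card F with hqd
  have hq' : (2 : ℝ) ≤ q := by exact_mod_cast hq
  have h0 : Fintype.card (Matrix (Fin n) (Fin n) F) = q ^ (n * n) := by
    rw [show Fintype.card (Matrix (Fin n) (Fin n) F) = Fintype.card (Fin n → Fin n → F) from rfl]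
    rw [Fintype.card_fun, Fintype.card_fun, Fintype.card_fin, ← pow_mul]
  have h1 : (Nat.card (GL (Fin n) F) : ℝ) = ∏ i ∈ Finset.range n, ((q : ℝ) ^ n - (q : ℝ) ^ i) := by
    rw [Matrix.card_GL_field, Finset.prod_range, Nat.cast_prod]
    refine Finset.prod_congr rfl fun i _ => ?_
    rw [Nat.cast_sub (Nat.pow_le_pow_right (by omega) i.2.le)]
    push_cast
    rfl
  have key : ∀ m : ℕ, 1 ≤ m → (1 / 4 + (1 / 2 : ℝ) ^ (m + 1)) * (q : ℝ) ^ (m * m) ≤
      ∏ i ∈ Finset.range m, ((q : ℝ) ^ m - (q : ℝ) ^ i) := by
    intro m hm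
    induction m, hm using Nat.le_induction with
    | base =>
      norm_num
      linarith
    | succ m hm ih =>
      have e1 : ∏ i ∈ Finset.range (m + 1), ((q : ℝ) ^ (m + 1) - (q : ℝ) ^ i) =
          ((q : ℝ) ^ (m + 1) - 1) * ((q : ℝ) ^ m * ∏ i ∈ Finset.range m, ((q : ℝ) ^ m - (q : ℝ) ^ i)) := by
        rw [Finset.prod_range_succ', pow_zero, mul_comm]
        congr 1
        have : (q : ℝ) ^ m = ∏ _i ∈ Finset.range m, (q : ℝ) := by simp
        conv_rhs => rw [this]
        rw [← Finset.prod_mul_distrib]
        refine Finset.prod_congr rfl fun i _ => ?_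
        rw [← this]
        ring
      rw [e1]
      set t : ℝ := (1 / 2 : ℝ) ^ (m + 1) with ht
      have ht0 : 0 < t := by positivity
      have ht4 : t ≤ 1 / 4 := by
        have : t ≤ (1 / 2 : ℝ) ^ 2 := pow_le_pow_of_le_one (by norm_num) (by norm_num) (by omega)
        linarith
      have hQ : (1 : ℝ) ≤ t * (q : ℝ) ^ (m + 1) := by
        rw [ht, ← mul_pow]
        exact one_le_pow₀ (by linarith)
      have hQ0 : (0 : ℝ) < (q : ℝ) ^ (m + 1) := by positivity
      have e2 : (q : ℝ) ^ (m + 1) * (1 - t) ≤ (q : ℝ) ^ (m + 1) - 1 := by linarith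
      have e3 : (1 / 4 + t / 2) ≤ (1 - t) * (1 / 4 + t) := by nlinarith
      have e4 : (1 / 2 : ℝ) ^ (m + 1 + 1) = t / 2 := by
        rw [pow_succ, ← ht]
        ring
      rw [e4]
      have e5 : (q : ℝ) ^ ((m + 1) * (m + 1)) = (q : ℝ) ^ (m + 1) * ((q : ℝ) ^ m * (q : ℝ) ^ (m * m)) := by
        rw [← pow_add, ← pow_add]
        congr 1
        ring
      rw [e5]
      set A : ℝ := (q : ℝ) ^ m * (q : ℝ) ^ (m * m) with hA
      have hA0 : 0 ≤ A := by positivity
      have e6 : (1 / 4 + t) * A ≤ (q : ℝ) ^ m * ∏ i ∈ Finset.range m, ((q : ℝ) ^ m - (q : ℝ) ^ i) := by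
        calc (1 / 4 + t) * A = (q : ℝ) ^ m * ((1 / 4 + t) * (q : ℝ) ^ (m * m)) := by rw [hA]; ring
          _ ≤ _ := mul_le_mul_of_nonneg_left ih (by positivity)
      have hq1 : (0 : ℝ) ≤ (q : ℝ) ^ (m + 1) - 1 := by
        have : (1 : ℝ) ≤ (q : ℝ) ^ (m + 1) := one_le_pow₀ (by linarith)
        linarith
      calc (1 / 4 + t / 2) * ((q : ℝ) ^ (m + 1) * A)
          ≤ ((1 - t) * (1 / 4 + t)) * ((q : ℝ) ^ (m + 1) * A) :=
            mul_le_mul_of_nonneg_right e3 (by positivity)
        _ = ((q : ℝ) ^ (m + 1) * (1 - t)) * ((1 / 4 + t) * A) := by ring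
        _ ≤ ((q : ℝ) ^ (m + 1) - 1) * ((1 / 4 + t) * A) :=
            mul_le_mul_of_nonneg_right e2 (by positivity)
        _ ≤ _ := mul_le_mul_of_nonneg_left e6 hq1
  rw [h0, h1]
  have h2 := key n hn
  have h3 : (0 : ℝ) ≤ (1 / 2 : ℝ) ^ (n + 1) * (q : ℝ) ^ (n * n) := by positivity
  push_cast
  nlinarith

end Pool.Agent.X6.CoverMat
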