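import Mathlib
import Pool.Agent.X6.CoverMat1
import Pool.Agent.X6.CoverMat2
import Pool.Agent.X6.CoverMat3

/-!
The large case of the covering theorem for matrices.
-/

namespace Pool.Agent.X6.CoverMat

open Matrix

universe u

variable {F : Type u} [Field F] [Fintype F] {n : ℕ}

theorem card_Mat : Fintype.card (Matrix (Fin n) (Fin n) F) = Fintype.card F ^ (n * n) := by
  rw [show Fintype.card (Matrix (Fin n) (Fin n) F) = Fintype.card (Fin n → Fin n → F) from rfl]
  rw [Fintype.card_fun, Fintype.card_fun, Fintype.card_fin, ← pow_mul]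

open scoped Classical in
/-- pairs at small rank distance are few -/
theorem pair_sum (c : ℝ) (hc : 0 < c) (X : Finset (Matrix (Fin n) (Fin n) F))
    (hX : (Fintype.card F : ℝ) ^ (c * n ^ 2) ≤ X.card) (M : Matrix (Fin n) (Fin n) F) :
    ∑ x ∈ X, ∑ x' ∈ X,
      ((Finset.univ.filter (fun b : Matrix (Fin n) (Fin n) F => (x - x') * b * M = 0)).card : ℝ) ≤
      (Fintype.card (Matrix (Fin n) (Fin n) F) : ℝ) * (2 * (X.card : ℝ) ^ 2 *
        (Fintype.card F : ℝ) ^ (-(M.rank * c * n / 4))) := by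
  have hq : 2 ≤ Fintype.card F := Fintype.one_lt_card
  set q := Fintype.card F with hqd
  have hq1 : (1 : ℝ) < q := by exact_mod_cast hq
  have hq0 : (0 : ℝ) < q := by linarith
  set r := M.rank with hr
  have hrn : r ≤ n := by
    have := Matrix.rank_le_width M
    exact this
  set Q : ℝ := (Fintype.card (Matrix (Fin n) (Fin n) F) : ℝ) with hQ
  have hQ' : Q = (q : ℝ) ^ (n * n) := by rw [hQ, card_Mat]; push_cast; rfl
  have hQ0 : 0 < Q := by rw [hQ']; positivity
  set Z : Matrix (Fin n) (Fin n) F → ℝ := fun y =>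
    ((Finset.univ.filter (fun b : Matrix (Fin n) (Fin n) F => y * b * M = 0)).card : ℝ) with hZ
  have hZ1 : ∀ y, Z y ≤ Q := by
    intro y
    simp only [hZ, hQ]
    exact_mod_cast Finset.card_le_univ _
  have hZ2 : ∀ y, Z y * (q : ℝ) ^ (y.rank * r) ≤ Q := by
    intro y
    have := card_mul_mul_eq_zero y M
    simp only [hZ]
    rw [hQ']
    exact_mod_cast this
  set E : ℝ := (q : ℝ) ^ (-(r * c * n / 4)) with hE
  have hE0 : 0 < E := Real.rpow_pos_of_pos hq0 _
  set s0 : ℕ := ⌊c * n / 4⌋₊ with hs0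
  have hs0' : (s0 : ℝ) ≤ c * n / 4 := Nat.floor_le (by positivity)
  have hs1 : c * n / 4 < s0 + 1 := Nat.lt_floor_add_one _
  have hone : ∀ x ∈ X, ∑ x' ∈ X, Z (x - x') ≤ Q * (2 * X.card * E) := by
    intro x _
    rw [← Finset.sum_filter_add_sum_filter_not X (fun x' => (x - x').rank ≤ s0)]
    have h1 : ∑ x' ∈ X.filter (fun x' => (x - x').rank ≤ s0), Z (x - x') ≤ Q * (X.card * E) := by
      have h2 : ∑ x' ∈ X.filter (fun x' => (x - x').rank ≤ s0), Z (x - x') ≤
          ((X.filter (fun x' => (x - x').rank ≤ s0)).card : ℝ) * Q := by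
        rw [← nsmul_eq_mul]
        exact Finset.sum_le_card_nsmul _ _ _ (fun x' _ => hZ1 _)
      have h3 : (X.filter (fun x' => (x - x').rank ≤ s0)).card ≤ q ^ (2 * n * s0) := by
        refine le_trans ?_ (card_rank_le s0)
        refine Finset.card_le_card_of_injOn (fun x' => x - x') ?_ ?_
        · intro x' hx'
          rw [Finset.mem_coe, Finset.mem_filter] at hx' ⊢
          exact ⟨Finset.mem_univ _, hx'.2⟩
        · intro a _ b _ hab
          exact sub_right_injective hab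
      have h4 : ((X.filter (fun x' => (x - x').rank ≤ s0)).card : ℝ) ≤ X.card * E := by
        calc ((X.filter (fun x' => (x - x').rank ≤ s0)).card : ℝ) ≤ (q : ℝ) ^ (2 * n * s0) := by
              exact_mod_cast h3
          _ = (q : ℝ) ^ ((2 * n * s0 : ℕ) : ℝ) := (Real.rpow_natCast _ _).symm
          _ ≤ (q : ℝ) ^ (c * n ^ 2 + -(r * c * n / 4)) := by
              apply Real.rpow_le_rpow_of_exponent_le hq1.le
              push_cast
              have hn0 : (0 : ℝ) ≤ n := Nat.cast_nonneg n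
              have hrn' : (r : ℝ) ≤ n := by exact_mod_cast hrn
              have e1 : 2 * (n : ℝ) * s0 ≤ 2 * n * (c * n / 4) :=
                mul_le_mul_of_nonneg_left hs0' (by positivity)
              have e2 : (r : ℝ) * (c * n) ≤ n * (c * n) :=
                mul_le_mul_of_nonneg_right hrn' (by positivity)
              nlinarith [mul_nonneg (mul_nonneg hc.le hn0) hn0]
          _ = (q : ℝ) ^ (c * n ^ 2) * E := by rw [Real.rpow_add hq0]
          _ ≤ X.card * E := mul_le_mul_of_nonneg_right hX hE0.le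
      calc _ ≤ _ := h2
        _ ≤ (X.card * E) * Q := mul_le_mul_of_nonneg_right h4 hQ0.le
        _ = _ := by ring
    have h5 : ∑ x' ∈ X.filter (fun x' => ¬ (x - x').rank ≤ s0), Z (x - x') ≤ Q * (X.card * E) := by
      have h6 : ∀ x' ∈ X.filter (fun x' => ¬ (x - x').rank ≤ s0), Z (x - x') ≤ Q * E := by
        intro x' hx'
        have h7 : s0 + 1 ≤ (x - x').rank := by
          have := (Finset.mem_filter.1 hx').2
          omega
        have h8 := hZ2 (x - x')
        have h9 : E⁻¹ ≤ (q : ℝ) ^ ((x - x').rank * r) := by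
          rw [hE, ← Real.rpow_neg hq0.le, neg_neg]
          rw [← Real.rpow_natCast]
          apply Real.rpow_le_rpow_of_exponent_le hq1.le
          push_cast
          have : ((s0 : ℝ) + 1) ≤ (x - x').rank := by exact_mod_cast h7
          have hr0 : (0 : ℝ) ≤ r := Nat.cast_nonneg r
          nlinarith
        have h10 : Z (x - x') * E⁻¹ ≤ Q := by
          refine le_trans ?_ h8
          apply mul_le_mul_of_nonneg_left h9
          simp only [hZ]
          exact Nat.cast_nonneg _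
        calc Z (x - x') = (Z (x - x') * E⁻¹) * E := by field_simp
          _ ≤ Q * E := mul_le_mul_of_nonneg_right h10 hE0.le
      calc _ ≤ ((X.filter (fun x' => ¬ (x - x').rank ≤ s0)).card : ℝ) * (Q * E) := by
            rw [← nsmul_eq_mul]
            exact Finset.sum_le_card_nsmul _ _ _ h6
        _ ≤ (X.card : ℝ) * (Q * E) := by
            apply mul_le_mul_of_nonneg_right _ (by positivity)
            exact_mod_cast Finset.card_filter_le _ _
        _ = _ := by ring
    calc _ ≤ Q * (X.card * E) + Q * (X.card * E) := add_le_add h1 h5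
      _ = _ := by ring
  calc ∑ x ∈ X, ∑ x' ∈ X, Z (x - x') ≤ ∑ x ∈ X, Q * (2 * X.card * E) := Finset.sum_le_sum hone
    _ = _ := by
        rw [Finset.sum_const, nsmul_eq_mul]
        ring

open scoped Classical in
/-- the average of the Fourier transform over a double coset -/
theorem average (ψ : AddChar F ℂ) (hψ : ψ ≠ 1) (hn : 1 ≤ n) (c : ℝ) (hc : 0 < c)
    (X : Finset (Matrix (Fin n) (Fin n) F))
    (hX : (Fintype.card F : ℝ) ^ (c * n ^ 2) ≤ X.card) (M : Matrix (Fin n) (Fin n) F) :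
    ∑ p : GL (Fin n) F × GL (Fin n) F, ‖FX ψ X ((p.1 : Matrix (Fin n) (Fin n) F) * M * p.2)‖ ≤
      (Fintype.card (GL (Fin n) F × GL (Fin n) F) : ℝ) * ((X.card : ℝ) * (√32 *
        (Fintype.card F : ℝ) ^ (-(M.rank * c * n / 8)))) := by
  have hq : 2 ≤ Fintype.card F := Fintype.one_lt_card
  set q := Fintype.card F with hqd
  have hq1 : (1 : ℝ) < q := by exact_mod_cast hq
  have hq0 : (0 : ℝ) < q := by linarith
  set G : ℝ := (Fintype.card (GL (Fin n) F) : ℝ) with hG
  set Q : ℝ := (Fintype.card (Matrix (Fin n) (Fin n) F) : ℝ) with hQ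
  have hQG : Q ≤ 4 * G := by
    have := card_GL_ge (F := F) hn
    rw [Nat.card_eq_fintype_card] at this
    exact this
  have hQ0 : 0 ≤ Q := Nat.cast_nonneg _
  have hG0 : 0 ≤ G := Nat.cast_nonneg _
  have hGG : (Fintype.card (GL (Fin n) F × GL (Fin n) F) : ℝ) = G * G := by
    rw [Fintype.card_prod]
    push_cast
    rfl
  rw [hGG]
  set f : GL (Fin n) F × GL (Fin n) F → ℝ :=
    fun p => ‖FX ψ X ((p.1 : Matrix (Fin n) (Fin n) F) * M * p.2)‖ with hf
  have h1 : (∑ p, f p) ^ 2 ≤ (G * G) * ∑ p, f p ^ 2 := by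
    have := sq_sum_le_card_mul_sum_sq (s := (Finset.univ : Finset (GL (Fin n) F × GL (Fin n) F)))
      (f := f)
    rw [Finset.card_univ] at this
    rw [← hGG]
    exact_mod_cast this
  have h2 : ∑ p, f p ^ 2 ≤ ∑ b : Matrix (Fin n) (Fin n) F, ∑ a : Matrix (Fin n) (Fin n) F,
      ‖FX ψ X (b * M * a)‖ ^ 2 := by
    rw [← Finset.sum_product']
    have hinj : Function.Injective (fun p : GL (Fin n) F × GL (Fin n) F =>
        ((p.1 : Matrix (Fin n) (Fin n) F), (p.2 : Matrix (Fin n) (Fin n) F))) := by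
      rintro ⟨a, b⟩ ⟨a', b'⟩ h
      simp only [Prod.mk.injEq] at h
      exact Prod.ext (Units.ext h.1) (Units.ext h.2)
    have e1 : ∑ p, f p ^ 2 = ∑ x ∈ (Finset.univ : Finset (GL (Fin n) F × GL (Fin n) F)).image
        (fun p => ((p.1 : Matrix (Fin n) (Fin n) F), (p.2 : Matrix (Fin n) (Fin n) F))),
        ‖FX ψ X (x.1 * M * x.2)‖ ^ 2 := by
      rw [Finset.sum_image (fun a _ b _ h => hinj h)]
    rw [e1]
    exact Finset.sum_le_sum_of_subset_of_nonneg (fun x _ => by simp)
      (fun x _ _ => by positivity)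
  rw [second_moment ψ hψ X M] at h2
  have h3 := pair_sum c hc X hX M
  set E : ℝ := (q : ℝ) ^ (-(M.rank * c * n / 8)) with hE
  have hE0 : 0 < E := Real.rpow_pos_of_pos hq0 _
  have hEE : (q : ℝ) ^ (-(M.rank * c * n / 4)) = E * E := by
    rw [hE, ← Real.rpow_add hq0]
    congr 1
    ring
  rw [hEE] at h3
  have h4 : (∑ p, f p) ^ 2 ≤ (G * G * (X.card * (√32 * E))) ^ 2 := by
    calc (∑ p, f p) ^ 2 ≤ (G * G) * ∑ p, f p ^ 2 := h1
      _ ≤ (G * G) * (Q * (Q * (2 * (X.card : ℝ) ^ 2 * (E * E)))) := by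
          apply mul_le_mul_of_nonneg_left _ (by positivity)
          exact h2.trans (mul_le_mul_of_nonneg_left h3 hQ0)
      _ = (G * G) * ((Q * Q) * (2 * (X.card : ℝ) ^ 2 * (E * E))) := by ring
      _ ≤ (G * G) * (((4 * G) * (4 * G)) * (2 * (X.card : ℝ) ^ 2 * (E * E))) := by
          apply mul_le_mul_of_nonneg_left _ (by positivity)
          apply mul_le_mul_of_nonneg_right _ (by positivity)
          exact mul_le_mul hQG hQG hQ0 (by positivity)
      _ = (G * G * (X.card * E)) ^ 2 * (√32) ^ 2 := by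
          rw [Real.sq_sqrt (by norm_num)]
          ring
      _ = _ := by ring
  exact abs_le_of_sq_le_sq' h4 (by positivity) |>.2

/-- The sum over the nonzero matrices, by rank. -/
theorem sum_rank (hn : 1 ≤ n) [DecidableEq (Matrix (Fin n) (Fin n) F)] :
    ∑ M ∈ Finset.univ.erase (0 : Matrix (Fin n) (Fin n) F),
      ((Fintype.card F : ℝ) ^ (4 * n * M.rank))⁻¹ < 1 := by
  classical
  have hq : 2 ≤ Fintype.card F := Fintype.one_lt_card
  set q := Fintype.card F with hqd
  have hq1 : (1 : ℝ) < q := by exact_mod_cast hq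
  have hq0 : (0 : ℝ) < q := by linarith
  have hmaps : ∀ M ∈ Finset.univ.erase (0 : Matrix (Fin n) (Fin n) F), M.rank ∈ Finset.Icc 1 n := by
    intro M hM
    rw [Finset.mem_Icc]
    refine ⟨?_, Matrix.rank_le_width M⟩
    by_contra hcon
    have h0 : M.rank ≤ 0 := by omega
    obtain ⟨A, B, h⟩ := exists_factor M 0 h0
    apply (Finset.mem_erase.1 hM).1
    rw [h]
    ext i j
    simp [Matrix.mul_apply]
  rw [← Finset.sum_fiberwise_of_maps_to hmaps]
  have h1 : ∀ r ∈ Finset.Icc 1 n, ∑ M ∈ (Finset.univ.erase (0 : Matrix (Fin n) (Fin n) F)).filter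
      (fun M => M.rank = r), ((q : ℝ) ^ (4 * n * M.rank))⁻¹ ≤ ((q : ℝ) ^ (2 * n))⁻¹ := by
    intro r hr
    have hr1 := (Finset.mem_Icc.1 hr).1
    have h2 : ∑ M ∈ (Finset.univ.erase (0 : Matrix (Fin n) (Fin n) F)).filter
      (fun M => M.rank = r), ((q : ℝ) ^ (4 * n * M.rank))⁻¹ =
      (((Finset.univ.erase (0 : Matrix (Fin n) (Fin n) F)).filter
      (fun M => M.rank = r)).card : ℝ) * ((q : ℝ) ^ (4 * n * r))⁻¹ := by
      rw [← nsmul_eq_mul, ← Finset.sum_const]
      refine Finset.sum_congr rfl fun M hM => ?_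
      rw [(Finset.mem_filter.1 hM).2]
    rw [h2]
    have h3 : ((Finset.univ.erase (0 : Matrix (Fin n) (Fin n) F)).filter
      (fun M => M.rank = r)).card ≤ q ^ (2 * n * r) := by
      refine le_trans (Finset.card_le_card ?_) (card_rank_le r)
      intro M hM
      exact Finset.mem_filter.2 ⟨Finset.mem_univ _, (Finset.mem_filter.1 hM).2.le⟩
    have h4 : (((Finset.univ.erase (0 : Matrix (Fin n) (Fin n) F)).filter
      (fun M => M.rank = r)).card : ℝ) ≤ (q : ℝ) ^ (2 * n * r) := by exact_mod_cast h3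
    calc _ ≤ (q : ℝ) ^ (2 * n * r) * ((q : ℝ) ^ (4 * n * r))⁻¹ :=
          mul_le_mul_of_nonneg_right h4 (by positivity)
      _ = ((q : ℝ) ^ (2 * n * r))⁻¹ := by
          have e1 : (q : ℝ) ^ (4 * n * r) = (q : ℝ) ^ (2 * n * r) * (q : ℝ) ^ (2 * n * r) := by
            rw [← pow_add]
            congr 1
            ring
          rw [e1]
          field_simp
      _ ≤ ((q : ℝ) ^ (2 * n))⁻¹ := by
          apply inv_anti₀ (by positivity)
          apply pow_le_pow_right₀ hq1.le
          exact Nat.le_mul_of_pos_right _ hr1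
  calc _ ≤ ∑ _r ∈ Finset.Icc 1 n, ((q : ℝ) ^ (2 * n))⁻¹ := Finset.sum_le_sum h1
    _ = (n : ℝ) * ((q : ℝ) ^ (2 * n))⁻¹ := by
        rw [Finset.sum_const, Nat.card_Icc, nsmul_eq_mul]
        simp
    _ < 1 := by
        rw [mul_inv_lt_iff₀ (by positivity), one_mul]
        have e1 : n < 2 ^ n := Nat.lt_two_pow_self
        have e2 : (2 : ℕ) ^ n ≤ q ^ (2 * n) := by
          calc (2 : ℕ) ^ n ≤ q ^ n := Nat.pow_le_pow_left hq n
            _ ≤ q ^ (2 * n) := Nat.pow_le_pow_right (by omega) (by omega)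
        exact_mod_cast lt_of_lt_of_le e1 e2

/-- The large case. -/
theorem large (c : ℝ) (hc : 0 < c) (μ : ℕ) (hμ : 64 / c ≤ μ) (hn : 1 ≤ n)
    (hbig : √32 ≤ (Fintype.card F : ℝ) ^ (c * n / 16))
    (X : Fin μ → Finset (Matrix (Fin n) (Fin n) F))
    (hX : ∀ i, (Fintype.card F : ℝ) ^ (c * n ^ 2) ≤ (X i).card) :
    ∃ a b : Fin μ → GL (Fin n) F, ∀ g : Matrix (Fin n) (Fin n) F,
      ∃ x : Fin μ → Matrix (Fin n) (Fin n) F, (∀ i, x i ∈ X i) ∧
        ∑ i, (a i : Matrix (Fin n) (Fin n) F) * x i * b i = g := by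
  classical
  have hq : 2 ≤ Fintype.card F := Fintype.one_lt_card
  set q := Fintype.card F with hqd
  have hq1 : (1 : ℝ) < q := by exact_mod_cast hq
  have hq0 : (0 : ℝ) < q := by linarith
  obtain ⟨ψ, hψ⟩ : ∃ ψ : AddChar F ℂ, ψ ≠ 1 := by
    refine ⟨AddChar.FiniteField.primitiveChar_to_Complex F, ?_⟩
    have h1 := AddChar.FiniteField.primitiveChar_to_Complex_isPrimitive F
    have h2 := h1 (a := (1 : F)) one_ne_zero
    rwa [AddChar.mulShift_one] at h2
  have hXpos : ∀ i, (0 : ℝ) < (X i).card := fun i =>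
    lt_of_lt_of_le (Real.rpow_pos_of_pos hq0 _) (hX i)
  obtain ⟨p, hp⟩ := exists_choice (G := GL (Fin n) F × GL (Fin n) F)
    (Finset.univ.erase (0 : Matrix (Fin n) (Fin n) F))
    (fun i M p => ‖FX ψ (X i) ((p.1 : Matrix (Fin n) (Fin n) F) * M * p.2)‖)
    (fun i M => ((X i).card : ℝ) * (√32 * (q : ℝ) ^ (-(M.rank * c * n / 8))))
    (fun i M => Finset.sum_nonneg (fun p _ => norm_nonneg _))
    (fun i M _ => average ψ hψ hn c hc (X i) (hX i) M)
  refine ⟨fun i => (p i).2, fun i => (p i).1, ?_⟩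
  intro g
  refine exists_rep ψ hψ X (fun i => ((p i).2 : Matrix (Fin n) (Fin n) F))
    (fun i => ((p i).1 : Matrix (Fin n) (Fin n) F)) ?_ g
  have hpos : 0 < ∏ i, ((X i).card : ℝ) := Finset.prod_pos (fun i _ => hXpos i)
  have h1 : ∑ M ∈ Finset.univ.erase (0 : Matrix (Fin n) (Fin n) F), ∏ i : Fin μ,
      (((X i).card : ℝ) * (√32 * (q : ℝ) ^ (-(M.rank * c * n / 8)))) ≤
      (∏ i, ((X i).card : ℝ)) * ∑ M ∈ Finset.univ.erase (0 : Matrix (Fin n) (Fin n) F),
        ((q : ℝ) ^ (4 * n * M.rank))⁻¹ := by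
    rw [Finset.mul_sum]
    refine Finset.sum_le_sum fun M hM => ?_
    rw [Finset.prod_mul_distrib]
    refine mul_le_mul_of_nonneg_left ?_ hpos.le
    rw [Finset.prod_const, Finset.card_univ, Fintype.card_fin]
    have hr1 : 1 ≤ M.rank := by
      by_contra hcon
      have h0 : M.rank ≤ 0 := by omega
      obtain ⟨A, B, h⟩ := exists_factor M 0 h0
      apply (Finset.mem_erase.1 hM).1
      rw [h]
      ext i j
      simp [Matrix.mul_apply]
    have hr1' : (1 : ℝ) ≤ M.rank := by exact_mod_cast hr1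
    have hn' : (1 : ℝ) ≤ n := by exact_mod_cast hn
    have e1 : √32 * (q : ℝ) ^ (-(M.rank * c * n / 8)) ≤ (q : ℝ) ^ (-(M.rank * c * n / 16)) := by
      calc √32 * (q : ℝ) ^ (-(M.rank * c * n / 8)) ≤
          (q : ℝ) ^ (c * n / 16) * (q : ℝ) ^ (-(M.rank * c * n / 8)) :=
            mul_le_mul_of_nonneg_right hbig (Real.rpow_nonneg hq0.le _)
        _ = (q : ℝ) ^ (c * n / 16 + -(M.rank * c * n / 8)) := by rw [Real.rpow_add hq0]
        _ ≤ _ := by
            apply Real.rpow_le_rpow_of_exponent_le hq1.le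
            have : c * n ≤ M.rank * (c * n) := le_mul_of_one_le_left (by positivity) hr1'
            nlinarith
    calc (√32 * (q : ℝ) ^ (-(M.rank * c * n / 8))) ^ μ ≤
        ((q : ℝ) ^ (-(M.rank * c * n / 16))) ^ μ :=
          pow_le_pow_left₀ (by positivity) e1 μ
      _ = (q : ℝ) ^ (-(M.rank * c * n / 16) * μ) := by
          rw [Real.rpow_mul hq0.le, Real.rpow_natCast]
      _ ≤ (q : ℝ) ^ (-((4 * n * M.rank : ℕ) : ℝ)) := by
          apply Real.rpow_le_rpow_of_exponent_le hq1.le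
          push_cast
          rw [div_le_iff₀ hc] at hμ
          have : (M.rank : ℝ) * n * 64 ≤ M.rank * n * (μ * c) :=
            mul_le_mul_of_nonneg_left hμ (by positivity)
          nlinarith
      _ = ((q : ℝ) ^ (4 * n * M.rank))⁻¹ := by
          rw [Real.rpow_neg hq0.le, Real.rpow_natCast]
  refine lt_of_le_of_lt (hp.trans h1) ?_
  calc _ < (∏ i, ((X i).card : ℝ)) * 1 := mul_lt_mul_of_pos_left (sum_rank hn) hpos
    _ = _ := mul_one _

end Pool.Agent.X6.CoverMat
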